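import Pool.Agent.Lib.MP_17a322_nt.VDA.P3

/-!
Vojta's inequality with arbitrary divisors on abelian varieties.
-/

universe u

namespace Pool.Agent.Lib.MP_17a322_nt.VA.PX

open MvPolynomial Height Filter
open Pool.Agent.Lib.MP_17a322_nt.RO
open Pool.Agent.Lib.MP_17a322_nt.VJ
open Pool.Agent.Lib.MP_17a322_nt.VN

theorem Pl_infinite {K : Type*} [Field K] [NumberField K] (v : NumberField.InfinitePlace K) :
    Pl v.val := by
  exact Or.inl (NumberField.mem_multisetInfinitePlace.2 v.isInfinitePlace)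

theorem Pl_finite {K : Type*} [Field K] [NumberField K] (v : NumberField.FinitePlace K) :
    Pl v.val := by
  exact Or.inr v.isFinitePlace

theorem prod_not_mem {K : Type u} [Field K] {N : ℕ} (A : AV K N) {ι : Type*} (s : Finset ι)
    (G : ι → MvPolynomial (Fin (N + 1)) K) (h : ∀ i ∈ s, G i ∉ A.I) : ∏ i ∈ s, G i ∉ A.I := by
  have hp := Z_prime A
  intro h0
  obtain ⟨i, hi, h1⟩ := hp.prod_mem_iff.1 h0
  exact h i hi h1

/-- The proximity inequality. -/
theorem prox {K : Type u} [Field K] [NumberField K] {N : ℕ} (A : AV K N)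
    (Γ : AddSubgroup (A.Pts K)) (hΓ : Γ.FG) (d : ℕ)
    (f : MvPolynomial (Fin (N + 1)) K) (hf : f.IsHomogeneous d) (hfA : f ∉ A.I)
    (S : Finset (NumberField.FinitePlace K)) (ε : ℝ) (hε : 0 < ε) :
    ∃ (G : MvPolynomial (Fin (N + 1)) K) (C : ℝ), G ∉ A.I ∧ (∃ D, G.IsHomogeneous D) ∧
      ∀ P ∈ Γ, aeval (A.x P) G ≠ 0 →
        (∑ v : NumberField.InfinitePlace K, (v.mult : ℝ) * tmA f d (A.x P) v) +
          ∑ v ∈ S, tmA f d (A.x P) v ≤ ε * logHeight (A.x P) + C := by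
  classical
  obtain ⟨M, hM⟩ : ∃ M : ℝ, M = ∑ v : NumberField.InfinitePlace K, (v.mult : ℝ) + S.card + 1 :=
    ⟨_, rfl⟩
  have hM0 : 0 < M := by
    rw [hM]
    have h1 : 0 ≤ ∑ v : NumberField.InfinitePlace K, (v.mult : ℝ) :=
      Finset.sum_nonneg fun i _ => Nat.cast_nonneg _
    have h2 : (0 : ℝ) ≤ S.card := Nat.cast_nonneg _
    linarith
  have h1 := fun v : NumberField.InfinitePlace K =>
    one_place A Γ hΓ d f hf hfA (Pl_infinite v) (ε / M) (div_pos hε hM0)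
  have h2 := fun v : NumberField.FinitePlace K =>
    one_place A Γ hΓ d f hf hfA (Pl_finite v) (ε / M) (div_pos hε hM0)
  choose G₁ C₁ hG₁ hD₁ hC₁ using h1
  choose G₂ C₂ hG₂ hD₂ hC₂ using h2
  choose D₁ hD₁ using hD₁
  choose D₂ hD₂ using hD₂
  have hpr := Z_prime A
  refine ⟨(∏ v, G₁ v) * ∏ v ∈ S, G₂ v,
    ∑ v : NumberField.InfinitePlace K, (v.mult : ℝ) * C₁ v + ∑ v ∈ S, C₂ v, ?_, ?_, ?_⟩
  · intro h0
    rcases hpr.mem_or_mem h0 with h3 | h3
    · exact prod_not_mem A _ _ (fun v _ => hG₁ v) h3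
    · exact prod_not_mem A _ _ (fun v _ => hG₂ v) h3
  · exact ⟨_, (IsHomogeneous.prod _ _ _ fun v _ => hD₁ v).mul
      (IsHomogeneous.prod _ _ _ fun v _ => hD₂ v)⟩
  · intro P hP hG
    rw [map_mul, map_prod, map_prod] at hG
    have hG1 := fun v => Finset.prod_ne_zero_iff.1 (left_ne_zero_of_mul hG) v (Finset.mem_univ v)
    have hG2 := Finset.prod_ne_zero_iff.1 (right_ne_zero_of_mul hG)
    obtain ⟨H, hH⟩ : ∃ H : ℝ, H = logHeight (A.x P) := ⟨_, rfl⟩
    have hH0 : 0 ≤ H := by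
      rw [hH]
      exact logHeight_nonneg _
    rw [← hH]
    have h3 : ∑ v : NumberField.InfinitePlace K, (v.mult : ℝ) * tmA f d (A.x P) v ≤
        ∑ v : NumberField.InfinitePlace K, (v.mult : ℝ) * (ε / M * H + C₁ v) := by
      refine Finset.sum_le_sum fun v _ => mul_le_mul_of_nonneg_left ?_ (Nat.cast_nonneg _)
      have h4 := hC₁ v P hP (hG1 v)
      rw [← hH] at h4
      exact h4
    have h4 : ∑ v ∈ S, tmA f d (A.x P) v ≤ ∑ v ∈ S, (ε / M * H + C₂ v) := by
      refine Finset.sum_le_sum fun v hv => ?_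
      have h4 := hC₂ v P hP (hG2 v hv)
      rw [← hH] at h4
      exact h4
    have h5 : ∑ v : NumberField.InfinitePlace K, (v.mult : ℝ) * (ε / M * H + C₁ v) =
        (∑ v : NumberField.InfinitePlace K, (v.mult : ℝ)) * (ε / M * H) +
          ∑ v : NumberField.InfinitePlace K, (v.mult : ℝ) * C₁ v := by
      rw [Finset.sum_mul, ← Finset.sum_add_distrib]
      exact Finset.sum_congr rfl fun v _ => by ring
    have h6 : ∑ v ∈ S, (ε / M * H + C₂ v) = S.card * (ε / M * H) + ∑ v ∈ S, C₂ v := by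
      rw [Finset.sum_add_distrib, Finset.sum_const, nsmul_eq_mul]
    have h7 : M * (ε / M * H) = ε * H := by
      field_simp
    have h8 : 0 ≤ ε / M * H := mul_nonneg (div_nonneg hε.le hM0.le) hH0
    have h9 : M * (ε / M * H) = (∑ v : NumberField.InfinitePlace K, (v.mult : ℝ)) * (ε / M * H) +
        S.card * (ε / M * H) + ε / M * H := by
      rw [hM]
      ring
    rw [h5] at h3
    rw [h6] at h4
    linarith

/-- Vojta's inequality on abelian varieties: the height with respect to a closed subscheme of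
codimension two and the proximity to a divisor. -/
theorem final {K : Type u} [Field K] [NumberField K] {N : ℕ} (A : AV K N)
    (Γ : AddSubgroup (A.Pts K)) (hΓ : Γ.FG) (d r : ℕ)
    (g : Fin r → MvPolynomial (Fin (N + 1)) K) (hg : ∀ k, (g k).IsHomogeneous d)
    (hY : ∀ (F : Type u) [Field F] [Algebra K F] (P : A.Pts F), (∀ k, aeval (A.x P) (g k) = 0) →
      ∃ (F' : Type u) (_ : Field F') (_ : Algebra K F') (Q : A.Pts F'),
        tdeg K (A.x P) + 2 ≤ tdeg K (A.x Q))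
    (e : ℕ) (f : MvPolynomial (Fin (N + 1)) K) (hf : f.IsHomogeneous e) (hfA : f ∉ A.I)
    (S : Finset (NumberField.FinitePlace K)) (ε : ℝ) (hε : 0 < ε) :
    ∃ (G : MvPolynomial (Fin (N + 1)) K) (C : ℝ), G ∉ A.I ∧ (∃ D, G.IsHomogeneous D) ∧ f ∣ G ∧
      ∀ P ∈ Γ, aeval (A.x P) G ≠ 0 →
        (d * logHeight (A.x P) - logHeight (fun k => aeval (A.x P) (g k))) +
        ((∑ v : NumberField.InfinitePlace K, (v.mult : ℝ) *
            (e * Real.log (⨆ i, v (A.x P i)) - Real.log (v (aeval (A.x P) f)))) +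
          ∑ v ∈ S, (e * Real.log (⨆ i, v (A.x P i)) - Real.log (v (aeval (A.x P) f)))) ≤
          ε * logHeight (A.x P) + C := by
  obtain ⟨G₁, C₁, hG₁, ⟨D₁, hD₁⟩, h₁⟩ := VA.final A Γ hΓ d r g hg hY (ε / 2) (half_pos hε)
  obtain ⟨G₂, C₂, hG₂, ⟨D₂, hD₂⟩, h₂⟩ := prox A Γ hΓ e f hf hfA S (ε / 2) (half_pos hε)
  have hpr := Z_prime A
  refine ⟨f * (G₁ * G₂), C₁ + C₂, ?_, ⟨_, hf.mul (hD₁.mul hD₂)⟩, dvd_mul_right _ _,
    fun P hP hG => ?_⟩
  · intro h0
    rcases hpr.mem_or_mem h0 with h3 | h3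
    · exact hfA h3
    · rcases hpr.mem_or_mem h3 with h4 | h4
      · exact hG₁ h4
      · exact hG₂ h4
  · rw [map_mul, map_mul] at hG
    have h3 := right_ne_zero_of_mul hG
    have h4 := h₁ P hP (left_ne_zero_of_mul h3)
    have h5 := h₂ P hP (right_ne_zero_of_mul h3)
    simp only [tmA] at h5
    linarith

end Pool.Agent.Lib.MP_17a322_nt.VA.PX
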