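import Pool.Agent.Lib.MP_17a322_nt.VDA.J0
import Pool.Agent.Lib.MP_17a322_nt.VA.C5a
import Pool.Agent.Lib.MP_17a322_nt.VA.C6
import Pool.Agent.Lib.MP_17a322_nt.VA.C7
import Pool.Agent.Lib.MP_17a322_nt.VN.C10

/-!
The entries of the matrix of the joint conditions.
-/

universe u

namespace Pool.Agent.Lib.MP_17a322_nt.VDA

open MvPolynomial Height
open Pool.Agent.Lib.MP_17a322_nt.RO
open Pool.Agent.Lib.MP_17a322_nt.VJ
open Pool.Agent.Lib.MP_17a322_nt.VN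
open Pool.Agent.Lib.MP_17a322_nt.VA

theorem J2_total_le {R : Type*} [CommRing R] {σ : Type*} [Fintype σ] (F : MvPolynomial σ R) {D : ℕ}
    (h : ∀ m ∈ F.support, ∑ t, m t ≤ D) : F.totalDegree ≤ D := by
  unfold MvPolynomial.totalDegree
  refine Finset.sup_le fun m hm => ?_
  rw [Finsupp.sum_fintype _ _ fun _ => rfl]
  exact h m hm

section

variable {K : Type u} [Field K] {N : ℕ} {A : AV K N} {k e₀ : ℕ} (nd : Noe A (k + 1) e₀)

theorem J2_RR_zero {R : Type*} [CommRing R] {a n e : ℕ}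
    (M : Fin a → Matrix (Fin (e + 1)) (Fin (e + 1)) (MvPolynomial (Fin n) R)) (l : Fin (e + 1)) :
    RR M 0 l = 0 := by
  unfold RR
  rw [MvPolynomial.support_zero, Finset.sum_empty]

theorem MCJA_zero {e m : ℕ} (ρ : Fin m → REP K (k + 1) e) {D : ℕ} (hD : ∀ i, (ρ i).Deg D)
    {N' J : ℕ} {j : Fin m → ℕ} (hj : ∀ i, j i ≤ J) (c : Fin m → Fin (N + 1)) (r' : Fin (e₀ + 1))
    (r : Fin m → Fin (e₀ + 1)) (l : Fin m → Fin (e + 1)) (q : Fin (k + 1) → ℕ)
    (β : Fin m → Fin (k + 1) → ℕ) (a : Fin (k + 1) → ℕ) (ν : Fin m → Fin (k + 1) → ℕ)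
    (ha : a ∈ box (fun _ : Fin (k + 1) => N' * 4 ^ J + 1))
    (hν : ν ∈ BB (fun i : Fin m => N' * 4 ^ (J - j i) + 1))
    (h : MCJA nd ρ j (fun i => N' * 4 ^ (J - j i)) c r' r l q β a ν ≠ 0) :
    q ∈ box (fun _ : Fin (k + 1) => (2 * (k + 1) * nd.DM * m + 1) * (N' * 4 ^ J) + 1) ∧
      β ∈ BB (fun i : Fin m => 2 * (k + 1) * nd.DM * D * (N' * 4 ^ (J - j i)) + 1) := by
  classical
  have hν' : ∀ i t, ν i t ≤ N' * 4 ^ (J - j i) := fun i t =>
    Nat.lt_succ_iff.1 ((mem_BB _ _).1 hν i t)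
  have ha' : ∀ t, a t ≤ N' * 4 ^ J := fun t => Nat.lt_succ_iff.1 ((mem_box _ _).1 ha t)
  have hbj : ∀ i, N' * 4 ^ (J - j i) * 4 ^ j i = N' * 4 ^ J := by
    intro i
    rw [mul_assoc, ← pow_add, Nat.sub_add_cancel (hj i)]
  have hBD : ∀ i, BD (HA nd (ρ i) (j i) (N' * 4 ^ (J - j i)) (c i) (r i) (l i) (ν i))
      (2 * ((k + 1) * (N' * 4 ^ J)))
      (2 * ((k + 1) * (N' * 4 ^ (J - j i))) * nd.DM * D) := by
    intro i
    have h1 := HA_BD nd (ρ i) (hD i) (j i) (N' * 4 ^ (J - j i)) (c i) (r i) (l i) (ν i) (hν' i)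
    rw [hbj i] at h1
    exact h1
  obtain ⟨P, hP⟩ : ∃ P : MvPolynomial (Fin (N + 1)) K,
    P = ∏ i, cz (HA nd (ρ i) (j i) (N' * 4 ^ (J - j i)) (c i) (r i) (l i) (ν i)) (β i) :=
      ⟨_, rfl⟩
  unfold MCJA at h
  rw [← hP] at h
  have hP0 : P ≠ 0 := by
    intro h0
    rw [h0, J2_RR_zero, mul_zero, coeff_zero] at h
    exact h rfl
  have hcz : ∀ i, cz (HA nd (ρ i) (j i) (N' * 4 ^ (J - j i)) (c i) (r i) (l i) (ν i)) (β i) ≠
      0 := by
    intro i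
    rw [hP] at hP0
    exact Finset.prod_ne_zero_iff.1 hP0 i (Finset.mem_univ i)
  refine ⟨(mem_box _ _).2 fun t => ?_, (mem_BB _ _).2 fun i t => ?_⟩
  · have h1 := monomial_le_degreeOf t (mem_support_iff.2 h)
    have h2 : (Finsupp.equivFunOnFinite.symm q : Fin (k + 1) →₀ ℕ) t = q t := rfl
    rw [h2] at h1
    have h3 : degreeOf t (∏ t, (X t : MvPolynomial (Fin (k + 1)) K) ^ a t) ≤ a t := by
      refine (degreeOf_prod_le _ _ _).trans ?_
      rw [Finset.sum_eq_single t]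
      · exact C05_degX _ _ _ _ fun _ => le_rfl
      · intro t' _ ht'
        exact Nat.le_zero.1 (C05_degX _ _ _ _ fun h => absurd h.symm ht')
      · intro h
        exact absurd (Finset.mem_univ t) h
    have h4 : P.totalDegree ≤ m * (2 * ((k + 1) * (N' * 4 ^ J))) := by
      rw [hP]
      refine (totalDegree_finsetProd _ _).trans ?_
      refine (Finset.sum_le_card_nsmul Finset.univ _ (2 * ((k + 1) * (N' * 4 ^ J)))
        fun i _ => J2_total_le _ (cz_support (hBD i) (β i))).trans (le_of_eq ?_)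
      rw [Finset.card_univ, Fintype.card_fin, smul_eq_mul]
    have h5 := RR_total nd.Mx (C7_total P h4) (le_DM nd) r'
    have h6 : degreeOf t (RR nd.Mx P r') ≤ m * (2 * ((k + 1) * (N' * 4 ^ J))) * nd.DM :=
      (degreeOf_le_totalDegree _ _).trans h5
    have h7 := h1.trans (degreeOf_mul_le _ _ _)
    have h8 := ha' t
    have h9 : (2 * (k + 1) * nd.DM * m + 1) * (N' * 4 ^ J) =
        m * (2 * ((k + 1) * (N' * 4 ^ J))) * nd.DM + N' * 4 ^ J := by ring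
    rw [h9]
    omega
  · have h1 := cz_ne_zero (hBD i) (hcz i)
    have h2 : β i t ≤ ∑ t, β i t :=
      Finset.single_le_sum (f := fun t => β i t) (fun _ _ => Nat.zero_le _) (Finset.mem_univ t)
    have h3 : 2 * (k + 1) * nd.DM * D * (N' * 4 ^ (J - j i)) =
        2 * ((k + 1) * (N' * 4 ^ (J - j i))) * nd.DM * D := by ring
    rw [h3]
    omega

theorem exists_HA_NV' : ∃ E : SC K, ∀ (v : AbsoluteValue K ℝ) {e : ℕ} (ρ : REP K (k + 1) e)
    (j b : ℕ) (c : Fin (N + 1)) (r : Fin (e₀ + 1)) (l : Fin (e + 1)) (ν : Fin (k + 1) → ℕ),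
    (∀ t, ν t ≤ b) → NV v (HA nd ρ j b c r l ν) ≤
      E.k v ^ (b * 4 ^ j) * (cst v (e + 1) * ρ.RB v) ^ (2 * (k + 1) * nd.DM * b) := by
  obtain ⟨E, hE⟩ := exists_HA_NV nd
  refine ⟨E, fun v e ρ j b c r l ν hν => ?_⟩
  have h1 := hE v ρ j b c r l ν hν
  have h2 : (ρ.map (algebraMap K K)).RB v = ρ.RB v := by
    unfold REP.RB REP.map
    simp only [Algebra.algebraMap_self, MvPolynomial.map_id]
  rw [h2, Algebra.algebraMap_self, MvPolynomial.map_id] at h1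
  have h3 : 2 * (k + 1) * nd.DM * b = 2 * ((k + 1) * b) * nd.DM := by ring
  rw [h3]
  exact h1

theorem exists_MCJA_le : ∃ E : SC K, ∀ (v : AbsoluteValue K ℝ) {e m : ℕ}
    (ρ : Fin m → REP K (k + 1) e) (j b : Fin m → ℕ) (c : Fin m → Fin (N + 1))
    (r' : Fin (e₀ + 1)) (r : Fin m → Fin (e₀ + 1)) (l : Fin m → Fin (e + 1))
    (q : Fin (k + 1) → ℕ) (β : Fin m → Fin (k + 1) → ℕ) (a : Fin (k + 1) → ℕ)
    (ν : Fin m → Fin (k + 1) → ℕ), (∀ i t, ν i t ≤ b i) →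
    v (MCJA nd ρ j b c r' r l q β a ν) ≤ ∏ i, (E.k v ^ (b i * 4 ^ j i) *
      (cst v (e + 1) * (ρ i).RB v) ^ (2 * (k + 1) * nd.DM * b i)) := by
  classical
  obtain ⟨E1, hE1⟩ := exists_HA_NV' nd
  obtain ⟨E2, hE2⟩ := C7_fam (fun p : Fin (N + 1) × Fin (e₀ + 1) × Fin (e₀ + 1) =>
    nd.Mx p.1 p.2.1 p.2.2)
  obtain ⟨E3, hE3⟩ := (Adm_cst.{u, u} (K := K) (e₀ + 1)).exists_SC
  obtain ⟨E, hE⟩ : ∃ E : SC K, E = E1.mul ((E3.mul E2).pw (2 * (k + 1))) := ⟨_, rfl⟩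
  refine ⟨E, fun v e m ρ j b c r' r l q β a ν hν => ?_⟩
  have hS := SN_NV v (σ := Fin (k + 1))
  have hS' := SN_NV v (σ := Fin (N + 1))
  have e1 : 1 ≤ E1.k v := E1.one_le v
  have e2 : 1 ≤ E2.k v := E2.one_le v
  have e3 : 1 ≤ E3.k v := E3.one_le v
  have hc1 : 1 ≤ cst v (e₀ + 1) := one_le_cst v (Nat.succ_pos _)
  obtain ⟨B, hB⟩ : ∃ B : ℝ, B = cst v (e₀ + 1) * E2.k v := ⟨_, rfl⟩
  have hB1 : 1 ≤ B := by
    rw [hB]
    exact one_le_mul_of_one_le_of_one_le hc1 e2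
  have hB0 : 0 ≤ B := zero_le_one.trans hB1
  have hBE : B ^ (2 * (k + 1)) ≤ ((E3.mul E2).pw (2 * (k + 1))).k v := by
    refine (pow_le_pow_left₀ hB0 ?_ _).trans (SC.pow_le _ _ v)
    rw [hB]
    exact (mul_le_mul_of_nonneg_right (hE3 K v) (zero_le_one.trans e2)).trans (SC.mul_le _ _ v)
  have hM : ∀ (j' : Fin (N + 1)) (l' m' : Fin (e₀ + 1)), NV v (nd.Mx j' l' m') ≤ E2.k v := by
    intro j' l' m'
    have h1 := hE2 (j', l', m') K v
    rw [Algebra.algebraMap_self, MvPolynomial.map_id] at h1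
    exact h1
  obtain ⟨P, hP⟩ : ∃ P : MvPolynomial (Fin (N + 1)) K,
    P = ∏ i, cz (HA nd (ρ i) (j i) (b i) (c i) (r i) (l i) (ν i)) (β i) := ⟨_, rfl⟩
  unfold MCJA
  rw [← hP]
  refine (coeff_le_NV v _ _).trans ?_
  have h5 : NV v (∏ t, (X t : MvPolynomial (Fin (k + 1)) K) ^ a t) ≤ 1 := by
    refine (hS.prod_le Finset.univ _).trans ?_
    refine Finset.prod_le_one (fun t _ => hS.nonneg _) fun t _ => ?_
    refine (hS.pow_le _ _).trans ?_
    show NV v (X t : MvPolynomial (Fin (k + 1)) K) ^ _ ≤ 1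
    rw [NV_X, one_pow]
  have h4 : P.totalDegree ≤ ∑ i, 2 * ((k + 1) * (b i * 4 ^ j i)) := by
    rw [hP]
    refine (totalDegree_finsetProd _ _).trans (Finset.sum_le_sum fun i _ => ?_)
    have h1 := GR_BD (ρ i).M (GR_BD nd.Mx (UUA_BD A nd.l (j i) (b i) (c i) (ν i) (hν i))
      (le_DM nd) (r i)) (D := ∑ j', ∑ l', ∑ m', ((ρ i).M j' l' m').totalDegree)
      (fun j' l' m' => by
        refine le_trans ?_ (Finset.single_le_sum (f := fun j' => ∑ l', ∑ m',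
          ((ρ i).M j' l' m').totalDegree) (fun _ _ => Nat.zero_le _) (Finset.mem_univ j'))
        refine le_trans ?_ (Finset.single_le_sum (f := fun l' => ∑ m',
          ((ρ i).M j' l' m').totalDegree) (fun _ _ => Nat.zero_le _) (Finset.mem_univ l'))
        exact Finset.single_le_sum (f := fun m' => ((ρ i).M j' l' m').totalDegree)
          (fun _ _ => Nat.zero_le _) (Finset.mem_univ m')) (l i)
    exact J2_total_le _ (cz_support h1 (β i))
  have h6 := RR_NV v nd.Mx (C7_total P h4) e2 hM r'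
  have h7 : NV v P ≤ ∏ i, (E1.k v ^ (b i * 4 ^ j i) *
      (cst v (e + 1) * (ρ i).RB v) ^ (2 * (k + 1) * nd.DM * b i)) := by
    rw [hP]
    refine (hS'.prod_le Finset.univ _).trans ?_
    refine Finset.prod_le_prod (fun i _ => hS'.nonneg _) fun i _ => ?_
    exact (cz_NV v _ _).trans (hE1 v (ρ i) (j i) (b i) (c i) (r i) (l i) (ν i) (hν i))
  calc NV v ((∏ t, X t ^ a t) * RR nd.Mx P r')
      ≤ NV v (∏ t, (X t : MvPolynomial (Fin (k + 1)) K) ^ a t) * NV v (RR nd.Mx P r') := hS.mul _ _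
    _ ≤ 1 * NV v (RR nd.Mx P r') := mul_le_mul_of_nonneg_right h5 (hS.nonneg _)
    _ = NV v (RR nd.Mx P r') := one_mul _
    _ ≤ NV v P * B ^ (∑ i, 2 * ((k + 1) * (b i * 4 ^ j i))) := by rw [hB]; exact h6
    _ ≤ (∏ i, (E1.k v ^ (b i * 4 ^ j i) *
          (cst v (e + 1) * (ρ i).RB v) ^ (2 * (k + 1) * nd.DM * b i))) *
          ∏ i, B ^ (2 * ((k + 1) * (b i * 4 ^ j i))) := by
        rw [Finset.prod_pow_eq_pow_sum]
        exact mul_le_mul_of_nonneg_right h7 (pow_nonneg hB0 _)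
    _ = ∏ i, ((E1.k v ^ (b i * 4 ^ j i) *
          (cst v (e + 1) * (ρ i).RB v) ^ (2 * (k + 1) * nd.DM * b i)) *
          B ^ (2 * ((k + 1) * (b i * 4 ^ j i)))) := Finset.prod_mul_distrib.symm
    _ ≤ ∏ i, (E.k v ^ (b i * 4 ^ j i) *
          (cst v (e + 1) * (ρ i).RB v) ^ (2 * (k + 1) * nd.DM * b i)) := by
        refine Finset.prod_le_prod (fun i _ => ?_) fun i _ => ?_
        · have h8 : 0 ≤ cst v (e + 1) * (ρ i).RB v :=
            mul_nonneg (cst_nonneg v _) (zero_le_one.trans (one_le_RB (ρ i) v))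
          positivity
        · have h8 : 0 ≤ (cst v (e + 1) * (ρ i).RB v) ^ (2 * (k + 1) * nd.DM * b i) :=
            pow_nonneg (mul_nonneg (cst_nonneg v _) (zero_le_one.trans (one_le_RB (ρ i) v))) _
          rw [mul_right_comm]
          refine mul_le_mul_of_nonneg_right ?_ h8
          have h9 : B ^ (2 * ((k + 1) * (b i * 4 ^ j i))) = (B ^ (2 * (k + 1))) ^ (b i * 4 ^ j i) := by
            rw [← pow_mul]
            congr 1
            ring
          rw [h9, ← mul_pow]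
          refine pow_le_pow_left₀ (by positivity) ?_ _
          rw [hE]
          exact (mul_le_mul_of_nonneg_left hBE (zero_le_one.trans e1)).trans (SC.mul_le _ _ v)

end

end Pool.Agent.Lib.MP_17a322_nt.VDA
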