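import Pool.Agent.Lib.MP_17a322_nt.VA.C0

/-!
Vojta's inequality with arbitrary divisors on abelian varieties: definitions. Joint vanishing
conditions along `z 0 = 0` for `m` blocks.
-/

universe u

namespace Pool.Agent.Lib.MP_17a322_nt.VDA

open MvPolynomial Height
open Pool.Agent.Lib.MP_17a322_nt.RO
open Pool.Agent.Lib.MP_17a322_nt.VJ
open Pool.Agent.Lib.MP_17a322_nt.VN
open Pool.Agent.Lib.MP_17a322_nt.VA

section

variable {K : Type u} [Field K] {N : ℕ} {A : AV K N} {k e₀ : ℕ} (nd : Noe A (k + 1) e₀)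

/-- The joint vanishing conditions of weight `T` for the family `Φ` with values in the `L`-algebra
`R`, at the vector `x0`. -/
def ORJA {e m : ℕ} (ρ : Fin m → REP K (k + 1) e) (j b : Fin m → ℕ) (T : ℕ) {L : Type*} [Field L]
    [Algebra K L] {R : Type*} [CommRing R] [Algebra L R] (Φ : (Fin m → Fin (k + 1) → ℕ) → R)
    (x0 : Fin (N + 1) → L) : Prop :=
  ∀ (c : Fin m → Fin (N + 1)) (r : Fin m → Fin (e₀ + 1)) (l : Fin m → Fin (e + 1))
    (β : Fin m → Fin (k + 1) →₀ ℕ), ∑ i, 4 ^ j i * β i 0 < T →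
    ∑ ν ∈ BB (fun i => b i + 1), Φ ν * algebraMap L R
      (∏ i, coeff (β i) (spA x0 (HA nd (ρ i) (j i) (b i) (c i) (r i) (l i) (ν i)))) = 0

/-- The coefficient of the unknown `F a ν` in the linear equation for the exponents `q` (of the
Noether coordinates of `Q`) and `β`. -/
noncomputable def MCJA {e m : ℕ} (ρ : Fin m → REP K (k + 1) e) (j b : Fin m → ℕ)
    (c : Fin m → Fin (N + 1)) (r' : Fin (e₀ + 1)) (r : Fin m → Fin (e₀ + 1))
    (l : Fin m → Fin (e + 1)) (q : Fin (k + 1) → ℕ) (β : Fin m → Fin (k + 1) → ℕ)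
    (a : Fin (k + 1) → ℕ) (ν : Fin m → Fin (k + 1) → ℕ) : K :=
  coeff (Finsupp.equivFunOnFinite.symm q) ((∏ t, X t ^ a t) *
    RR nd.Mx (∏ i, cz (HA nd (ρ i) (j i) (b i) (c i) (r i) (l i) (ν i)) (β i)) r')

/-- The linear equations for the auxiliary polynomial: `m` blocks, `b = N' * 4 ^ J`,
`b_i = N' * 4 ^ (J - j i)`, joint conditions of weight `m * 4 ^ J`. -/
def CCJA {e m : ℕ} (ρ : Fin m → REP K (k + 1) e) (N' J : ℕ) (j : Fin m → ℕ)
    (F : (Fin (k + 1) → ℕ) → (Fin m → Fin (k + 1) → ℕ) → K) : Prop :=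
  ∀ (c : Fin m → Fin (N + 1)) (r' : Fin (e₀ + 1)) (r : Fin m → Fin (e₀ + 1))
    (l : Fin m → Fin (e + 1)) (q : Fin (k + 1) → ℕ) (β : Fin m → Fin (k + 1) → ℕ),
    ∑ i, 4 ^ j i * β i 0 < m * 4 ^ J →
    ∑ a ∈ box (fun _ : Fin (k + 1) => N' * 4 ^ J + 1),
      ∑ ν ∈ BB (fun i : Fin m => N' * 4 ^ (J - j i) + 1),
        F a ν * MCJA nd ρ j (fun i => N' * 4 ^ (J - j i)) c r' r l q β a ν = 0

end

end Pool.Agent.Lib.MP_17a322_nt.VDA
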