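import Pool.Agent.Lib.MP_17a322_nt.VDA.J0
import Pool.Agent.Lib.MP_17a322_nt.VA.C4a
import Pool.Agent.Lib.MP_17a322_nt.VA.C5a
import Pool.Agent.Lib.MP_17a322_nt.VN.C10

/-!
The joint vanishing conditions at a point.
-/

universe u

namespace Pool.Agent.Lib.MP_17a322_nt.VDA

open MvPolynomial Height
open Pool.Agent.Lib.MP_17a322_nt.RO
open Pool.Agent.Lib.MP_17a322_nt.VJ
open Pool.Agent.Lib.MP_17a322_nt.VN
open Pool.Agent.Lib.MP_17a322_nt.VA

theorem ORJA_of_CCJA {K : Type u} [Field K] {N : ℕ} {A : AV K N} {k e₀ : ℕ}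
    (nd : Noe A (k + 1) e₀) {L : Type u} [Field L] [Algebra K L] {R : Type*} [CommRing R]
    [Algebra L R] {m e : ℕ} (ρ : Fin m → REP K (k + 1) e) (N' J : ℕ) (j : Fin m → ℕ)
    (F : (Fin (k + 1) → ℕ) → (Fin m → Fin (k + 1) → ℕ) → K) (hF : CCJA nd ρ N' J j F)
    (x0 : Fin (N + 1) → L) (hx : A.IsPt x0) (hx0 : lf (nd.l 0) x0 = 1) :
    ORJA nd ρ j (fun i => N' * 4 ^ (J - j i)) (m * 4 ^ J)
      (fun ν => algebraMap L R (∑ a ∈ box (fun _ : Fin (k + 1) => N' * 4 ^ J + 1),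
        (∏ t : Fin (k + 1), lf (nd.l t.succ) x0 ^ a t) * algebraMap K L (F a ν))) x0 := by
  classical
  intro c r l β hβ
  obtain ⟨z, hz⟩ : ∃ z : Fin (k + 1) → L, z = fun t => lf (nd.l t.succ) x0 := ⟨_, rfl⟩
  obtain ⟨P, hP⟩ : ∃ P : (Fin m → Fin (k + 1) → ℕ) → MvPolynomial (Fin (N + 1)) K,
    P = fun ν => ∏ i, cz (HA nd (ρ i) (j i) (N' * 4 ^ (J - j i)) (c i) (r i) (l i) (ν i)) (β i) :=
      ⟨_, rfl⟩
  -- the reduced polynomials vanish
  have hQ : ∀ r' : Fin (e₀ + 1),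
      ∑ a ∈ box (fun _ : Fin (k + 1) => N' * 4 ^ J + 1),
        ∑ ν ∈ BB (fun i : Fin m => N' * 4 ^ (J - j i) + 1),
          (MvPolynomial.C (F a ν) : MvPolynomial (Fin (k + 1)) K) *
            ((∏ t, X t ^ a t) * RR nd.Mx (P ν) r') = 0 := by
    intro r'
    refine MvPolynomial.ext _ _ fun q => ?_
    have h1 := hF c r' r l (fun t => q t) (fun i => β i) hβ
    have hq : Finsupp.equivFunOnFinite.symm (fun t => q t) = q := by
      ext t
      rfl
    rw [coeff_zero, coeff_sum, ← h1]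
    refine Finset.sum_congr rfl fun a _ => ?_
    rw [coeff_sum]
    refine Finset.sum_congr rfl fun ν _ => ?_
    rw [coeff_C_mul, MCJA, hq, hP]
  have hw : aeval x0 (nd.w 0) = (1 : L) := by rw [nd.w_zero, map_one]
  have hr := nd.rel L x0 hx hx0
  -- the values of the components
  have hev : ∀ ν, ∏ i, coeff (β i) (spA x0 (HA nd (ρ i) (j i) (N' * 4 ^ (J - j i)) (c i) (r i)
      (l i) (ν i))) = ∑ r', aeval x0 (nd.w r') * aeval z (RR nd.Mx (P ν) r') := by
    intro ν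
    have h1 : ∏ i, coeff (β i) (spA x0 (HA nd (ρ i) (j i) (N' * 4 ^ (J - j i)) (c i) (r i)
        (l i) (ν i))) = aeval x0 (P ν) := by
      rw [hP, map_prod]
      exact Finset.prod_congr rfl fun i _ => coeff_spA _ _ _
    rw [h1, hz]
    exact RR_eval nd.Mx (P ν) (fun r' => aeval x0 (nd.w r'))
      (fun t => lf (nd.l t.succ) x0) x0 hw hr
  have key : ∑ ν ∈ BB (fun i : Fin m => N' * 4 ^ (J - j i) + 1),
      (∑ a ∈ box (fun _ : Fin (k + 1) => N' * 4 ^ J + 1),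
        (∏ t, z t ^ a t) * algebraMap K L (F a ν)) *
        ∏ i, coeff (β i) (spA x0 (HA nd (ρ i) (j i) (N' * 4 ^ (J - j i)) (c i) (r i)
          (l i) (ν i))) = 0 := by
    have h1 : ∀ ν ∈ BB (fun i : Fin m => N' * 4 ^ (J - j i) + 1),
        (∑ a ∈ box (fun _ : Fin (k + 1) => N' * 4 ^ J + 1),
          (∏ t, z t ^ a t) * algebraMap K L (F a ν)) *
          ∏ i, coeff (β i) (spA x0 (HA nd (ρ i) (j i) (N' * 4 ^ (J - j i)) (c i) (r i)
            (l i) (ν i))) =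
        ∑ r', aeval x0 (nd.w r') *
          aeval z (∑ a ∈ box (fun _ : Fin (k + 1) => N' * 4 ^ J + 1),
            (MvPolynomial.C (F a ν) : MvPolynomial (Fin (k + 1)) K) *
              ((∏ t, X t ^ a t) * RR nd.Mx (P ν) r')) := by
      intro ν _
      rw [hev ν, Finset.mul_sum]
      refine Finset.sum_congr rfl fun r' _ => ?_
      rw [map_sum, Finset.sum_mul, Finset.mul_sum]
      refine Finset.sum_congr rfl fun a _ => ?_
      rw [map_mul, map_mul, map_prod, aeval_C]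
      have h2 : ∏ t, aeval z (X t ^ a t : MvPolynomial (Fin (k + 1)) K) = ∏ t, z t ^ a t := by
        refine Finset.prod_congr rfl fun t _ => ?_
        rw [map_pow, aeval_X]
      rw [h2]
      ring
    rw [Finset.sum_congr rfl h1, Finset.sum_comm]
    refine Finset.sum_eq_zero fun r' _ => ?_
    rw [← Finset.mul_sum, ← map_sum, Finset.sum_comm, hQ r', map_zero, mul_zero]
  calc _ = algebraMap L R (∑ ν ∈ BB (fun i : Fin m => N' * 4 ^ (J - j i) + 1),
      (∑ a ∈ box (fun _ : Fin (k + 1) => N' * 4 ^ J + 1),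
        (∏ t, z t ^ a t) * algebraMap K L (F a ν)) *
        ∏ i, coeff (β i) (spA x0 (HA nd (ρ i) (j i) (N' * 4 ^ (J - j i)) (c i) (r i)
          (l i) (ν i)))) := by
        rw [map_sum, hz]
        refine Finset.sum_congr rfl fun ν _ => ?_
        rw [map_mul]
    _ = 0 := by rw [key, map_zero]

end Pool.Agent.Lib.MP_17a322_nt.VDA
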