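import Pool.Agent.Lib.MP_17a322_nt.VDA.J0
import Pool.Agent.Lib.MP_17a322_nt.VDL.CJ3

/-!
Counting the joint conditions, general constants.
-/

universe u

namespace Pool.Agent.Lib.MP_17a322_nt.VDA

open MvPolynomial Height
open Pool.Agent.Lib.MP_17a322_nt.RO
open Pool.Agent.Lib.MP_17a322_nt.VJ
open Pool.Agent.Lib.MP_17a322_nt.VN
open Pool.Agent.Lib.MP_17a322_nt.VA

theorem J3_row (G c₂ k N T : ℕ) (hT : 1 ≤ T) (hG : 1 ≤ G) (hN : N = 8 * G * (c₂ + 1) ^ k) :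
    2 * (G * (4 * (T * (c₂ * (N * T) + 1) ^ k))) ≤ (N * T + 1) ^ (k + 1) := by
  have hN1 : 1 ≤ N := by
    rw [hN]
    exact Nat.succ_le_of_lt (by positivity)
  have hb : 1 ≤ N * T := Nat.one_le_iff_ne_zero.2 (Nat.mul_ne_zero (by omega) (by omega))
  have h1 : c₂ * (N * T) + 1 ≤ (c₂ + 1) * (N * T) := by
    have : (c₂ + 1) * (N * T) = c₂ * (N * T) + N * T := by ring
    rw [this]
    exact Nat.add_le_add_left hb _
  have h2 := Nat.pow_le_pow_left h1 k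
  calc 2 * (G * (4 * (T * (c₂ * (N * T) + 1) ^ k)))
      ≤ 2 * (G * (4 * (T * ((c₂ + 1) * (N * T)) ^ k))) := by gcongr
    _ = (8 * G * (c₂ + 1) ^ k) * T * (N * T) ^ k := by
        rw [mul_pow]
        ring
    _ = (N * T) ^ (k + 1) := by
        rw [← hN, pow_succ]
        ring
    _ ≤ (N * T + 1) ^ (k + 1) := Nat.pow_le_pow_left (Nat.le_succ _) _

theorem J3_count (G G' c₀ c₂ k m N J : ℕ) (j : Fin m → ℕ) (hG : 1 ≤ G)
    (hN : N = 8 * G * (c₂ + 1) ^ k) (hm : 2 * (G' * (c₀ * m + 1) ^ (k + 1)) ≤ 2 ^ m) :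
    2 * (G ^ m * (G' * (((c₀ * m + 1) * (N * 4 ^ J) + 1) ^ (k + 1) *
        (4 ^ m * ∏ i, (4 ^ (J - j i) * (c₂ * (N * 4 ^ (J - j i)) + 1) ^ k))))) ≤
      (N * 4 ^ J + 1) ^ (k + 1) * ∏ i, (N * 4 ^ (J - j i) + 1) ^ (k + 1) := by
  obtain ⟨R, hR⟩ : ∃ R, R = G ^ m * (4 ^ m * ∏ i,
      (4 ^ (J - j i) * (c₂ * (N * 4 ^ (J - j i)) + 1) ^ k)) := ⟨_, rfl⟩
  have h1 : 2 ^ m * R ≤ ∏ i, (N * 4 ^ (J - j i) + 1) ^ (k + 1) := by
    have h2 := Finset.prod_le_prod (s := (Finset.univ : Finset (Fin m))) (fun i _ => Nat.zero_le _)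
      fun i _ => J3_row G c₂ k N (4 ^ (J - j i)) (Nat.one_le_pow _ _ (by norm_num)) hG hN
    refine le_trans (le_of_eq ?_) h2
    rw [Finset.prod_mul_distrib, Finset.prod_mul_distrib, Finset.prod_mul_distrib,
      Finset.prod_const, Finset.prod_const, Finset.prod_const, Finset.card_univ, Fintype.card_fin,
      hR]
  have h3 : (c₀ * m + 1) * (N * 4 ^ J) + 1 ≤ (c₀ * m + 1) * (N * 4 ^ J + 1) := by
    have : (c₀ * m + 1) * (N * 4 ^ J + 1) = (c₀ * m + 1) * (N * 4 ^ J) + (c₀ * m + 1) := by ring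
    omega
  have h4 := Nat.pow_le_pow_left h3 (k + 1)
  rw [mul_pow] at h4
  calc _ = 2 * (G' * R) * ((c₀ * m + 1) * (N * 4 ^ J) + 1) ^ (k + 1) := by rw [hR]; ring
    _ ≤ 2 * (G' * R) * ((c₀ * m + 1) ^ (k + 1) * (N * 4 ^ J + 1) ^ (k + 1)) :=
        Nat.mul_le_mul_left _ h4
    _ = (2 * (G' * (c₀ * m + 1) ^ (k + 1))) * (R * (N * 4 ^ J + 1) ^ (k + 1)) := by ring
    _ ≤ 2 ^ m * (R * (N * 4 ^ J + 1) ^ (k + 1)) := Nat.mul_le_mul_right _ hm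
    _ = (N * 4 ^ J + 1) ^ (k + 1) * (2 ^ m * R) := by ring
    _ ≤ _ := Nat.mul_le_mul_left _ h1

theorem J3_m0 (G' c₀ k : ℕ) :
    ∃ m₀ : ℕ, ∀ m, m₀ ≤ m → 2 * (G' * (c₀ * m + 1) ^ (k + 1)) ≤ 2 ^ m := by
  have h1 := (isLittleO_pow_const_const_pow_of_one_lt (R := ℝ) (k + 1) (r := 2)
    (by norm_num)).bound (c := 1 / (2 * ((G' + 1) * (c₀ + 1) ^ (k + 1)))) (by positivity)
  obtain ⟨a, ha⟩ := Filter.eventually_atTop.1 h1
  refine ⟨max a 1, fun m hm => ?_⟩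
  have h2 := ha m ((le_max_left _ _).trans hm)
  have h3 : 1 ≤ m := (le_max_right _ _).trans hm
  rw [Real.norm_of_nonneg (by positivity), Real.norm_of_nonneg (by positivity), div_mul_eq_mul_div,
    one_mul, le_div_iff₀ (by positivity)] at h2
  have h4 : (2 : ℝ) * (G' * (c₀ * m + 1) ^ (k + 1)) ≤ 2 ^ m := by
    have h5 : (1 : ℝ) ≤ m := by exact_mod_cast h3
    have h6 : ((c₀ : ℝ) * m + 1) ^ (k + 1) ≤ ((c₀ + 1) * m) ^ (k + 1) :=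
      pow_le_pow_left₀ (by positivity) (by linarith) _
    rw [mul_pow] at h6
    have h7 : (G' : ℝ) * (c₀ * m + 1) ^ (k + 1) ≤
        (G' + 1) * ((c₀ + 1) ^ (k + 1) * (m : ℝ) ^ (k + 1)) :=
      mul_le_mul (by linarith) h6 (by positivity) (by positivity)
    calc (2 : ℝ) * (G' * (c₀ * m + 1) ^ (k + 1)) ≤
          2 * ((G' + 1) * ((c₀ + 1) ^ (k + 1) * (m : ℝ) ^ (k + 1))) :=
          mul_le_mul_of_nonneg_left h7 (by norm_num)
      _ = (m : ℝ) ^ (k + 1) * (2 * ((G' + 1) * (c₀ + 1) ^ (k + 1))) := by ring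
      _ ≤ 2 ^ m := h2
  exact_mod_cast h4

end Pool.Agent.Lib.MP_17a322_nt.VDA
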