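import Pool.Agent.Lib.MP_17a322_nt.VDA.J2b
import Pool.Agent.Lib.MP_17a322_nt.VDA.J3
import Pool.Agent.Lib.MP_17a322_nt.VJ.F3

/-!
The auxiliary polynomial with joint conditions on abelian varieties (Siegel's lemma).
-/

universe u

namespace Pool.Agent.Lib.MP_17a322_nt.VDA

open MvPolynomial Height
open Pool.Agent.Lib.MP_17a322_nt.RO
open Pool.Agent.Lib.MP_17a322_nt.VJ
open Pool.Agent.Lib.MP_17a322_nt.VN
open Pool.Agent.Lib.MP_17a322_nt.VA

theorem exists_auxJA {K : Type u} [Field K] [NumberField K] {N : ℕ} {A : AV K N} {k e₀ : ℕ}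
    (nd : Noe A (k + 1) e₀) (e D : ℕ) :
    ∃ N' : ℕ, 1 ≤ N' ∧ ∃ m₀ : ℕ, ∀ m : ℕ, m₀ ≤ m → ∃ C : ℝ, 0 ≤ C ∧
      ∀ (J : ℕ) (j : Fin m → ℕ) (ρ : Fin m → REP K (k + 1) e),
      (∀ i, j i ≤ J) → (∀ i, (ρ i).Deg D) →
      ∃ F : (Fin (k + 1) → ℕ) → (Fin m → Fin (k + 1) → ℕ) → K, (∃ a ν, F a ν ≠ 0) ∧
        (∀ a ν, F a ν ≠ 0 → a ∈ box (fun _ : Fin (k + 1) => N' * 4 ^ J + 1) ∧
          ν ∈ BB (fun i : Fin m => N' * 4 ^ (J - j i) + 1)) ∧ CCJA nd ρ N' J j F ∧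
        logHeight (fun p : (box (fun _ : Fin (k + 1) => N' * 4 ^ J + 1)) ×
          (BB (fun i : Fin m => N' * 4 ^ (J - j i) + 1) : Finset (Fin m → Fin (k + 1) → ℕ)) =>
            F p.1 p.2) ≤ C * (4 ^ J + ∑ i, 4 ^ (J - j i) * (ρ i).ht) := by
  classical
  obtain ⟨m₀, hm₀⟩ := J3_m0 (e₀ + 1) (2 * (k + 1) * nd.DM) k
  obtain ⟨G, hGd⟩ : ∃ G, G = (N + 1) * ((e₀ + 1) * (e + 1)) := ⟨_, rfl⟩
  have hG : 1 ≤ G := by
    rw [hGd]
    exact Nat.succ_le_of_lt (by positivity)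
  obtain ⟨N', hNd⟩ : ∃ N', N' = 8 * G * (2 * (k + 1) * nd.DM * D + 1) ^ k := ⟨_, rfl⟩
  have hN1 : 1 ≤ N' := by
    rw [hNd]
    exact Nat.succ_le_of_lt (by positivity)
  obtain ⟨C1, hC1, h1⟩ := siegel K
  refine ⟨N', hN1, m₀, fun m hm => ?_⟩
  obtain ⟨C2, hC2, h2⟩ := matrix_heightJA nd e m N'
  refine ⟨C1 + (C2 + C1 + C1 * ((k + 1) * (m + 1) * N')), by positivity,
    fun J j ρ hj hD => ?_⟩
  have hcount := J3_count G (e₀ + 1) (2 * (k + 1) * nd.DM) (2 * (k + 1) * nd.DM * D) k m N' J j hG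
    hNd (hm₀ m hm)
  have hlog := VDL.log_unknownsJ k m N' J j
  let α := (Fin m → Fin (N + 1)) × Fin (e₀ + 1) × (Fin m → Fin (e₀ + 1)) × (Fin m → Fin (e + 1)) ×
    (box fun _ : Fin (k + 1) => (2 * (k + 1) * nd.DM * m + 1) * (N' * 4 ^ J) + 1) ×
    ((BB (fun i : Fin m => 2 * (k + 1) * nd.DM * D * (N' * 4 ^ (J - j i)) + 1) :
      Finset (Fin m → Fin (k + 1) → ℕ)).filter
        (fun β => ∑ i, 4 ^ j i * β i 0 < m * 4 ^ J) : Finset (Fin m → Fin (k + 1) → ℕ))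
  let β := (box (fun _ : Fin (k + 1) => N' * 4 ^ J + 1)) ×
    (BB (fun i : Fin m => N' * 4 ^ (J - j i) + 1) : Finset (Fin m → Fin (k + 1) → ℕ))
  have hα : Fintype.card α ≤ (N + 1) ^ m * ((e₀ + 1) * ((e₀ + 1) ^ m * ((e + 1) ^ m *
      (((2 * (k + 1) * nd.DM * m + 1) * (N' * 4 ^ J) + 1) ^ (k + 1) *
        (4 ^ m * ∏ i, (4 ^ (J - j i) *
          (2 * (k + 1) * nd.DM * D * (N' * 4 ^ (J - j i)) + 1) ^ k)))))) := by
    rw [Fintype.card_prod, Fintype.card_prod, Fintype.card_prod, Fintype.card_prod,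
      Fintype.card_prod, Fintype.card_coe, Fintype.card_coe, card_box, Fintype.card_fun,
      Fintype.card_fun, Fintype.card_fun, Fintype.card_fin, Fintype.card_fin, Fintype.card_fin,
      Fintype.card_fin, Finset.prod_const, Finset.card_univ, Fintype.card_fin]
    exact Nat.mul_le_mul_left _ (Nat.mul_le_mul_left _ (Nat.mul_le_mul_left _
      (Nat.mul_le_mul_left _ (Nat.mul_le_mul_left _ (VDL.CJ3_BBJ k m J j hj _)))))
  have hβ : Fintype.card β =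
      (N' * 4 ^ J + 1) ^ (k + 1) * ∏ i, (N' * 4 ^ (J - j i) + 1) ^ (k + 1) := by
    rw [Fintype.card_prod, Fintype.card_coe, Fintype.card_coe, card_box, card_BB,
      Finset.prod_const, Finset.card_univ, Fintype.card_fin]
  have hβpos : 0 < Fintype.card β := by
    rw [hβ]
    exact Nat.mul_pos (Nat.pow_pos (Nat.succ_pos _))
      (Finset.prod_pos fun i _ => Nat.pow_pos (Nat.succ_pos _))
  have h2α : 2 * Fintype.card α ≤ Fintype.card β := by
    rw [hβ]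
    refine (Nat.mul_le_mul_left 2 hα).trans (le_trans (le_of_eq ?_) hcount)
    rw [hGd, mul_pow, mul_pow]
    ring
  have hlt : Fintype.card α < Fintype.card β := by omega
  obtain ⟨M, hM⟩ : ∃ M : Matrix α β K, M = fun a b =>
      MCJA nd ρ j (fun i => N' * 4 ^ (J - j i)) a.1 a.2.1 a.2.2.1 a.2.2.2.1
        (a.2.2.2.2.1 : Fin (k + 1) → ℕ) (a.2.2.2.2.2 : Fin m → Fin (k + 1) → ℕ)
        (b.1 : Fin (k + 1) → ℕ) (b.2 : Fin m → Fin (k + 1) → ℕ) := ⟨_, rfl⟩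
  obtain ⟨x, hx0, hAx, hx⟩ := h1 α β M hlt
  have hmat := h2 J j ρ hj (α × β) (fun p : α × β => M p.1 p.2) (by
    intro p
    refine Or.inr ⟨p.1.1, p.1.2.1, p.1.2.2.1, p.1.2.2.2.1, p.1.2.2.2.2.1, p.1.2.2.2.2.2, p.2.1,
      p.2.2, fun i t => ?_, ?_⟩
    · exact Nat.lt_succ_iff.1 ((mem_BB _ _).1 p.2.2.2 i t)
    · rw [hM])
  obtain ⟨F, hF⟩ : ∃ F : (Fin (k + 1) → ℕ) → (Fin m → Fin (k + 1) → ℕ) → K, F = fun a ν =>
      if h : a ∈ box (fun _ : Fin (k + 1) => N' * 4 ^ J + 1) ∧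
        ν ∈ BB (fun i : Fin m => N' * 4 ^ (J - j i) + 1) then x (⟨a, h.1⟩, ⟨ν, h.2⟩) else 0 :=
    ⟨_, rfl⟩
  have hFp : ∀ p : β, F p.1 p.2 = x p := by
    rintro ⟨⟨a, ha⟩, ⟨ν, hν⟩⟩
    rw [hF]
    exact dif_pos ⟨ha, hν⟩
  have hFn : ∀ a ν, F a ν ≠ 0 → a ∈ box (fun _ : Fin (k + 1) => N' * 4 ^ J + 1) ∧
      ν ∈ BB (fun i : Fin m => N' * 4 ^ (J - j i) + 1) := by
    intro a ν h
    by_contra hc
    apply h
    rw [hF]
    exact dif_neg hc
  refine ⟨F, ?_, hFn, ?_, ?_⟩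
  · obtain ⟨p, hp⟩ := Function.ne_iff.mp hx0
    refine ⟨p.1, p.2, ?_⟩
    rw [hFp]
    exact hp
  · intro c r' r l q β' hβ'
    by_cases hq : q ∈ box (fun _ : Fin (k + 1) =>
        (2 * (k + 1) * nd.DM * m + 1) * (N' * 4 ^ J) + 1) ∧
      β' ∈ BB (fun i : Fin m => 2 * (k + 1) * nd.DM * D * (N' * 4 ^ (J - j i)) + 1)
    swap
    · refine Finset.sum_eq_zero fun a ha => Finset.sum_eq_zero fun μ hμ => ?_
      have h3 : MCJA nd ρ j (fun i => N' * 4 ^ (J - j i)) c r' r l q β' a μ = 0 := by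
        by_contra h4
        exact hq (MCJA_zero nd ρ hD hj c r' r l q β' a μ ha hμ h4)
      rw [h3, mul_zero]
    have hβm : β' ∈ (BB (fun i : Fin m =>
        2 * (k + 1) * nd.DM * D * (N' * 4 ^ (J - j i)) + 1) :
        Finset (Fin m → Fin (k + 1) → ℕ)).filter
        (fun β => ∑ i, 4 ^ j i * β i 0 < m * 4 ^ J) := Finset.mem_filter.2 ⟨hq.2, hβ'⟩
    have h3 := congrFun hAx (⟨c, r', r, l, ⟨q, hq.1⟩, ⟨β', hβm⟩⟩ : α)
    rw [Pi.zero_apply, Matrix.mulVec, dotProduct, Fintype.sum_prod_type] at h3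
    refine Eq.trans ?_ h3
    rw [← Finset.sum_coe_sort (box (fun _ : Fin (k + 1) => N' * 4 ^ J + 1))]
    refine Finset.sum_congr rfl fun a _ => ?_
    rw [← Finset.sum_coe_sort (BB (fun i : Fin m => N' * 4 ^ (J - j i) + 1) :
          Finset (Fin m → Fin (k + 1) → ℕ))]
    refine Finset.sum_congr rfl fun y _ => ?_
    have h5 := hFp (a, y)
    rw [hM]
    show _ = MCJA nd ρ j (fun i => N' * 4 ^ (J - j i)) c r' r l q β' a
      (y : Fin m → Fin (k + 1) → ℕ) * x (a, y)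
    rw [← h5]
    exact mul_comm _ _
  · have h4 : (fun p : β => F p.1 p.2) = x := funext hFp
    rw [h4]
    refine hx.trans ?_
    have hfrac0 : 0 ≤ (Fintype.card α : ℝ) / (Fintype.card β - Fintype.card α : ℝ) := by
      have : (Fintype.card α : ℝ) < Fintype.card β := by exact_mod_cast hlt
      exact div_nonneg (Nat.cast_nonneg _) (by linarith)
    have hfrac1 : (Fintype.card α : ℝ) / (Fintype.card β - Fintype.card α : ℝ) ≤ 1 := by
      have h5 : (Fintype.card α : ℝ) < Fintype.card β := by exact_mod_cast hlt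
      have h6 : (2 : ℝ) * Fintype.card α ≤ Fintype.card β := by exact_mod_cast h2α
      rw [div_le_one (by linarith)]
      linarith
    obtain ⟨S, hS⟩ : ∃ S : ℝ, S = 4 ^ J + ∑ i, 4 ^ (J - j i) * (ρ i).ht := ⟨_, rfl⟩
    rw [← hS] at hmat ⊢
    have hsum : 0 ≤ ∑ i, 4 ^ (J - j i) * (ρ i).ht :=
      Finset.sum_nonneg fun i _ => mul_nonneg (by positivity) (ht_nonneg _)
    have hJS : (4 : ℝ) ^ J ≤ S := by
      rw [hS]
      linarith
    have h4J : (1 : ℝ) ≤ 4 ^ J := one_le_pow₀ (by norm_num)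
    have h1S : (1 : ℝ) ≤ S := h4J.trans hJS
    have hlog' : Real.log (Fintype.card β) ≤ (k + 1) * (m + 1) * N' * S := by
      rw [hβ]
      refine hlog.trans ?_
      have h5 : ((k : ℝ) + 1) * (m + 1) * (N' * 4 ^ J) = (k + 1) * (m + 1) * N' * 4 ^ J := by ring
      rw [h5]
      exact mul_le_mul_of_nonneg_left hJS (by positivity)
    have hlog0 : 0 ≤ Real.log (Fintype.card β) := Real.log_natCast_nonneg _
    have hin : logHeight (fun p : α × β => M p.1 p.2) + C1 + C1 * Real.log (Fintype.card β) ≤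
        (C2 + C1 + C1 * ((k + 1) * (m + 1) * N')) * S := by
      have h7 := mul_le_mul_of_nonneg_left hlog' hC1
      have h8 : C1 ≤ C1 * S := le_mul_of_one_le_right hC1 h1S
      calc _ ≤ C2 * S + C1 * S + C1 * ((k + 1) * (m + 1) * N' * S) := by linarith
        _ = _ := by ring
    have hin' : (Fintype.card α : ℝ) / (Fintype.card β - Fintype.card α : ℝ) *
        (logHeight (fun p : α × β => M p.1 p.2) + C1 + C1 * Real.log (Fintype.card β)) ≤
        (C2 + C1 + C1 * ((k + 1) * (m + 1) * N')) * S := by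
      refine (mul_le_mul_of_nonneg_left hin hfrac0).trans ?_
      exact mul_le_of_le_one_left (mul_nonneg (by positivity) (by linarith)) hfrac1
    have h9 : C1 ≤ C1 * S := le_mul_of_one_le_right hC1 h1S
    calc _ ≤ C1 * S + (C2 + C1 + C1 * ((k + 1) * (m + 1) * N')) * S := add_le_add h9 hin'
      _ = _ := by ring

end Pool.Agent.Lib.MP_17a322_nt.VDA
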