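import Pool.Agent.Lib.MP_17a322_nt.VDA.LB0
import Pool.Agent.Lib.MP_17a322_nt.VDL.LB

/-!
The estimate of families of block polynomials with joint vanishing conditions.
-/

universe u

namespace Pool.Agent.Lib.MP_17a322_nt.VDA

open MvPolynomial Height
open Pool.Agent.Lib.MP_17a322_nt.RO
open Pool.Agent.Lib.MP_17a322_nt.VJ
open Pool.Agent.Lib.MP_17a322_nt.VN
open Pool.Agent.Lib.MP_17a322_nt.VA
open Pool.Agent.Lib.MP_17a322_nt.VDL (HP HP_aeval HP_coeff HP_support HP_NV core_joint BB_nonneg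
  cst_prod sp)

/-- The real inequality of one block. -/
theorem LB_real {n k D D3 M b f : ℕ} {Y c0 E1 E2 E3 c2 cb ce R κ ω : ℝ} (hb : 1 ≤ b)
    (hf : 1 ≤ f) (hY : 0 ≤ Y) (hc0 : 1 ≤ c0) (hE1 : 1 ≤ E1)
    (hE2 : 1 ≤ E2) (hE3 : 1 ≤ E3) (hc2 : 1 ≤ c2) (hce : 1 ≤ ce) (hR : 1 ≤ R) (hκ : 1 ≤ κ)
    (hω : 1 ≤ ω) (hcb0 : 0 ≤ cb) (hcb : cb ≤ c2 ^ (n * b)) :
    c0 * ce * (E3 * ω ^ D3 * (R * (E2 * ω) ^ D)) * (cb * (E1 ^ (b * f) *
      (ce * R) ^ (2 * (n * b) * M) * Y) * (κ ^ (2 * (n * b) * M * D) *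
        (R * (E2 * ω) ^ D) ^ (k * (2 * (n * b) * M * D)))) ≤
    (c0 * E3 * E1 * E2 ^ (D + D * (k * (2 * n * M * D)))) ^ (b * f) * Y *
      (c2 * ce * R * κ * ω) ^ ((D3 + 1 + D + n + 2 * n * M + 2 * (2 * n * M * D) +
        k * (2 * n * M * D) + D * (k * (2 * n * M * D))) * b) := by
  have p0 : 0 ≤ c0 := zero_le_one.trans hc0
  have p1 : 0 ≤ E1 := zero_le_one.trans hE1
  have p2 : 0 ≤ E2 := zero_le_one.trans hE2
  have p3 : 0 ≤ E3 := zero_le_one.trans hE3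
  have p5 : 0 ≤ ce := zero_le_one.trans hce
  have p6 : 0 ≤ R := zero_le_one.trans hR
  have p7 : 0 ≤ κ := zero_le_one.trans hκ
  have p8 : 0 ≤ ω := zero_le_one.trans hω
  have h1 := C7_real (n := n) (k := k) (D := D) (D3 := D3) (M := M) (b := b) (f := f) (B := 1)
    (Y := Y) (dT := 1) (c0 := c0) (E1 := E1) (E2 := E2) (E3 := E3) (c2 := c2) (cb := cb)
    (ce := ce) (R := R) (κ := κ) (ω := ω) hb hf zero_le_one hY zero_le_one hc0 hE1 hE2 hE3 hc2 hce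
    hR hκ hω hcb0 hcb
  rw [one_mul, one_mul, mul_one, mul_one] at h1
  refine le_trans ?_ h1
  have h2 : κ ^ (2 * (n * b) * M * D) ≤ κ ^ (2 * (2 * (n * b) * M * D)) :=
    pow_le_pow_right₀ hκ (by omega)
  calc c0 * ce * (E3 * ω ^ D3 * (R * (E2 * ω) ^ D)) * (cb * (E1 ^ (b * f) *
      (ce * R) ^ (2 * (n * b) * M) * Y) * (κ ^ (2 * (n * b) * M * D) *
        (R * (E2 * ω) ^ D) ^ (k * (2 * (n * b) * M * D)))) ≤
      c0 * ce * (E3 * ω ^ D3 * (R * (E2 * ω) ^ D)) * (cb * (E1 ^ (b * f) *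
      (ce * R) ^ (2 * (n * b) * M) * Y) * (κ ^ (2 * (2 * (n * b) * M * D)) *
        (R * (E2 * ω) ^ D) ^ (k * (2 * (n * b) * M * D)))) := by
        refine mul_le_mul_of_nonneg_left (mul_le_mul_of_nonneg_left
          (mul_le_mul_of_nonneg_right h2 (by positivity)) (by positivity)) (by positivity)
    _ = _ := by ring

theorem exists_ORJA_estimate {K : Type u} [Field K] {N : ℕ} {A : AV K N} {k e₀ : ℕ}
    (nd : Noe A (k + 1) e₀) (D : ℕ) :
    ∃ (E : SC K) (a : ℕ), ∀ {L : Type u} [Field L] [Algebra K L] {v : AbsoluteValue L ℝ}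
      {R : Type u} [CommRing R] [Algebra L R] [Algebra K R] [IsScalarTower K L R] {μ : R → ℝ},
      SN v μ → ∀ {e m : ℕ} (ρ : Fin m → REP K (k + 1) e), (∀ i, (ρ i).Deg D) →
      ∀ {j b : Fin m → ℕ} {T : ℕ}, (∀ i, 1 ≤ b i) →
      ∀ (Φ : (Fin m → Fin (k + 1) → ℕ) → R) (x0 : Fin (N + 1) → L), ORJA nd ρ j b T Φ x0 →
      ∀ {B δ : ℝ} {ω κ : Fin m → ℝ}, (∀ ν ∈ BB (fun i => b i + 1), μ (Φ ν) ≤ B) →
      (∀ i, 1 ≤ ω i) → (∀ i, 1 ≤ κ i) → 0 < δ → δ ≤ 1 →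
      ∀ (y : Fin m → Fin (N + 1) → R), (∀ i, A.IsPt (y i)) → (∀ i, lf (nd.l 0) (y i) = 1) →
      (∀ i t, μ (y i t) ≤ ω i) →
      (∀ i, μ (aeval (fun t : Fin (k + 1) => lf (nd.l t.succ) (y i)) ((ρ i).z 0)) ≤
        κ i * δ ^ (4 ^ j i)) →
      ∀ c : Fin m → Fin (N + 1),
      μ (∑ ν ∈ BB (fun i => b i + 1), Φ ν *
          ∏ i, UVA A nd.l (j i) (b i) (c i) (fun t => algebraMap L R (x0 t)) (y i) (ν i)) ≤
        B * (∏ i, (E.k v ^ (b i * 4 ^ j i) *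
          max 1 (vm v x0) ^ (2 * ((k + 1) * (b i * 4 ^ j i))) *
          (cst v 2 * cst v (e + 1) * ((ρ i).map (algebraMap K L)).RB v * κ i * ω i) ^
            (a * b i))) * δ ^ T := by
  classical
  obtain ⟨E1, hE1⟩ := exists_HA_NV nd
  obtain ⟨E2, hE2⟩ := C7_fam (fun k : Fin (k + 1 + 1) => C7_lf (nd.l k))
  obtain ⟨E3, hE3⟩ := C7_fam nd.w
  obtain ⟨E4, hE4⟩ := (Adm_cst.{u, u} (K := K) (e₀ + 1)).exists_SC
  obtain ⟨D3, hD3⟩ : ∃ D3 : ℕ, D3 = ∑ r, (nd.w r).totalDegree := ⟨_, rfl⟩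
  have hD3' : ∀ r, (nd.w r).totalDegree ≤ D3 := by
    intro r
    rw [hD3]
    exact Finset.single_le_sum (f := fun r => (nd.w r).totalDegree) (fun _ _ => Nat.zero_le _)
      (Finset.mem_univ r)
  obtain ⟨d, hd⟩ : ∃ d : ℕ, d = D + D * (k * (2 * (k + 1) * nd.DM * D)) := ⟨_, rfl⟩
  obtain ⟨a, ha⟩ : ∃ a : ℕ, a = D3 + 1 + D + (k + 1) + 2 * (k + 1) * nd.DM +
    2 * (2 * (k + 1) * nd.DM * D) + k * (2 * (k + 1) * nd.DM * D) +
    D * (k * (2 * (k + 1) * nd.DM * D)) := ⟨_, rfl⟩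
  refine ⟨((E4.mul E3).mul E1).mul (E2.pw d), a, ?_⟩
  intro L _ _ v R _ _ _ _ μ h e m ρ hD j b T hb Φ x0 hO B δ ω κ hB hω hκ hδ hδ1 y hy hy0 hyω h0 c
  have hB0 : 0 ≤ B := BB_nonneg h.nonneg Φ hB
  obtain ⟨RB, hRB⟩ : ∃ RB : Fin m → ℝ, RB = fun i => ((ρ i).map (algebraMap K L)).RB v := ⟨_, rfl⟩
  have hR1 : ∀ i, 1 ≤ RB i := fun i => by
    rw [hRB]
    exact one_le_RB _ v
  have hR0 : ∀ i, 0 ≤ RB i := fun i => zero_le_one.trans (hR1 i)
  have e1 : 1 ≤ E1.k v := E1.one_le v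
  have e2 : 1 ≤ E2.k v := E2.one_le v
  have e3 : 1 ≤ E3.k v := E3.one_le v
  have e4 : 1 ≤ E4.k v := E4.one_le v
  obtain ⟨s, hs⟩ : ∃ s : Fin m → Fin (k + 1) → R,
    s = fun i => fun t : Fin (k + 1) => lf (nd.l t.succ) (y i) := ⟨_, rfl⟩
  have hω0 : ∀ i, 0 ≤ ω i := fun i => zero_le_one.trans (hω i)
  have hκ0 : ∀ i, 0 ≤ κ i := fun i => zero_le_one.trans (hκ i)
  have hσ1 : ∀ i, 1 ≤ E2.k v * ω i := fun i => one_le_mul_of_one_le_of_one_le e2 (hω i)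
  have hsb : ∀ i t, μ (s i t) ≤ E2.k v * ω i := by
    intro i t
    have h2 := SN_aeval_pow (K := K) h (C7_lf (nd.l t.succ))
      (C7_total _ (C7_lf_total (nd.l t.succ))) (y i) (hω i) (hyω i)
    rw [C7_lf_eval, pow_one] at h2
    rw [hs]
    exact h2.trans (mul_le_mul_of_nonneg_right (hE2 t.succ L v) (hω0 i))
  have hσD : ∀ i, 0 ≤ (E2.k v * ω i) ^ D := fun i => pow_nonneg (zero_le_one.trans (hσ1 i)) _
  have hzb : ∀ i t, μ (aeval (s i) ((ρ i).z t)) ≤ RB i * (E2.k v * ω i) ^ D := by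
    intro i t
    refine (SN_aeval_pow (K := K) h ((ρ i).z t) (C7_total _ ((hD i).1 t)) (s i) (hσ1 i)
      (hsb i)).trans ?_
    rw [hRB]
    exact mul_le_mul_of_nonneg_right (z_le_RB ((ρ i).map (algebraMap K L)) v t) (hσD i)
  have hwb : ∀ i l, μ (aeval (s i) ((ρ i).w l)) ≤ RB i * (E2.k v * ω i) ^ D := by
    intro i l
    refine (SN_aeval_pow (K := K) h ((ρ i).w l) (C7_total _ ((hD i).2.1 l)) (s i) (hσ1 i)
      (hsb i)).trans ?_
    rw [hRB]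
    exact mul_le_mul_of_nonneg_right (w_le_RB ((ρ i).map (algebraMap K L)) v l) (hσD i)
  have hnw : ∀ i r, μ (aeval (y i) (nd.w r)) ≤ E3.k v * ω i ^ D3 := by
    intro i r
    refine (SN_aeval_pow (K := K) h (nd.w r) (C7_total _ (hD3' r)) (y i) (hω i)
      (hyω i)).trans ?_
    exact mul_le_mul_of_nonneg_right (hE3 r L v) (pow_nonneg (hω0 i) _)
  have hΩ1 : ∀ i, 1 ≤ RB i * (E2.k v * ω i) ^ D := fun i =>
    one_le_mul_of_one_le_of_one_le (hR1 i) (one_le_pow₀ (hσ1 i))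
  have hΩ0 : ∀ i, 0 ≤ RB i * (E2.k v * ω i) ^ D := fun i => zero_le_one.trans (hΩ1 i)
  have hY0 : ∀ i, 0 ≤ max 1 (vm v x0) ^ (2 * ((k + 1) * (b i * 4 ^ j i))) := fun i =>
    pow_nonneg (zero_le_one.trans (le_max_left _ _)) _
  have hce0 : 0 ≤ cst v (e + 1) := cst_nonneg _ _
  have hce1 : 1 ≤ cst v (e + 1) := one_le_cst v (Nat.succ_pos e)
  have hc21 : 1 ≤ cst v 2 := one_le_cst v (by norm_num)
  obtain ⟨X, hX⟩ : ∃ X : Fin m → ℕ, X = fun i => 2 * ((k + 1) * b i) * nd.DM * D := ⟨_, rfl⟩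
  obtain ⟨G, hG⟩ : ∃ G : Fin m → ℝ, G = fun i => E1.k v ^ (b i * 4 ^ j i) *
      (cst v (e + 1) * RB i) ^ (2 * ((k + 1) * b i) * nd.DM) *
      max 1 (vm v x0) ^ (2 * ((k + 1) * (b i * 4 ^ j i))) := ⟨_, rfl⟩
  obtain ⟨M, hM⟩ : ∃ M : Fin m → ℝ, M = fun i => κ i ^ X i *
      (RB i * (E2.k v * ω i) ^ D) ^ (k * X i) := ⟨_, rfl⟩
  have hG0 : ∀ i, 0 ≤ G i := fun i => by
    rw [hG]
    exact mul_nonneg (mul_nonneg (pow_nonneg (zero_le_one.trans e1) _)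
      (pow_nonneg (mul_nonneg hce0 (hR0 i)) _)) (hY0 i)
  have hM0 : ∀ i, 0 ≤ M i := fun i => by
    rw [hM]
    exact mul_nonneg (pow_nonneg (hκ0 i) _) (pow_nonneg (hΩ0 i) _)
  have hbox : ∀ ν ∈ BB (fun i => b i + 1), ∀ i (t : Fin (k + 1)), ν i t ≤ b i := by
    intro ν hν i t
    rw [mem_BB] at hν
    exact Nat.lt_succ_iff.1 (hν i t)
  have hHb : ∀ i, ∀ ν : Fin (k + 1) → ℕ, (∀ t, ν t ≤ b i) → ∀ (r : Fin (e₀ + 1))
      (l : Fin (e + 1)),
      (∀ t, degreeOf t (spA x0 (HA nd (ρ i) (j i) (b i) (c i) r l ν)) ≤ X i) ∧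
        NV v (spA x0 (HA nd (ρ i) (j i) (b i) (c i) r l ν)) ≤ G i := by
    intro i ν hν r l
    have hBDi := HA_BD nd (ρ i) (hD i) (j i) (b i) (c i) r l ν hν
    refine ⟨fun t => ?_, ?_⟩
    · rw [hX]
      exact spA_degree x0 hBDi t
    · rw [hG, hRB]
      exact (spA_NV v x0 hBDi).trans (mul_le_mul_of_nonneg_right
        (hE1 v (ρ i) (j i) (b i) (c i) r l ν hν) (hY0 i))
  have hcore : ∀ p : Fin m → Fin (e₀ + 1) × Fin (e + 1),
      μ (∑ ν ∈ BB (fun i => b i + 1), Φ ν *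
        aeval (fun q : Fin m × Fin (k + 1) => aeval (s q.1) ((ρ q.1).z q.2))
          (HP fun i => spA x0 (HA nd (ρ i) (j i) (b i) (c i) (p i).1 (p i).2 (ν i)))) ≤
      cst v (∏ i, (b i + 1) ^ (k + 1)) * (B * ((∏ i, G i) * ((∏ i, M i) * δ ^ T))) := by
    intro p
    have h1 := core_joint h (fun q : Fin m × Fin (k + 1) => aeval (s q.1) ((ρ q.1).z q.2))
      (BB (fun i => b i + 1)) Φ
      (fun ν => HP fun i => spA x0 (HA nd (ρ i) (j i) (b i) (c i) (p i).1 (p i).2 (ν i)))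
      (fun β => T ≤ ∑ i, 4 ^ j i * β (i, 0)) (G := ∏ i, G i) (M := (∏ i, M i) * δ ^ T)
      (fun β hβ => by
        have h2 := hO c (fun i => (p i).1) (fun i => (p i).2) (sp β) (not_le.1 hβ)
        rw [← h2]
        refine Finset.sum_congr rfl fun ν _ => ?_
        rw [HP_coeff])
      hB0 (Finset.prod_nonneg fun i _ => hG0 i)
      (mul_nonneg (Finset.prod_nonneg fun i _ => hM0 i) (pow_nonneg hδ.le T))
      (fun ν hν β hβ hβT => ?_) hB (fun ν hν => ?_)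
    · rw [card_BB] at h1
      exact h1
    · -- monomials
      have hdeg : ∀ i t, β (i, t) ≤ X i := by
        intro i t
        have h2 := monomial_le_degreeOf t (HP_support _ β hβ i)
        exact h2.trans ((hHb i (ν i) (fun t => hbox ν hν i t) (p i).1 (p i).2).1 t)
      have h2 : μ (∏ q : Fin m × Fin (k + 1), aeval (s q.1) ((ρ q.1).z q.2) ^ β q) ≤
          ∏ i, ∏ t, μ (aeval (s i) ((ρ i).z t)) ^ β (i, t) := by
        rw [← Fintype.prod_prod_type' (f := fun i t => μ (aeval (s i) ((ρ i).z t)) ^ β (i, t))]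
        refine (h.prod_le _ _).trans ?_
        exact Finset.prod_le_prod (fun q _ => h.nonneg _) fun q _ => h.pow_le _ _
      have h3 : ∀ i, ∏ t, μ (aeval (s i) ((ρ i).z t)) ^ β (i, t) ≤
          M i * δ ^ (4 ^ j i * β (i, 0)) := by
        intro i
        rw [Fin.prod_univ_succ]
        have h31 : ∏ t : Fin k, μ (aeval (s i) ((ρ i).z t.succ)) ^ β (i, t.succ) ≤
            (RB i * (E2.k v * ω i) ^ D) ^ (k * X i) := by
          have h32 : ∏ t : Fin k, μ (aeval (s i) ((ρ i).z t.succ)) ^ β (i, t.succ) ≤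
              ∏ _t : Fin k, (RB i * (E2.k v * ω i) ^ D) ^ X i := by
            refine Finset.prod_le_prod (fun t _ => pow_nonneg (h.nonneg _) _) fun t _ => ?_
            exact (pow_le_pow_left₀ (h.nonneg _) (hzb i _) _).trans
              (pow_le_pow_right₀ (hΩ1 i) (hdeg i _))
          refine h32.trans (le_of_eq ?_)
          rw [Finset.prod_const, Finset.card_univ, Fintype.card_fin, ← pow_mul, mul_comm (X i) k]
        have h33 : μ (aeval (s i) ((ρ i).z 0)) ^ β (i, 0) ≤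
            κ i ^ X i * δ ^ (4 ^ j i * β (i, 0)) := by
          have h34 : μ (aeval (s i) ((ρ i).z 0)) ≤ κ i * δ ^ (4 ^ j i) := by
            rw [hs]
            exact h0 i
          refine (pow_le_pow_left₀ (h.nonneg _) h34 _).trans ?_
          rw [mul_pow, ← pow_mul]
          exact mul_le_mul_of_nonneg_right (pow_le_pow_right₀ (hκ i) (hdeg i 0))
            (pow_nonneg hδ.le _)
        refine (mul_le_mul h33 h31 (Finset.prod_nonneg fun t _ => pow_nonneg (h.nonneg _) _)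
          (mul_nonneg (pow_nonneg (hκ0 i) _) (pow_nonneg hδ.le _))).trans (le_of_eq ?_)
        rw [hM]
        ring
      refine h2.trans ((Finset.prod_le_prod (fun i _ => Finset.prod_nonneg fun t _ =>
        pow_nonneg (h.nonneg _) _) fun i _ => h3 i).trans ?_)
      rw [Finset.prod_mul_distrib]
      refine mul_le_mul_of_nonneg_left ?_ (Finset.prod_nonneg fun i _ => hM0 i)
      rw [Finset.prod_pow_eq_pow_sum]
      exact pow_le_pow_of_le_one hδ.le hδ1 hβT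
    · refine (HP_NV v _).trans (Finset.prod_le_prod (fun i _ => (SN_NV v).nonneg _) fun i _ => ?_)
      exact (hHb i (ν i) (fun t => hbox ν hν i t) (p i).1 (p i).2).2
  rw [LB_all nd ρ j b Φ x0 y hy hy0 c]
  have hcard0 : 0 ≤ cst v (∏ i, (b i + 1) ^ (k + 1)) := cst_nonneg _ _
  have hGp : 0 ≤ ∏ i, G i := Finset.prod_nonneg fun i _ => hG0 i
  have hMp : 0 ≤ ∏ i, M i := Finset.prod_nonneg fun i _ => hM0 i
  have hδT : 0 ≤ δ ^ T := pow_nonneg hδ.le T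
  have hcore0 : 0 ≤ cst v (∏ i, (b i + 1) ^ (k + 1)) *
      (B * ((∏ i, G i) * ((∏ i, M i) * δ ^ T))) :=
    mul_nonneg hcard0 (mul_nonneg hB0 (mul_nonneg hGp (mul_nonneg hMp hδT)))
  have hW0 : ∀ i, 0 ≤ E3.k v * ω i ^ D3 * (RB i * (E2.k v * ω i) ^ D) := fun i =>
    mul_nonneg (mul_nonneg (zero_le_one.trans e3) (pow_nonneg (hω0 i) _)) (hΩ0 i)
  have hwp : ∀ p : Fin m → Fin (e₀ + 1) × Fin (e + 1),
      μ (∏ i, (aeval (y i) (nd.w (p i).1) * aeval (s i) ((ρ i).w (p i).2))) ≤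
      ∏ i, (E3.k v * ω i ^ D3 * (RB i * (E2.k v * ω i) ^ D)) := by
    intro p
    refine (h.prod_le _ _).trans ?_
    refine Finset.prod_le_prod (fun i _ => h.nonneg _) fun i _ => (h.mul _ _).trans ?_
    exact mul_le_mul (hnw i (p i).1) (hwb i (p i).2) (h.nonneg _)
      ((h.nonneg _).trans (hnw i (p i).1))
  have hWp : 0 ≤ ∏ i, (E3.k v * ω i ^ D3 * (RB i * (E2.k v * ω i) ^ D)) :=
    Finset.prod_nonneg fun i _ => hW0 i
  have hfin := h.sum_le Finset.univ (fun p : Fin m → Fin (e₀ + 1) × Fin (e + 1) =>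
      (∏ i, (aeval (y i) (nd.w (p i).1) * aeval (s i) ((ρ i).w (p i).2))) *
      ∑ ν ∈ BB (fun i => b i + 1), Φ ν *
        aeval (fun q : Fin m × Fin (k + 1) => aeval (s q.1) ((ρ q.1).z q.2))
          (HP fun i => spA x0 (HA nd (ρ i) (j i) (b i) (c i) (p i).1 (p i).2 (ν i))))
    (mul_nonneg hWp hcore0)
    (fun p _ => (h.mul _ _).trans (mul_le_mul (hwp p) (hcore p) (h.nonneg _) hWp))
  rw [Finset.card_univ, Fintype.card_fun, Fintype.card_fin, Fintype.card_prod, Fintype.card_fin,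
    Fintype.card_fin, cst_pow, cst_mul] at hfin
  rw [hs] at hfin
  refine hfin.trans ?_
  -- the constants
  have hEk : E4.k v * E3.k v * E1.k v * E2.k v ^ d ≤
      (((E4.mul E3).mul E1).mul (E2.pw d)).k v := by
    refine le_trans ?_ (SC.mul_le _ _ v)
    refine mul_le_mul ?_ (E2.pow_le d v) (by positivity) (SC.pos _ v).le
    refine le_trans ?_ (SC.mul_le _ _ v)
    exact mul_le_mul_of_nonneg_right (SC.mul_le _ _ v) (by positivity)
  have hblk : ∀ i, cst v (e₀ + 1) * cst v (e + 1) *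
      (E3.k v * ω i ^ D3 * (RB i * (E2.k v * ω i) ^ D)) *
      (cst v ((b i + 1) ^ (k + 1)) * G i * M i) ≤
      (((E4.mul E3).mul E1).mul (E2.pw d)).k v ^ (b i * 4 ^ j i) *
          max 1 (vm v x0) ^ (2 * ((k + 1) * (b i * 4 ^ j i))) *
          (cst v 2 * cst v (e + 1) * RB i * κ i * ω i) ^ (a * b i) := by
    intro i
    have h1 := LB_real (n := k + 1) (k := k) (D := D) (D3 := D3) (M := nd.DM) (b := b i)
      (f := 4 ^ j i) (Y := max 1 (vm v x0) ^ (2 * ((k + 1) * (b i * 4 ^ j i)))) (c0 := E4.k v)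
      (E1 := E1.k v) (E2 := E2.k v) (E3 := E3.k v) (c2 := cst v 2)
      (cb := cst v ((b i + 1) ^ (k + 1))) (ce := cst v (e + 1)) (R := RB i) (κ := κ i)
      (ω := ω i) (hb i) (Nat.one_le_pow _ _ (by norm_num)) (hY0 i) e4 e1 e2 e3 hc21 hce1 (hR1 i)
      (hκ i) (hω i) (cst_nonneg _ _) (C08_cst_card v (k + 1) (b i))
    rw [← hd, ← ha] at h1
    have hZ0 : 0 ≤ (cst v 2 * cst v (e + 1) * RB i * κ i * ω i) ^ (a * b i) := by
      have q1 := hR0 i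
      have q2 := hκ0 i
      have q3 := hω0 i
      positivity
    have h2 : 0 ≤ (E3.k v * ω i ^ D3 * (RB i * (E2.k v * ω i) ^ D)) *
      (cst v ((b i + 1) ^ (k + 1)) * G i * M i) :=
      mul_nonneg (hW0 i) (mul_nonneg (mul_nonneg (cst_nonneg _ _) (hG0 i)) (hM0 i))
    calc cst v (e₀ + 1) * cst v (e + 1) *
        (E3.k v * ω i ^ D3 * (RB i * (E2.k v * ω i) ^ D)) *
        (cst v ((b i + 1) ^ (k + 1)) * G i * M i) =
        cst v (e₀ + 1) * (cst v (e + 1) * ((E3.k v * ω i ^ D3 * (RB i * (E2.k v * ω i) ^ D)) *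
        (cst v ((b i + 1) ^ (k + 1)) * G i * M i))) := by ring
      _ ≤ E4.k v * (cst v (e + 1) * ((E3.k v * ω i ^ D3 * (RB i * (E2.k v * ω i) ^ D)) *
        (cst v ((b i + 1) ^ (k + 1)) * G i * M i))) :=
          mul_le_mul_of_nonneg_right (hE4 L v) (mul_nonneg hce0 h2)
      _ = E4.k v * cst v (e + 1) * (E3.k v * ω i ^ D3 * (RB i * (E2.k v * ω i) ^ D)) *
        (cst v ((b i + 1) ^ (k + 1)) * G i * M i) := by ring
      _ ≤ _ := by
        rw [hG, hM, hX]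
        refine h1.trans ?_
        refine mul_le_mul_of_nonneg_right ?_ hZ0
        refine mul_le_mul_of_nonneg_right ?_ (hY0 i)
        exact pow_le_pow_left₀ (by positivity) hEk _
  have hprod : (cst v (e₀ + 1) * cst v (e + 1)) ^ m *
      ((∏ i, (E3.k v * ω i ^ D3 * (RB i * (E2.k v * ω i) ^ D))) *
      (cst v (∏ i, (b i + 1) ^ (k + 1)) * (B * ((∏ i, G i) * ((∏ i, M i) * δ ^ T))))) =
      B * (∏ i, (cst v (e₀ + 1) * cst v (e + 1) *
      (E3.k v * ω i ^ D3 * (RB i * (E2.k v * ω i) ^ D)) *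
      (cst v ((b i + 1) ^ (k + 1)) * G i * M i))) * δ ^ T := by
    rw [cst_prod]
    simp only [Finset.prod_mul_distrib, Finset.prod_const, Finset.card_univ, Fintype.card_fin]
    ring
  rw [hprod]
  refine mul_le_mul_of_nonneg_right (mul_le_mul_of_nonneg_left ?_ hB0) hδT
  rw [hRB] at hblk ⊢
  refine Finset.prod_le_prod (fun i _ => ?_) fun i _ => hblk i
  have h5 := hW0 i
  rw [hRB] at h5
  have h7 := hG0 i
  have h8 := hM0 i
  exact mul_nonneg (mul_nonneg (mul_nonneg (cst_nonneg _ _) hce0) h5)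
    (mul_nonneg (mul_nonneg (cst_nonneg _ _) h7) h8)

end Pool.Agent.Lib.MP_17a322_nt.VDA
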