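import Pool.Agent.Lib.MP_17a322_nt.VDA.J0
import Pool.Agent.Lib.MP_17a322_nt.VDL.LA
import Pool.Agent.Lib.MP_17a322_nt.VA.C7

/-!
The block polynomials in terms of the components.
-/

universe u

namespace Pool.Agent.Lib.MP_17a322_nt.VDA

open MvPolynomial Height
open Pool.Agent.Lib.MP_17a322_nt.RO
open Pool.Agent.Lib.MP_17a322_nt.VJ
open Pool.Agent.Lib.MP_17a322_nt.VN
open Pool.Agent.Lib.MP_17a322_nt.VA
open Pool.Agent.Lib.MP_17a322_nt.VDL (HP HP_aeval)

/-- One block in terms of the components. -/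
theorem LB_one {K : Type u} [Field K] {N : ℕ} {A : AV K N} {n e₀ : ℕ} (nd : Noe A n e₀)
    {L : Type u} [Field L] [Algebra K L] {R : Type u} [CommRing R] [Algebra L R] [Algebra K R]
    [IsScalarTower K L R] {e : ℕ} (ρ : REP K n e) (j b : ℕ) (x0 : Fin (N + 1) → L)
    (y : Fin (N + 1) → R) (hy : A.IsPt y) (hy0 : lf (nd.l 0) y = 1) (c : Fin (N + 1))
    (ν : Fin n → ℕ) :
    UVA A nd.l j b c (fun i => algebraMap L R (x0 i)) y ν =
      ∑ p : Fin (e₀ + 1) × Fin (e + 1), (aeval y (nd.w p.1) *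
        aeval (fun t : Fin n => lf (nd.l t.succ) y) (ρ.w p.2)) *
        aeval (fun t => aeval (fun t : Fin n => lf (nd.l t.succ) y) (ρ.z t))
          (spA x0 (HA nd ρ j b c p.1 p.2 ν)) := by
  obtain ⟨s, hs⟩ : ∃ s : Fin n → R, s = fun t : Fin n => lf (nd.l t.succ) y := ⟨_, rfl⟩
  rw [← hs]
  have hrel := nd.rel R y hy hy0
  have hrel1 : ∀ (a : Fin (N + 1)) (m : Fin (e₀ + 1)),
      ∑ r, aeval y (nd.w r) * aeval s (nd.Mx a r m) = y a * aeval y (nd.w m) := by
    intro a m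
    rw [hs]
    exact hrel a m
  have hw : (fun r => aeval y (nd.w r)) 0 = (1 : R) := by
    show aeval y (nd.w 0) = 1
    rw [nd.w_zero, map_one]
  have hw' : (fun l => aeval s (ρ.w l)) 0 = (1 : R) := by
    show aeval s (ρ.w 0) = 1
    rw [ρ.w_zero, map_one]
  have hrel2 : ∀ (a : Fin n) (m : Fin (e + 1)),
      ∑ l, aeval s (ρ.w l) * aeval (fun t => aeval s (ρ.z t)) (ρ.M a l m) =
        s a * aeval s (ρ.w m) := by
    intro a m
    have h1 := congrArg (aeval s) (ρ.rel a m)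
    rw [map_sum, map_mul, aeval_X] at h1
    rw [← h1]
    refine Finset.sum_congr rfl fun l _ => ?_
    rw [map_mul]
    congr 1
    exact (MvPolynomial.comp_aeval_apply ρ.z (aeval s) (ρ.M a l m)).symm
  have h1 : UVA A nd.l j b c (fun i => algebraMap L R (x0 i)) y ν =
      ∑ r, aeval y (nd.w r) * ∑ l, aeval s (ρ.w l) *
        aeval (fun t => aeval s (ρ.z t)) (spA x0 (HA nd ρ j b c r l ν)) := by
    rw [← aeval_UUA, GR_eval nd.Mx _ (fun r => aeval y (nd.w r)) s y hw hrel1]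
    refine Finset.sum_congr rfl fun r _ => ?_
    rw [GR_eval ρ.M _ (fun l => aeval s (ρ.w l)) (fun t => aeval s (ρ.z t)) s hw' hrel2]
    congr 1
    refine Finset.sum_congr rfl fun l _ => ?_
    rw [aeval_spA]
    rfl
  rw [h1, Fintype.sum_prod_type]
  refine Finset.sum_congr rfl fun r _ => ?_
  rw [Finset.mul_sum]
  exact Finset.sum_congr rfl fun l _ => (mul_assoc _ _ _).symm

/-- All blocks in terms of the components. -/
theorem LB_all {K : Type u} [Field K] {N : ℕ} {A : AV K N} {n e₀ : ℕ} (nd : Noe A n e₀)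
    {L : Type u} [Field L] [Algebra K L] {R : Type u} [CommRing R] [Algebra L R] [Algebra K R]
    [IsScalarTower K L R] {m e : ℕ} (ρ : Fin m → REP K n e) (j b : Fin m → ℕ)
    (Φ : (Fin m → Fin n → ℕ) → R) (x0 : Fin (N + 1) → L) (y : Fin m → Fin (N + 1) → R)
    (hy : ∀ i, A.IsPt (y i)) (hy0 : ∀ i, lf (nd.l 0) (y i) = 1) (c : Fin m → Fin (N + 1))
    (S : Finset (Fin m → Fin n → ℕ)) :
    ∑ ν ∈ S, Φ ν * ∏ i, UVA A nd.l (j i) (b i) (c i) (fun t => algebraMap L R (x0 t)) (y i) (ν i) =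
      ∑ p : Fin m → Fin (e₀ + 1) × Fin (e + 1),
        (∏ i, (aeval (y i) (nd.w (p i).1) *
          aeval (fun t : Fin n => lf (nd.l t.succ) (y i)) ((ρ i).w (p i).2))) *
        ∑ ν ∈ S, Φ ν * aeval (fun q : Fin m × Fin n =>
          aeval (fun t : Fin n => lf (nd.l t.succ) (y q.1)) ((ρ q.1).z q.2))
          (HP fun i => spA x0 (HA nd (ρ i) (j i) (b i) (c i) (p i).1 (p i).2 (ν i))) := by
  classical
  have hev : ∀ ν : Fin m → Fin n → ℕ,
      ∏ i, UVA A nd.l (j i) (b i) (c i) (fun t => algebraMap L R (x0 t)) (y i) (ν i) =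
      ∑ p : Fin m → Fin (e₀ + 1) × Fin (e + 1),
        (∏ i, (aeval (y i) (nd.w (p i).1) *
          aeval (fun t : Fin n => lf (nd.l t.succ) (y i)) ((ρ i).w (p i).2))) *
        aeval (fun q : Fin m × Fin n =>
          aeval (fun t : Fin n => lf (nd.l t.succ) (y q.1)) ((ρ q.1).z q.2))
          (HP fun i => spA x0 (HA nd (ρ i) (j i) (b i) (c i) (p i).1 (p i).2 (ν i))) := by
    intro ν
    rw [Finset.prod_congr rfl fun i _ =>
      LB_one nd (ρ i) (j i) (b i) x0 (y i) (hy i) (hy0 i) (c i) (ν i),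
      Finset.prod_univ_sum, Fintype.piFinset_univ]
    refine Finset.sum_congr rfl fun p _ => ?_
    rw [Finset.prod_mul_distrib, HP_aeval]
  have h1 : ∀ ν ∈ S, Φ ν *
      ∏ i, UVA A nd.l (j i) (b i) (c i) (fun t => algebraMap L R (x0 t)) (y i) (ν i) =
      ∑ p : Fin m → Fin (e₀ + 1) × Fin (e + 1),
        (∏ i, (aeval (y i) (nd.w (p i).1) *
          aeval (fun t : Fin n => lf (nd.l t.succ) (y i)) ((ρ i).w (p i).2))) *
        (Φ ν * aeval (fun q : Fin m × Fin n =>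
          aeval (fun t : Fin n => lf (nd.l t.succ) (y q.1)) ((ρ q.1).z q.2))
          (HP fun i => spA x0 (HA nd (ρ i) (j i) (b i) (c i) (p i).1 (p i).2 (ν i)))) := by
    intro ν _
    rw [hev, Finset.mul_sum]
    exact Finset.sum_congr rfl fun p _ => mul_left_comm _ _ _
  rw [Finset.sum_congr rfl h1, Finset.sum_comm]
  exact Finset.sum_congr rfl fun p _ => (Finset.mul_sum _ _ _).symm

end Pool.Agent.Lib.MP_17a322_nt.VDA
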