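import Pool.Agent.Lib.MP_17a322_nt.VDA.LB
import Pool.Agent.Lib.MP_17a322_nt.VA.C2

/-!
The estimate of all blocks at once.
-/

universe u

namespace Pool.Agent.Lib.MP_17a322_nt.VDA

open MvPolynomial Height
open Pool.Agent.Lib.MP_17a322_nt.RO
open Pool.Agent.Lib.MP_17a322_nt.VJ
open Pool.Agent.Lib.MP_17a322_nt.VN
open Pool.Agent.Lib.MP_17a322_nt.VA
open Pool.Agent.Lib.MP_17a322_nt.VDL (BB_nonneg)

/-- one factor of the product over `t` -/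
private theorem LC_fac {R : Type*} [CommRing R] {c0 c1 d ξ : R} (h1 : c1 * d = 1)
    (h0 : c0 * d = ξ) {ν b : ℕ} (hν : ν ≤ b) :
    ξ ^ ν = d ^ b * (c0 ^ ν * c1 ^ (b - ν)) := by
  obtain ⟨a, rfl⟩ := Nat.exists_eq_add_of_le hν
  rw [Nat.add_sub_cancel_left, pow_add, ← h0, mul_pow]
  have h2 : c1 ^ a * d ^ a = 1 := by rw [← mul_pow, h1, one_pow]
  linear_combination (- (c0 ^ ν * d ^ ν)) * h2

theorem joint_sumA {K : Type u} [Field K] {N : ℕ} (A : AV K N) {n m : ℕ}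
    (l : Fin (n + 1) → Fin (N + 1) → K) {R : Type*} [CommRing R] [Algebra K R]
    (j b : Fin m → ℕ) (c : Fin m → Fin (N + 1)) (Φ : (Fin m → Fin n → ℕ) → R)
    (x : Fin (N + 1) → R) (y : Fin m → Fin (N + 1) → R) (ξ : Fin m → Fin n → R) (d : Fin m → R)
    (hd : ∀ i, EA A l (j i) (c i) x (y i) 0 * d i = 1)
    (hξ : ∀ i (t : Fin n), EA A l (j i) (c i) x (y i) t.succ * d i = ξ i t) :
    ∑ ν ∈ BB (fun i => b i + 1), Φ ν * ∏ i, ∏ t, ξ i t ^ ν i t =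
      (∏ i, d i ^ (n * b i)) * ∑ ν ∈ BB (fun i => b i + 1),
        Φ ν * ∏ i, UVA A l (j i) (b i) (c i) x (y i) (ν i) := by
  rw [Finset.mul_sum]
  refine Finset.sum_congr rfl fun ν hν => ?_
  have h1 : ∀ i, ∏ t, ξ i t ^ ν i t = d i ^ (n * b i) * UVA A l (j i) (b i) (c i) x (y i) (ν i) := by
    intro i
    have h2 : (d i : R) ^ (n * b i) = ∏ _t : Fin n, d i ^ b i := by
      rw [Finset.prod_const, Finset.card_univ, Fintype.card_fin, ← pow_mul, mul_comm]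
    unfold UVA
    rw [h2, ← Finset.prod_mul_distrib]
    refine Finset.prod_congr rfl fun t _ => ?_
    exact LC_fac (hd i) (hξ i t) (Nat.lt_succ_iff.1 ((mem_BB _ _).1 hν i t))
  rw [Finset.prod_congr rfl fun i _ => h1 i, Finset.prod_mul_distrib, mul_left_comm]

private theorem LC_num {Ek y0 kk X M c2 ce RB κ : ℝ} {n b f a : ℕ} (hf : 1 ≤ f)
    (hE : 1 ≤ Ek) (hy : 1 ≤ y0) (hkk : 1 ≤ kk) (hX : 1 ≤ X) (hM : 0 < M)
    (hc2 : 0 ≤ c2) (hc2k : c2 ≤ kk) (hce : 1 ≤ ce) (hRB : 1 ≤ RB) (hκ : 1 ≤ κ)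
    (hyM : y0 ^ f ≤ kk ^ f * M) :
    (kk * X / M ^ 2) ^ (n * b) * (Ek ^ (b * f) * y0 ^ (2 * (n * (b * f))) *
      (c2 * ce * RB * κ * kk) ^ (a * b)) ≤ (Ek * kk) ^ ((3 * n + 2 * a + 1) * (b * f)) *
      (ce * RB * κ) ^ ((3 * n + 2 * a + 1) * b) * X ^ (n * b) := by
  have hkk0 : 0 ≤ kk := zero_le_one.trans hkk
  have hy0 : 0 ≤ y0 := zero_le_one.trans hy
  have hE0 : 0 ≤ Ek := zero_le_one.trans hE
  have hX0 : 0 ≤ X := zero_le_one.trans hX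
  have hce0 : 0 ≤ ce := zero_le_one.trans hce
  have hRB0 : 0 ≤ RB := zero_le_one.trans hRB
  have hκ0 : 0 ≤ κ := zero_le_one.trans hκ
  have hW1 : 1 ≤ ce * RB * κ :=
    one_le_mul_of_one_le_of_one_le (one_le_mul_of_one_le_of_one_le hce hRB) hκ
  have hW0 : 0 ≤ ce * RB * κ := zero_le_one.trans hW1
  have hbf : b ≤ b * f := Nat.le_mul_of_pos_right b hf
  -- the power of `y0`
  have e1 : y0 ^ (2 * (n * (b * f))) ≤ kk ^ (2 * (n * (b * f))) * (M ^ 2) ^ (n * b) := by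
    have h1 : 2 * (n * (b * f)) = f * (2 * (n * b)) := by ring
    have h2 : (kk ^ f * M) ^ (2 * (n * b)) = kk ^ (f * (2 * (n * b))) * (M ^ 2) ^ (n * b) := by
      rw [mul_pow, ← pow_mul, pow_mul M 2]
    rw [h1, pow_mul y0 f, ← h2]
    exact pow_le_pow_left₀ (pow_nonneg hy0 _) hyM _
  have e2 : (kk * X / M ^ 2) ^ (n * b) * y0 ^ (2 * (n * (b * f))) ≤
      kk ^ (n * b + 2 * (n * (b * f))) * X ^ (n * b) := by
    have hM2 : (M ^ 2) ^ (n * b) ≠ 0 := pow_ne_zero _ (pow_ne_zero _ hM.ne')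
    calc (kk * X / M ^ 2) ^ (n * b) * y0 ^ (2 * (n * (b * f))) ≤
        (kk * X / M ^ 2) ^ (n * b) * (kk ^ (2 * (n * (b * f))) * (M ^ 2) ^ (n * b)) :=
          mul_le_mul_of_nonneg_left e1 (by positivity)
      _ = kk ^ (n * b + 2 * (n * (b * f))) * X ^ (n * b) := by
          rw [div_pow, mul_pow, pow_add]
          field_simp
  have e3 : (c2 * ce * RB * κ * kk) ^ (a * b) ≤ kk ^ (2 * (a * b)) * (ce * RB * κ) ^ (a * b) := by
    have h1 : c2 * ce * RB * κ * kk ≤ kk ^ 2 * (ce * RB * κ) := by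
      calc c2 * ce * RB * κ * kk = c2 * (ce * RB * κ * kk) := by ring
        _ ≤ kk * (ce * RB * κ * kk) := mul_le_mul_of_nonneg_right hc2k (by positivity)
        _ = kk ^ 2 * (ce * RB * κ) := by ring
    calc (c2 * ce * RB * κ * kk) ^ (a * b) ≤ (kk ^ 2 * (ce * RB * κ)) ^ (a * b) :=
          pow_le_pow_left₀ (by positivity) h1 _
      _ = kk ^ (2 * (a * b)) * (ce * RB * κ) ^ (a * b) := by rw [mul_pow, ← pow_mul]
  have e4 : (ce * RB * κ) ^ (a * b) ≤ (ce * RB * κ) ^ ((3 * n + 2 * a + 1) * b) :=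
    pow_le_pow_right₀ hW1 (Nat.mul_le_mul_right b (by omega))
  have e5 : Ek ^ (b * f) ≤ Ek ^ ((3 * n + 2 * a + 1) * (b * f)) :=
    pow_le_pow_right₀ hE (Nat.le_mul_of_pos_left _ (by omega))
  have e6 : kk ^ (n * b + 2 * (n * (b * f)) + 2 * (a * b)) ≤
      kk ^ ((3 * n + 2 * a + 1) * (b * f)) := by
    apply pow_le_pow_right₀ hkk
    have a1 : n * b ≤ n * (b * f) := Nat.mul_le_mul_left n hbf
    have a2 : a * b ≤ a * (b * f) := Nat.mul_le_mul_left a hbf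
    have a3 : (3 * n + 2 * a + 1) * (b * f) = 3 * (n * (b * f)) + 2 * (a * (b * f)) + b * f := by
      ring
    rw [a3]
    omega
  calc (kk * X / M ^ 2) ^ (n * b) * (Ek ^ (b * f) * y0 ^ (2 * (n * (b * f))) *
        (c2 * ce * RB * κ * kk) ^ (a * b))
      = ((kk * X / M ^ 2) ^ (n * b) * y0 ^ (2 * (n * (b * f)))) * Ek ^ (b * f) *
        (c2 * ce * RB * κ * kk) ^ (a * b) := by ring
    _ ≤ (kk ^ (n * b + 2 * (n * (b * f))) * X ^ (n * b)) * Ek ^ (b * f) *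
        (kk ^ (2 * (a * b)) * (ce * RB * κ) ^ (a * b)) := by
        refine mul_le_mul ?_ e3 (by positivity) (by positivity)
        exact mul_le_mul_of_nonneg_right e2 (by positivity)
    _ = Ek ^ (b * f) * kk ^ (n * b + 2 * (n * (b * f)) + 2 * (a * b)) *
        (ce * RB * κ) ^ (a * b) * X ^ (n * b) := by
        rw [pow_add kk (n * b + 2 * (n * (b * f)))]
        ring
    _ ≤ Ek ^ ((3 * n + 2 * a + 1) * (b * f)) * kk ^ ((3 * n + 2 * a + 1) * (b * f)) *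
        (ce * RB * κ) ^ ((3 * n + 2 * a + 1) * b) * X ^ (n * b) := by
        refine mul_le_mul_of_nonneg_right ?_ (by positivity)
        refine mul_le_mul ?_ e4 (by positivity) (by positivity)
        exact mul_le_mul e5 e6 (by positivity) (by positivity)
    _ = (Ek * kk) ^ ((3 * n + 2 * a + 1) * (b * f)) *
      (ce * RB * κ) ^ ((3 * n + 2 * a + 1) * b) * X ^ (n * b) := by
        rw [mul_pow Ek kk]

theorem exists_joint_gainA {K : Type u} [Field K] {N : ℕ} {A : AV K N} {k e₀ : ℕ}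
    (nd : Noe A (k + 1) e₀) (D : ℕ) :
    ∃ (E : SC K) (a : ℕ), ∀ {L : Type u} [Field L] [Algebra K L] {v : AbsoluteValue L ℝ}
      {R : Type u} [CommRing R] [Algebra L R] [Algebra K R] [IsScalarTower K L R] {μ : R → ℝ},
      SN v μ → ∀ {e m : ℕ} (ρ : Fin m → REP K (k + 1) e), (∀ i, (ρ i).Deg D) →
      ∀ {j b : Fin m → ℕ} {T : ℕ}, (∀ i, 1 ≤ b i) →
      ∀ (Φ : (Fin m → Fin (k + 1) → ℕ) → R) (x0 : Fin (N + 1) → L), ORJA nd ρ j b T Φ x0 →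
      ∀ {B δ kk : ℝ} {κ X M : Fin m → ℝ}, (∀ ν ∈ BB (fun i => b i + 1), μ (Φ ν) ≤ B) →
      (∀ i, 1 ≤ κ i) → 0 < δ → δ ≤ 1 → cst v 2 ≤ kk → 1 ≤ kk → (∀ i, 1 ≤ X i) →
      (∀ i, 0 < M i) → (∀ i, max 1 (vm v x0) ^ 4 ^ j i ≤ kk ^ 4 ^ j i * M i) →
      ∀ (y : Fin m → Fin (N + 1) → R), (∀ i, A.IsPt (y i)) → (∀ i, lf (nd.l 0) (y i) = 1) →
      (∀ i t, μ (y i t) ≤ kk) →
      (∀ i, μ (aeval (fun t : Fin (k + 1) => lf (nd.l t.succ) (y i)) ((ρ i).z 0)) ≤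
        κ i * δ ^ (4 ^ j i)) →
      ∀ (c : Fin m → Fin (N + 1)) (ξ : Fin m → Fin (k + 1) → R) (d : Fin m → R),
      (∀ i, EA A nd.l (j i) (c i) (fun t => algebraMap L R (x0 t)) (y i) 0 * d i = 1) →
      (∀ i (t : Fin (k + 1)), EA A nd.l (j i) (c i) (fun t => algebraMap L R (x0 t)) (y i) t.succ *
        d i = ξ i t) →
      (∀ i, μ (d i) ≤ kk * X i / M i ^ 2) →
      μ (∑ ν ∈ BB (fun i => b i + 1), Φ ν * ∏ i, ∏ t, ξ i t ^ ν i t) ≤
        B * (∏ i, ((E.k v * kk) ^ (a * (b i * 4 ^ j i)) *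
          (cst v (e + 1) * ((ρ i).map (algebraMap K L)).RB v * κ i) ^ (a * b i) *
            X i ^ ((k + 1) * b i))) * δ ^ T := by
  classical
  obtain ⟨E, a, H⟩ := exists_ORJA_estimate nd D
  refine ⟨E, 3 * (k + 1) + 2 * a + 1, ?_⟩
  intro L _ _ v R _ _ _ _ μ h e m ρ hD j b T hb Φ x0 hO B δ kk κ X M hBd hκ hδ hδ1 hc2 hkk hX hM
    hyM y hy hy0 hyk h0 c ξ d hd hξ hds
  have hB0 : 0 ≤ B := BB_nonneg h.nonneg Φ hBd
  have hkk0 : 0 ≤ kk := zero_le_one.trans hkk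
  rw [joint_sumA A nd.l j b c Φ (fun t => algebraMap L R (x0 t)) y ξ d hd hξ]
  have hS := H h ρ hD hb Φ x0 hO (ω := fun _ => kk) hBd (fun _ => hkk) hκ hδ hδ1 y hy hy0 hyk h0 c
  obtain ⟨F, hF⟩ : ∃ F : Fin m → ℝ, F = fun i => E.k v ^ (b i * 4 ^ j i) *
      max 1 (vm v x0) ^ (2 * ((k + 1) * (b i * 4 ^ j i))) *
      (cst v 2 * cst v (e + 1) * ((ρ i).map (algebraMap K L)).RB v * κ i * kk) ^ (a * b i) :=
    ⟨_, rfl⟩
  have hS' : μ (∑ ν ∈ BB (fun i => b i + 1), Φ ν *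
      ∏ i, UVA A nd.l (j i) (b i) (c i) (fun t => algebraMap L R (x0 t)) (y i) (ν i)) ≤
      B * (∏ i, F i) * δ ^ T := by
    rw [hF]
    exact hS
  obtain ⟨PD, hPD⟩ : ∃ PD : Fin m → ℝ, PD = fun i => (kk * X i / M i ^ 2) ^ ((k + 1) * b i) :=
    ⟨_, rfl⟩
  have hPD0 : ∀ i, 0 ≤ PD i := fun i => by
    rw [hPD]
    have h1 := zero_le_one.trans (hX i)
    have h2 := (hM i).le
    positivity
  have hF0 : ∀ i, 0 ≤ F i := fun i => by
    rw [hF]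
    have h1 := zero_le_one.trans (hκ i)
    have h2 := zero_le_one.trans (SC.one_le E v)
    have h3 : 0 ≤ ((ρ i).map (algebraMap K L)).RB v := zero_le_one.trans (one_le_RB _ v)
    have h4 := cst_nonneg v 2
    have h5 := cst_nonneg v (e + 1)
    positivity
  have hdp : μ (∏ i, d i ^ ((k + 1) * b i)) ≤ ∏ i, PD i := by
    refine (h.prod_le _ _).trans (Finset.prod_le_prod (fun i _ => h.nonneg _) fun i _ => ?_)
    rw [hPD]
    exact (h.pow_le _ _).trans (pow_le_pow_left₀ (h.nonneg _) (hds i) _)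
  refine (h.mul _ _).trans ((mul_le_mul hdp hS' (h.nonneg _)
    (Finset.prod_nonneg fun i _ => hPD0 i)).trans ?_)
  have hre : (∏ i, PD i) * (B * (∏ i, F i) * δ ^ T) = B * (∏ i, (PD i * F i)) * δ ^ T := by
    rw [Finset.prod_mul_distrib]
    ring
  rw [hre]
  refine mul_le_mul_of_nonneg_right (mul_le_mul_of_nonneg_left ?_ hB0) (pow_nonneg hδ.le _)
  refine Finset.prod_le_prod (fun i _ => mul_nonneg (hPD0 i) (hF0 i)) fun i _ => ?_
  rw [hPD, hF]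
  exact LC_num (Nat.one_le_pow _ _ (by norm_num)) (SC.one_le E v) (le_max_left _ _) hkk (hX i)
    (hM i) (cst_nonneg v 2) hc2 (one_le_cst v (Nat.succ_le_succ (Nat.zero_le e)))
    (one_le_RB _ v) (hκ i) (hyM i)

end Pool.Agent.Lib.MP_17a322_nt.VDA
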