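import Pool.Agent.Lib.MP_17a322_nt.VA.LA1
import Pool.Agent.Lib.MP_17a322_nt.VJ.J5
import Pool.Agent.Lib.MP_17a322_nt.VJ.E2
import Pool.Agent.Lib.MP_17a322_nt.VN.L1d

/-!
Setting `z = 0` and the directions equal to `0`.
-/

universe u

namespace Pool.Agent.Lib.MP_17a322_nt.VDA

open MvPolynomial Height
open Pool.Agent.Lib.MP_17a322_nt.RO
open Pool.Agent.Lib.MP_17a322_nt.VJ
open Pool.Agent.Lib.MP_17a322_nt.VN
open Pool.Agent.Lib.MP_17a322_nt.VA

/-- `z = 0` and the directions equal to `0`. -/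
noncomputable def HZ (K L : Type*) [Field K] [Field L] [Algebra K L] (τ : Type*) :
    D2 L τ →ₐ[K] PowerSeries L :=
  { (PowerSeries.map (MvPolynomial.constantCoeff : MvPolynomial τ L →+* L)).comp
      (PowerSeries.constantCoeff (R := D1 L τ)) with
    commutes' := by
      intro a
      show PowerSeries.map (MvPolynomial.constantCoeff : MvPolynomial τ L →+* L)
        (PowerSeries.constantCoeff (algebraMap K (D2 L τ) a)) = _
      rw [PowerSeries.algebraMap_apply, PowerSeries.constantCoeff_C,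
        PowerSeries.algebraMap_apply, PowerSeries.map_C, MvPolynomial.algebraMap_apply,
        MvPolynomial.constantCoeff_C, PowerSeries.algebraMap_apply] }

section

variable {K L : Type*} [Field K] [Field L] [Algebra K L] {τ : Type*}

theorem HZ_apply (f : D2 L τ) : HZ K L τ f =
    PowerSeries.map (MvPolynomial.constantCoeff : MvPolynomial τ L →+* L)
      (PowerSeries.constantCoeff f) := rfl

theorem HZ_algebraMap (a : L) :
    HZ K L τ (algebraMap L (D2 L τ) a) = algebraMap L (PowerSeries L) a := by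
  rw [algebraMap_D2, HZ_apply, PowerSeries.constantCoeff_C, PowerSeries.map_C,
    MvPolynomial.constantCoeff_C]
  rfl

theorem HZ_c2 {ι : Type*} (M : ι → L) (i : ι) :
    HZ K L τ (c2 L τ M i) = algebraMap L (PowerSeries L) (M i) :=
  HZ_algebraMap (M i)

theorem PN_HZ (v : AbsoluteValue L ℝ) {r κ : ℝ} (hr : 0 ≤ r) (hκ : 0 ≤ κ) (s : ℕ) (f : D2 L τ) :
    PN v r s (HZ K L τ f) ≤ n2 v r κ s 0 f := by
  have h1 : PN v r s (HZ K L τ f) ≤ n1 v r s (PowerSeries.constantCoeff f) := by
    rw [HZ_apply, PN_eq_PA]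
    refine PA_map hr _ (fun a => ?_) s _
    exact coeff_le_NV v a 0
  have h2 := PA_coeff_le (SN_n1 v hr s) hκ (le_refl 0) f
  rw [pow_zero, mul_one, PowerSeries.coeff_zero_eq_constantCoeff_apply] at h2
  exact h1.trans h2

theorem HZ_Exp {w : ℕ} (hw : w ≠ 0) (f : D2 L τ) :
    HZ K L τ (Exp L τ w hw f) = PowerSeries.expand w hw (HZ K L τ f) := by
  rw [HZ_apply, HZ_apply]
  have h1 : PowerSeries.constantCoeff (Exp L τ w hw f) =
      PowerSeries.expand w hw (PowerSeries.constantCoeff f) := by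
    unfold Exp
    rw [← PowerSeries.coeff_zero_eq_constantCoeff_apply, PowerSeries.coeff_map,
      PowerSeries.coeff_zero_eq_constantCoeff_apply]
    rfl
  rw [h1]
  refine PowerSeries.ext fun k => ?_
  rw [PowerSeries.coeff_map, PowerSeries.coeff_expand, PowerSeries.coeff_expand]
  split_ifs
  · rw [PowerSeries.coeff_map]
  · rw [map_zero]

/-- The size of `f` from the size of `f (T ^ w)`. -/
theorem PN_of_expand (v : AbsoluteValue L ℝ) {r : ℝ} (hr : 0 ≤ r) {w : ℕ} (hw : w ≠ 0) (s : ℕ)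
    (f : PowerSeries L) : PN v (r ^ w) s f ≤ PN v r (w * s) (PowerSeries.expand w hw f) := by
  classical
  have hw0 : 0 < w := Nat.pos_of_ne_zero hw
  have hco : ∀ k : ℕ, v (PowerSeries.coeff k f) * (r ^ w) ^ k =
      v (PowerSeries.coeff (w * k) (PowerSeries.expand w hw f)) * r ^ (w * k) := by
    intro k
    rw [PowerSeries.coeff_expand, if_pos (dvd_mul_right w k), Nat.mul_div_cancel_left k hw0,
      pow_mul]
  by_cases hv : IsNonarchimedean v
  · unfold PN
    rw [if_pos hv]
    refine ciSup_le fun k => ?_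
    rw [hco]
    have h1 := PN_coeff_le v hr (n := w * s) (k := w * k)
      (Nat.mul_le_mul_left w (Nat.le_of_lt_succ k.2)) (PowerSeries.expand w hw f)
    unfold PN at h1
    exact h1
  · unfold PN
    rw [if_neg hv, if_neg hv, ← Finset.sum_range fun k => v (PowerSeries.coeff k f) * (r ^ w) ^ k,
      ← Finset.sum_range fun k => v (PowerSeries.coeff k (PowerSeries.expand w hw f)) * r ^ k]
    simp only [hco]
    rw [← Finset.sum_image (f := fun j => v (PowerSeries.coeff j (PowerSeries.expand w hw f)) *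
      r ^ j) (s := Finset.range (s + 1)) (g := fun k => w * k)
      (fun a _ b _ hab => Nat.eq_of_mul_eq_mul_left hw0 hab)]
    refine Finset.sum_le_sum_of_subset_of_nonneg ?_ fun j _ _ =>
      mul_nonneg (v.nonneg _) (pow_nonneg hr _)
    intro j hj
    obtain ⟨k, hk, rfl⟩ := Finset.mem_image.1 hj
    rw [Finset.mem_range] at hk ⊢
    have h2 : w * k ≤ w * s := Nat.mul_le_mul_left w (by omega)
    omega

/-- A series in `T ^ w` with small constant coefficient. -/
theorem expand_center (v : AbsoluteValue L ℝ) {w : ℕ} (hw : w ≠ 0) (G : PowerSeries L)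
    {R₀ l dl Big r : ℝ} (hR : 0 ≤ R₀) (hl : 0 ≤ l) (hl1 : l ≤ 1) (hld : l ≤ dl)
    (hBig1 : 1 ≤ Big) (s : ℕ) (hG : PN v R₀ s G ≤ Big)
    (ha : v (PowerSeries.constantCoeff G) ≤ dl) (hr : 0 ≤ r) (hrw : r ^ w ≤ l * R₀) :
    PN v r s (PowerSeries.expand w hw G) ≤ cst v 2 * (dl * Big) := by
  have hdl0 : 0 ≤ dl := (v.nonneg _).trans ha
  have h1 : PN v r s (PowerSeries.expand w hw G) ≤ PN v (r ^ w) s G := PN_expand v hr hw s G
  have h2 : PN v (r ^ w) s G ≤ PN v (l * R₀) s G :=
    PN_mono_radius v (pow_nonneg hr _) hrw s G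
  have hlR : 0 ≤ l * R₀ := mul_nonneg hl hR
  have h3 : PN v (l * R₀) s (G - PowerSeries.C (PowerSeries.constantCoeff G)) ≤ dl * Big := by
    refine (PN_scale v hR hl hl1 s _ ?_).trans ?_
    · rw [map_sub, PowerSeries.constantCoeff_C, sub_self]
    · refine (mul_le_mul_of_nonneg_left ((PA_sub_const (SN_self v) hR s G).trans hG) hl).trans ?_
      exact mul_le_mul_of_nonneg_right hld (zero_le_one.trans hBig1)
  have h4 : PN v (l * R₀) s (PowerSeries.C (PowerSeries.constantCoeff G)) ≤ dl * Big := by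
    rw [PN_C]
    exact ha.trans (le_mul_of_one_le_right hdl0 hBig1)
  have h5 := (SN_PN v hlR s).add_le_cst h3 h4
  rw [sub_add_cancel] at h5
  exact h1.trans (h2.trans h5)

end

end Pool.Agent.Lib.MP_17a322_nt.VDA
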