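import Pool.Agent.Lib.MP_17a322_nt.VDA.LC
import Pool.Agent.Lib.MP_17a322_nt.VDA.LD0
import Pool.Agent.Lib.MP_17a322_nt.VDL.LC
import Pool.Agent.Lib.MP_17a322_nt.VA.LB1

/-!
The local estimate for the value of the auxiliary polynomial, all blocks at once.
-/

universe u

namespace Pool.Agent.Lib.MP_17a322_nt.VDA

open MvPolynomial Height
open Pool.Agent.Lib.MP_17a322_nt.RO
open Pool.Agent.Lib.MP_17a322_nt.VJ
open Pool.Agent.Lib.MP_17a322_nt.VN
open Pool.Agent.Lib.MP_17a322_nt.VA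
open Pool.Agent.Lib.MP_17a322_nt.VDL (BB_nonneg joint_none)

/-- The factor of one block. -/
noncomputable def KJA {K : Type*} [Field K] (E : SC K) {L : Type*} [Field L] [Algebra K L]
    (v : AbsoluteValue L ℝ) (RB : ℝ) (e a₁ n j b : ℕ) (mqv : ℝ) : ℝ :=
  E.k v ^ (a₁ * (b * 4 ^ j)) * (cst v (e + 1) * RB) ^ (a₁ * b) * mqv ^ (n * b)

private theorem LD_num1 {c2 Ek ZR X : ℝ} {n a₁ b f : ℕ} (hf : 1 ≤ f) (hE : 1 ≤ Ek)
    (hZ : 1 ≤ ZR) (hX : 1 ≤ X) (hc0 : 0 ≤ c2) (hc : c2 ≤ Ek) (ha : 2 * n ≤ a₁) :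
    c2 ^ (n * b) * (Ek * X) ^ (n * b) ≤
      Ek ^ (a₁ * (b * f)) * ZR ^ (a₁ * b) * X ^ (n * b) := by
  have hE0 : 0 ≤ Ek := zero_le_one.trans hE
  have hX0 : 0 ≤ X := zero_le_one.trans hX
  have h1 : c2 ^ (n * b) ≤ Ek ^ (n * b) := pow_le_pow_left₀ hc0 hc _
  have h2 : Ek ^ (n * b) * Ek ^ (n * b) ≤ Ek ^ (a₁ * (b * f)) := by
    rw [← pow_add]
    refine pow_le_pow_right₀ hE ?_
    calc n * b + n * b = (2 * n) * b := by ring
      _ ≤ a₁ * (b * f) := Nat.mul_le_mul ha (Nat.le_mul_of_pos_right b hf)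
  have h3 : 1 ≤ ZR ^ (a₁ * b) := one_le_pow₀ hZ
  calc c2 ^ (n * b) * (Ek * X) ^ (n * b) ≤ Ek ^ (n * b) * (Ek * X) ^ (n * b) :=
        mul_le_mul_of_nonneg_right h1 (by positivity)
    _ = (Ek ^ (n * b) * Ek ^ (n * b)) * 1 * X ^ (n * b) := by
        rw [mul_pow]
        ring
    _ ≤ _ := by
        refine mul_le_mul_of_nonneg_right ?_ (by positivity)
        exact mul_le_mul h2 h3 zero_le_one (by positivity)

private theorem LD_num2 {Ek1 kk Ek Z RB X c2 : ℝ} {a a₁ D n b f : ℕ} (hf : 1 ≤ f)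
    (hEk1 : 0 ≤ Ek1) (hkk1 : 1 ≤ kk) (hEk : 1 ≤ Ek) (hEE : Ek1 * kk ≤ Ek) (hkE : kk ≤ Ek)
    (hZ1 : 1 ≤ Z) (hRB1 : 1 ≤ RB) (hX1 : 1 ≤ X) (hc20 : 0 ≤ c2) (hc2 : c2 ≤ kk)
    (ha₁ : (2 * D + 2) * a ≤ a₁) :
    (Ek1 * kk) ^ (a * (b * f)) * (Z * RB * (c2 * RB * (kk * kk) ^ D)) ^ (a * b) *
      X ^ (n * b) ≤ Ek ^ (a₁ * (b * f)) * (Z * RB) ^ (a₁ * b) * X ^ (n * b) := by
  have hkk0 : 0 ≤ kk := zero_le_one.trans hkk1
  have hEk0 : 0 ≤ Ek := zero_le_one.trans hEk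
  have hZ0 : 0 ≤ Z := zero_le_one.trans hZ1
  have hRB0 : 0 ≤ RB := zero_le_one.trans hRB1
  have hX0 : 0 ≤ X := zero_le_one.trans hX1
  have hZR : 1 ≤ Z * RB := one_le_mul_of_one_le_of_one_le hZ1 hRB1
  have hbf : b ≤ b * f := Nat.le_mul_of_pos_right b hf
  have h7 : (Z * RB * (c2 * RB * (kk * kk) ^ D)) ^ (a * b) ≤
      (Z * RB) ^ (2 * (a * b)) * kk ^ ((2 * D + 1) * (a * b)) := by
    have h8 : Z * RB * (c2 * RB * (kk * kk) ^ D) ≤ (Z * RB) ^ 2 * kk ^ (2 * D + 1) := by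
      have h9 : c2 * RB * (kk * kk) ^ D ≤ Z * RB * kk ^ (2 * D + 1) := by
        have h10 : c2 ≤ Z * kk := by
          calc c2 ≤ kk := hc2
            _ = 1 * kk := (one_mul _).symm
            _ ≤ Z * kk := mul_le_mul_of_nonneg_right hZ1 hkk0
        have h11 : (kk * kk) ^ D = kk ^ (2 * D) := by
          rw [← pow_two, ← pow_mul]
        calc c2 * RB * (kk * kk) ^ D = c2 * (RB * kk ^ (2 * D)) := by
              rw [h11]
              ring
          _ ≤ Z * kk * (RB * kk ^ (2 * D)) := mul_le_mul_of_nonneg_right h10 (by positivity)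
          _ = Z * RB * kk ^ (2 * D + 1) := by
            rw [pow_succ]
            ring
      calc Z * RB * (c2 * RB * (kk * kk) ^ D) ≤ Z * RB * (Z * RB * kk ^ (2 * D + 1)) :=
            mul_le_mul_of_nonneg_left h9 (by positivity)
        _ = _ := by ring
    have h9 : 0 ≤ Z * RB * (c2 * RB * (kk * kk) ^ D) := by positivity
    refine (pow_le_pow_left₀ h9 h8 _).trans (le_of_eq ?_)
    rw [mul_pow, ← pow_mul, ← pow_mul]
  have h8 : (Ek1 * kk) ^ (a * (b * f)) * kk ^ ((2 * D + 1) * (a * b)) ≤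
      Ek ^ (a₁ * (b * f)) := by
    have h9 : (Ek1 * kk) ^ (a * (b * f)) ≤ Ek ^ (a * (b * f)) :=
      pow_le_pow_left₀ (mul_nonneg hEk1 hkk0) hEE _
    have h10 : kk ^ ((2 * D + 1) * (a * b)) ≤ Ek ^ ((2 * D + 1) * (a * (b * f))) := by
      refine (pow_le_pow_left₀ hkk0 hkE _).trans (pow_le_pow_right₀ hEk ?_)
      exact Nat.mul_le_mul_left _ (Nat.mul_le_mul_left _ hbf)
    refine (mul_le_mul h9 h10 (by positivity) (by positivity)).trans ?_
    rw [← pow_add]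
    refine pow_le_pow_right₀ hEk ?_
    calc a * (b * f) + (2 * D + 1) * (a * (b * f)) = ((2 * D + 2) * a) * (b * f) := by ring
      _ ≤ a₁ * (b * f) := Nat.mul_le_mul_right _ ha₁
  have h9 : (Z * RB) ^ (2 * (a * b)) ≤ (Z * RB) ^ (a₁ * b) := by
    refine pow_le_pow_right₀ hZR ?_
    calc 2 * (a * b) = (2 * a) * b := by ring
      _ ≤ a₁ * b := by
        refine Nat.mul_le_mul_right _ (le_trans ?_ ha₁)
        refine Nat.mul_le_mul_right _ ?_
        omega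
  have hp1 : 0 ≤ (Ek1 * kk) ^ (a * (b * f)) := pow_nonneg (mul_nonneg hEk1 hkk0) _
  calc (Ek1 * kk) ^ (a * (b * f)) * (Z * RB * (c2 * RB * (kk * kk) ^ D)) ^ (a * b) *
        X ^ (n * b) ≤
      (Ek1 * kk) ^ (a * (b * f)) *
        ((Z * RB) ^ (2 * (a * b)) * kk ^ ((2 * D + 1) * (a * b))) * X ^ (n * b) := by
        gcongr
    _ = ((Ek1 * kk) ^ (a * (b * f)) * kk ^ ((2 * D + 1) * (a * b))) *
          (Z * RB) ^ (2 * (a * b)) * X ^ (n * b) := by ring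
    _ ≤ _ := by gcongr

private theorem LD_c2 {K : Type u} [Field K] {N : ℕ} (A : AV K N) {L : Type u} [Field L]
    [Algebra K L] {τ : Type} (j : ℕ) (x0 : Fin (N + 1) → L) :
    c2 L τ (A.mu j x0) = A.mu j fun i => algebraMap L (D2 L τ) (x0 i) := by
  funext i
  have h1 := A.map_mu (IsScalarTower.toAlgHom K L (D2 L τ)) j x0 i
  exact h1

private theorem LD_EA {K : Type u} [Field K] {N : ℕ} (A : AV K N) {n : ℕ}
    (l : Fin (n + 1) → Fin (N + 1) → K) {L : Type u} [Field L]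
    [Algebra K L] {τ : Type} (j : ℕ) (a : Fin (N + 1)) (x0 : Fin (N + 1) → L)
    (y : Fin (N + 1) → D2 L τ) (t : Fin (n + 1)) :
    EA A l j a (fun i => algebraMap L (PowerSeries L) (x0 i)) (fun i => HZ K L τ (y i)) t =
      HZ K L τ (lf (l t) (A.col a y (c2 L τ (A.mu j x0)))) := by
  rw [LD_c2]
  have h1 : lf (l t) (A.col a y (A.mu j fun i => algebraMap L (D2 L τ) (x0 i))) =
      EA A l j a (fun i => algebraMap L (D2 L τ) (x0 i)) y t := rfl
  rw [h1, map_EA A l (HZ K L τ)]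
  congr 1
  funext i
  exact (HZ_algebraMap (x0 i)).symm

/-- The value of one polynomial at the path. -/
private theorem LD_z {K : Type u} [Field K] {N n : ℕ} (l : Fin (n + 1) → Fin (N + 1) → K)
    (D : ℕ) {L : Type u} [Field L] [Algebra K L] (v : AbsoluteValue L ℝ) {τ : Type} {j : ℕ}
    (y₀ : Fin (N + 1) → L) (y : Fin (N + 1) → D2 L τ)
    (hyE : ∀ b, y b ∈ Set.range (Exp L τ (4 ^ j) (pow_ne_zero j four_ne_zero)))
    (hyc : ∀ b, c00 (y b) = C (y₀ b)) {kk RB dl rho lam r : ℝ} (hkk1 : 1 ≤ kk) (hRB1 : 1 ≤ RB)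
    (hrho : 0 ≤ rho) (hdl0 : 0 < dl) (hdl1 : dl ≤ 1) (hlam0 : 0 < lam)
    (hlamd : lam ≤ dl * (1 / kk)) (hr0 : 0 ≤ r) (hrl : r ^ (4 ^ j) ≤ lam * rho) (N' : ℕ)
    (hlf : ∀ r₀ : ℝ, 0 ≤ r₀ → r₀ ^ 4 ^ j = rho / kk → ∀ t : Fin n,
      n2 v r₀ (1 / kk) N' 0 (lf (l t.succ) y) ≤ kk * kk)
    (z : MvPolynomial (Fin n) K) (hzD : z.totalDegree ≤ D)
    (hzR : NV v (MvPolynomial.map (algebraMap K L) z) ≤ RB)
    (hzv : v (aeval (fun t : Fin n => lf (l t.succ) y₀) z) ≤ dl) :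
    n2 v r lam N' 0 (aeval (fun t : Fin n => lf (l t.succ) y) z) ≤
      (cst v 2 * RB * (kk * kk) ^ D) * dl := by
  have hkk0 : 0 < kk := one_pos.trans_le hkk1
  obtain ⟨r₀, hr₀d⟩ : ∃ r₀ : ℝ, r₀ = (rho / kk) ^ (((4 ^ j : ℕ) : ℝ)⁻¹) := ⟨_, rfl⟩
  have hrk0 : 0 ≤ rho / kk := div_nonneg hrho hkk0.le
  have hr₀0 : 0 ≤ r₀ := by rw [hr₀d]; exact Real.rpow_nonneg hrk0 _
  have hr₀w : r₀ ^ 4 ^ j = rho / kk := by
    rw [hr₀d]
    exact Real.rpow_inv_natCast_pow hrk0 (pow_ne_zero j four_ne_zero)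
  have hκ0 : 0 ≤ 1 / kk := div_nonneg zero_le_one hkk0.le
  obtain ⟨f, hf⟩ : ∃ f : D2 L τ, f = aeval (fun t : Fin n => lf (l t.succ) y) z := ⟨_, rfl⟩
  rw [← hf]
  have hfE : f ∈ Set.range (Exp L τ (4 ^ j) (pow_ne_zero j four_ne_zero)) := by
    rw [hf]
    exact Exp_aeval _ _ z _ fun t => Exp_lf _ _ _ _ hyE
  have hfc : c00 f = C (aeval (fun t : Fin n => lf (l t.succ) y₀) z) := by
    rw [hf]
    exact c00_aeval z _ _ fun t => c00_lf _ _ _ hyc
  have hSN' : SN v (fun f : D2 L τ => n2 v r lam N' 0 f) := SN_n2 v hr0 hlam0.le N' 0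
  have h3 : n2 v r₀ (1 / kk) N' 0 f ≤ RB * (kk * kk) ^ D := by
    have hSN2 : SN v (fun f : D2 L τ => n2 v r₀ (1 / kk) N' 0 f) := SN_n2 v hr₀0 hκ0 N' 0
    have h5 := SN_aeval_pow hSN2 z (D := D) (fun m hm => by
      refine le_trans ?_ ((le_totalDegree hm).trans hzD)
      rw [Finsupp.sum_fintype _ _ (fun _ => rfl)]) (fun t : Fin n => lf (l t.succ) y)
      (one_le_mul_of_one_le_of_one_le hkk1 hkk1) (hlf r₀ hr₀0 hr₀w)
    rw [hf]
    exact h5.trans (mul_le_mul_of_nonneg_right hzR (by positivity))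
  obtain ⟨g, hg⟩ : ∃ g : D2 L τ, g = f - PowerSeries.C (PowerSeries.C (c00 f)) := ⟨_, rfl⟩
  have hgE : g ∈ Set.range (Exp L τ (4 ^ j) (pow_ne_zero j four_ne_zero)) := by
    obtain ⟨f', hf'⟩ := hfE
    refine ⟨f' - algebraMap L (D2 L τ) (aeval (fun t : Fin n => lf (l t.succ) y₀) z), ?_⟩
    rw [map_sub, hf', Exp_alg, hg, hfc, algebraMap_D2]
  have hg0 : c00 g = 0 := by
    rw [hg]
    unfold c00
    rw [map_sub, map_sub, PowerSeries.constantCoeff_C, PowerSeries.constantCoeff_C,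
      sub_self]
  have h5 : n2 v r lam N' 0 g ≤ dl * (RB * (kk * kk) ^ D) := by
    refine (n2_scale_w v (pow_ne_zero j four_ne_zero) hr0 hlam0.le hr₀0 hdl0.le hdl1 ?_ hlamd
      hκ0 N' 0 g hgE hg0).trans (mul_le_mul_of_nonneg_left ?_ hdl0.le)
    · rw [hr₀w]
      refine hrl.trans ((mul_le_mul_of_nonneg_right hlamd hrho).trans (le_of_eq ?_))
      ring
    · rw [hg]
      exact (n2_sub_const v hr₀0 hκ0 N' 0 f).trans h3
  have h6 : n2 v r lam N' 0 (PowerSeries.C (PowerSeries.C (c00 f))) ≤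
      dl * (RB * (kk * kk) ^ D) := by
    rw [n2_C v hr0, n1_C, hfc, NV_C]
    refine hzv.trans ?_
    exact le_mul_of_one_le_right hdl0.le
      (one_le_mul_of_one_le_of_one_le hRB1
        (one_le_pow₀ (one_le_mul_of_one_le_of_one_le hkk1 hkk1)))
  have h7 := hSN'.add_le_cst h5 h6
  rw [hg, sub_add_cancel] at h7
  refine h7.trans (le_of_eq ?_)
  ring

/-- The local estimate. -/
theorem exists_joint_localA {K : Type u} [Field K] {N : ℕ} {A : AV K N} {k e₀ : ℕ}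
    (nd : Noe A (k + 1) e₀) (κ E₀ : SC K) (D : ℕ) :
    ∃ (E : SC K) (a₁ : ℕ), ∀ {L : Type u} [Field L] [Algebra K L] (v : AbsoluteValue L ℝ)
      {τ : Type} {e m : ℕ} (ρ : Fin m → REP K (k + 1) e), (∀ i, (ρ i).Deg D) →
      ∀ {j b : Fin m → ℕ} {T : ℕ}, (∀ i, 1 ≤ b i) →
      ∀ (x0 : Fin (N + 1) → L), A.IsPt x0 → lf (nd.l 0) x0 = 1 →
      ∀ (y₀ : Fin m → Fin (N + 1) → L) (q : Fin m → Fin (k + 1) → L)
        (y : Fin m → Fin (N + 1) → D2 L τ) (ξ : Fin m → Fin (k + 1) → D2 L τ)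
        {rho : Fin m → ℝ}, (∀ i, 0 ≤ rho i) → (∀ i, A.IsPt (y i)) →
      (∀ i, lf (nd.l 0) (y i) = 1) →
      (∀ i b, y i b ∈ Set.range (Exp L τ (4 ^ j i) (pow_ne_zero (j i) four_ne_zero))) →
      (∀ i b, c00 (y i b) = C (y₀ i b)) →
      (∀ i, PKG nd κ E₀ (4 ^ j i) v (y₀ i) (A.mu (j i) x0) (q i) (y i) (ξ i) (rho i)) →
      ∀ (Φ : (Fin m → Fin (k + 1) → ℕ) → PowerSeries L), ORJA nd ρ j b T Φ x0 →
      ∀ {r : ℝ}, 0 ≤ r → ∀ (N' : ℕ) {Bd : ℝ},
      (∀ ν ∈ BB (fun i => b i + 1), PN v r N' (Φ ν) ≤ Bd) →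
      ∀ {del : ℝ}, 0 < del → del ≤ 1 → (del = 1 ∨ ((∀ i b, v (y₀ i b) ≤ κ.k v) ∧
        ∀ i, v (aeval (fun t : Fin (k + 1) => lf (nd.l t.succ) (y₀ i)) ((ρ i).z 0)) ≤
          del ^ (4 ^ j i))) →
      (∀ i, r ^ (4 ^ j i) * (E.k v * mq v (q i)) ≤ del ^ (4 ^ j i) * rho i) →
      PN v r N' (∑ ν ∈ BB (fun i => b i + 1),
        Φ ν * ∏ i, ∏ t, HZ K L τ (ξ i t) ^ ν i t) ≤
        Bd * (∏ i, KJA E v (((ρ i).map (algebraMap K L)).RB v) e a₁ (k + 1) (j i) (b i)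
          (mq v (q i))) * del ^ T := by
  classical
  obtain ⟨E₁, a, hgain⟩ := exists_joint_gainA nd D
  obtain ⟨κm, hκm'⟩ := A.mu_bd
  have hκm : ∀ (L : Type u) [Field L] [Algebra K L] (v : AbsoluteValue L ℝ)
      (y : Fin (N + 1) → L), A.IsPt y → ∀ j : ℕ,
        vm v y ^ 4 ^ j ≤ κm.k v ^ (4 ^ j - 1) * vm v (A.mu j y) :=
    fun L _ _ v y hy j => (hκm' L v j y).2 hy
  obtain ⟨F, hF⟩ := exists_lf_le nd.l
  obtain ⟨C2, hC2⟩ := (Adm_cst.{u, u} (K := K) 2).exists_SC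
  obtain ⟨E₂, hE₂⟩ : ∃ E₂ : SC K, E₂ = ((E₀.mul κm).mul F).mul C2 := ⟨_, rfl⟩
  refine ⟨E₁.mul E₂, (2 * D + 2) * a + 2 * (k + 1), ?_⟩
  intro L _ _ v τ e m ρ hD j b T hb x0 hx0 hx01 y₀ q y ξ rho hrho hy hy1 hyE hyc hPKG Φ hO r hr0
    N' Bd hBd del hdel0 hdel1 hdel hr
  -- constants
  obtain ⟨kk, hkk⟩ : ∃ kk : ℝ, kk = E₂.k v := ⟨_, rfl⟩
  obtain ⟨Ek, hEk⟩ : ∃ Ek : ℝ, Ek = (E₁.mul E₂).k v := ⟨_, rfl⟩
  obtain ⟨X, hX⟩ : ∃ X : Fin m → ℝ, X = fun i => mq v (q i) := ⟨_, rfl⟩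
  have hXi : ∀ i, mq v (q i) = X i := fun i => by rw [hX]
  obtain ⟨RB, hRB⟩ : ∃ RB : Fin m → ℝ, RB = fun i => ((ρ i).map (algebraMap K L)).RB v :=
    ⟨_, rfl⟩
  have hRBi : ∀ i, ((ρ i).map (algebraMap K L)).RB v = RB i := fun i => by rw [hRB]
  obtain ⟨Z, hZ⟩ : ∃ Z : ℝ, Z = cst v (e + 1) := ⟨_, rfl⟩
  have hkk1 : 1 ≤ kk := by rw [hkk]; exact E₂.one_le v
  have hkk0 : 0 < kk := one_pos.trans_le hkk1
  have hEk1 : 1 ≤ Ek := by rw [hEk]; exact SC.one_le _ v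
  have hEk0 : 0 < Ek := one_pos.trans_le hEk1
  have hEE : E₁.k v * kk ≤ Ek := by rw [hEk, hkk]; exact E₁.mul_le E₂ v
  have hkE : kk ≤ Ek := by rw [hEk, hkk]; exact E₁.le_mul_right E₂ v
  have hX1 : ∀ i, 1 ≤ X i := fun i => by rw [hX]; exact one_le_mqB v _
  have hX0 : ∀ i, 0 < X i := fun i => one_pos.trans_le (hX1 i)
  have hRB1 : ∀ i, 1 ≤ RB i := fun i => by rw [hRB]; exact one_le_RB _ v
  have hZ1 : 1 ≤ Z := by rw [hZ]; exact one_le_cst v (Nat.le_add_left _ _)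
  have h3a : (E₀.mul κm).k v ≤ ((E₀.mul κm).mul F).k v := SC.le_mul_left _ _ v
  have h3b : ((E₀.mul κm).mul F).k v ≤ E₂.k v := by rw [hE₂]; exact SC.le_mul_left _ _ v
  have hE₀k : E₀.k v ≤ kk := by
    rw [hkk]
    exact ((E₀.le_mul_left κm v).trans h3a).trans h3b
  have hFk : F.k v ≤ kk := by
    rw [hkk]
    exact ((E₀.mul κm).le_mul_right F v).trans h3b
  have hκF : κm.k v * F.k v ≤ kk := by
    rw [hkk]
    refine le_trans ?_ (((E₀.mul κm).mul_le F v).trans h3b)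
    exact mul_le_mul_of_nonneg_right (E₀.le_mul_right κm v) (F.pos v).le
  have hc2 : cst v 2 ≤ kk := by
    rw [hkk, hE₂]
    exact (hC2 L v).trans (SC.le_mul_right _ C2 v)
  have hc20 : 0 ≤ cst v 2 := cst_nonneg v 2
  have hc21 : 1 ≤ cst v 2 := one_le_cst v (by norm_num)
  have hkkX : ∀ i, 0 < Ek * X i := fun i => mul_pos hEk0 (hX0 i)
  have hEX1 : ∀ i, 1 ≤ Ek * X i := fun i => one_le_mul_of_one_le_of_one_le hEk1 (hX1 i)
  unfold KJA
  simp only [hXi, hRBi, ← hZ, ← hEk] at hr ⊢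
  have hBd0 : 0 ≤ Bd := BB_nonneg (fun a => (SN_PN v hr0 N').nonneg a) Φ hBd
  have h4j : ∀ i, 1 ≤ 4 ^ j i := fun i => Nat.one_le_pow _ _ (by norm_num)
  have hSN := SN_PN v hr0 N'
  obtain ⟨SM, hSM⟩ : ∃ SM : PowerSeries L, SM = ∑ ν ∈ BB (fun i => b i + 1),
      Φ ν * ∏ i, ∏ t, HZ K L τ (ξ i t) ^ ν i t := ⟨_, rfl⟩
  rw [← hSM]
  obtain ⟨a₁, ha₁⟩ : ∃ a₁ : ℕ, a₁ = (2 * D + 2) * a + 2 * (k + 1) := ⟨_, rfl⟩
  rw [← ha₁]
  have ha2 : 2 * (k + 1) ≤ a₁ := by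
    rw [ha₁]
    exact Nat.le_add_left _ _
  have ha3 : (2 * D + 2) * a ≤ a₁ := by
    rw [ha₁]
    exact Nat.le_add_right _ _
  have hdp0 : ∀ i, 0 < del ^ (4 ^ j i) := fun i => pow_pos hdel0 _
  have hdp1 : ∀ i, del ^ (4 ^ j i) ≤ 1 := fun i => pow_le_one₀ hdel0.le hdel1
  obtain ⟨lam, hlam⟩ : ∃ lam : Fin m → ℝ, lam = fun i => del ^ (4 ^ j i) / (Ek * X i) :=
    ⟨_, rfl⟩
  have hlami : ∀ i, lam i = del ^ (4 ^ j i) / (Ek * X i) := fun i => by rw [hlam]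
  have hlam0 : ∀ i, 0 < lam i := fun i => by
    rw [hlami]
    exact div_pos (hdp0 i) (hkkX i)
  have hlamk : ∀ i, lam i * (Ek * X i) = del ^ (4 ^ j i) := fun i => by
    rw [hlami]
    exact div_mul_cancel₀ _ (hkkX i).ne'
  have hlamt : ∀ i, lam i * (E₀.k v * mq v (q i)) ≤ 1 := by
    intro i
    refine le_trans ?_ (hdp1 i)
    refine le_of_le_of_eq ?_ (hlamk i)
    rw [← hXi]
    apply mul_le_mul_of_nonneg_left _ (hlam0 i).le
    exact mul_le_mul_of_nonneg_right (hE₀k.trans hkE) (mq_posB v _).le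
  have hrl : ∀ i, r ^ (4 ^ j i) ≤ lam i * rho i := by
    intro i
    rw [hlami, div_mul_eq_mul_div, le_div_iff₀ (hkkX i)]
    exact hr i
  by_cases hcase : del = 1
  · -- case 1
    have hdT : del ^ T = 1 := by rw [hcase, one_pow]
    rw [hdT, mul_one]
    have hxi : ∀ i t, PN v r N' (HZ K L τ (ξ i t)) ≤ Ek * X i := by
      intro i t
      refine (PN_HZ v hr0 (hlam0 i).le N' _).trans ?_
      refine (((hPKG i).2 (lam i) (hlam0 i).le (hlamt i) r hr0 (hrl i)).1 t N' 0).trans ?_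
      rw [← hXi]
      exact mul_le_mul_of_nonneg_right (hE₀k.trans hkE) (mq_posB v _).le
    have h1 := joint_none hSN b Φ (fun i t => HZ K L τ (ξ i t)) hBd
    rw [← hSM] at h1
    refine h1.trans (mul_le_mul_of_nonneg_left ?_ hBd0)
    refine Finset.prod_le_prod (fun i _ => ?_) fun i _ => ?_
    · exact mul_nonneg (pow_nonneg hc20 _) (Finset.prod_nonneg fun t _ => by positivity)
    · have h3 : ∏ t, max 1 (PN v r N' (HZ K L τ (ξ i t))) ^ b i ≤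
          (Ek * X i) ^ ((k + 1) * b i) := by
        have h4 : ∏ t, max 1 (PN v r N' (HZ K L τ (ξ i t))) ^ b i ≤
            ∏ _t : Fin (k + 1), (Ek * X i) ^ b i := by
          refine Finset.prod_le_prod (fun t _ => by positivity) fun t _ => ?_
          exact pow_le_pow_left₀ (by positivity) (max_le (hEX1 i) (hxi i t)) (b i)
        refine h4.trans (le_of_eq ?_)
        rw [Finset.prod_const, Finset.card_univ, Fintype.card_fin, ← pow_mul, mul_comm (b i)]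
      refine (mul_le_mul_of_nonneg_left h3 (pow_nonneg hc20 _)).trans ?_
      exact LD_num1 (h4j i) hEk1 (one_le_mul_of_one_le_of_one_le hZ1 (hRB1 i)) (hX1 i) hc20
        (hc2.trans hkE) ha2
  · -- case 2
    obtain ⟨hch, hz0⟩ := hdel.resolve_left hcase
    have hlamt' : ∀ i, lam i * E₀.k v ≤ 1 := by
      intro i
      refine le_trans ?_ (hlamt i)
      apply mul_le_mul_of_nonneg_left _ (hlam0 i).le
      exact le_mul_of_one_le_right (E₀.pos v).le (one_le_mqB v _)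
    have hlamd : ∀ i, lam i ≤ del ^ (4 ^ j i) * (1 / kk) := by
      intro i
      rw [hlami, div_eq_mul_one_div]
      refine mul_le_mul_of_nonneg_left ?_ (hdp0 i).le
      refine one_div_le_one_div_of_le hkk0 (hkE.trans ?_)
      exact le_mul_of_one_le_right hEk0.le (hX1 i)
    have hex := fun i => ((hPKG i).2 (lam i) (hlam0 i).le (hlamt i) r hr0 (hrl i)).2 (hch i)
    choose c d hd0 hdξ hdn using hex
    have hx0ne : x0 ≠ 0 := by
      intro h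
      rw [h] at hx01
      unfold lf at hx01
      simp only [Pi.zero_apply, mul_zero, Finset.sum_const_zero] at hx01
      exact zero_ne_one hx01
    have hMpos : ∀ i, 0 < vm v (A.mu (j i) x0) := by
      intro i
      obtain ⟨Q, hQ⟩ := AV.exists_rep hx0ne hx0
      exact vm_pos v (hQ.mu (j i)).ne_zero
    have hx0vm : ∀ i, max 1 (vm v x0) ^ 4 ^ j i ≤ kk ^ 4 ^ j i * vm v (A.mu (j i) x0) := by
      intro i
      have h1 : 1 ≤ F.k v * vm v x0 := by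
        have h2 := hF (SN_self v) 0 x0 (vm v x0) (vm_nonneg v x0) fun i => le_vm v x0 i
        have h2' : v (lf (nd.l 0) x0) ≤ F.k v * vm v x0 := h2
        rw [hx01, map_one] at h2'
        exact h2'
      have h3 : max 1 (vm v x0) ≤ F.k v * vm v x0 :=
        max_le h1 (le_mul_of_one_le_left (vm_nonneg v x0) (F.one_le v))
      calc max 1 (vm v x0) ^ 4 ^ j i ≤ (F.k v * vm v x0) ^ 4 ^ j i :=
            pow_le_pow_left₀ (by positivity) h3 _
        _ = F.k v ^ 4 ^ j i * vm v x0 ^ 4 ^ j i := mul_pow _ _ _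
        _ ≤ F.k v ^ 4 ^ j i * (κm.k v ^ 4 ^ j i * vm v (A.mu (j i) x0)) := by
            refine mul_le_mul_of_nonneg_left ?_ (pow_nonneg (F.pos v).le _)
            refine (hκm L v x0 hx0 (j i)).trans (mul_le_mul_of_nonneg_right ?_ (hMpos i).le)
            exact pow_le_pow_right₀ (κm.one_le v) (Nat.sub_le _ _)
        _ = (κm.k v * F.k v) ^ 4 ^ j i * vm v (A.mu (j i) x0) := by
            rw [mul_pow]
            ring
        _ ≤ kk ^ 4 ^ j i * vm v (A.mu (j i) x0) := by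
            refine mul_le_mul_of_nonneg_right ?_ (hMpos i).le
            exact pow_le_pow_left₀ (mul_nonneg (κm.pos v).le (F.pos v).le) hκF _
    have hrk : ∀ i, r ^ 4 ^ j i * E₀.k v ≤ rho i := by
      intro i
      calc r ^ 4 ^ j i * E₀.k v ≤ lam i * rho i * E₀.k v :=
            mul_le_mul_of_nonneg_right (hrl i) (E₀.pos v).le
        _ = lam i * E₀.k v * rho i := by ring
        _ ≤ 1 * rho i := mul_le_mul_of_nonneg_right (hlamt' i) (hrho i)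
        _ = rho i := one_mul _
    have hy' : ∀ i t, PN v r N' (HZ K L τ (y i t)) ≤ kk := by
      intro i t
      refine (PN_HZ v hr0 (hlam0 i).le N' _).trans (le_trans ?_ hE₀k)
      exact (hPKG i).1 (hch i) r (lam i) hr0 (hrk i) (hlam0 i).le (hlamt' i) t N' 0
    -- the values of the centre
    have hκ1 : ∀ i, 1 ≤ cst v 2 * RB i * (kk * kk) ^ D := fun i =>
      one_le_mul_of_one_le_of_one_le (one_le_mul_of_one_le_of_one_le hc21 (hRB1 i))
        (one_le_pow₀ (one_le_mul_of_one_le_of_one_le hkk1 hkk1))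
    have hzc : ∀ i, PN v r N' (aeval (fun t : Fin (k + 1) =>
        lf (nd.l t.succ) (fun a => HZ K L τ (y i a))) ((ρ i).z 0)) ≤
        (cst v 2 * RB i * (kk * kk) ^ D) * del ^ (4 ^ j i) := by
      intro i
      have e1 : aeval (fun t : Fin (k + 1) => lf (nd.l t.succ) (fun a => HZ K L τ (y i a)))
          ((ρ i).z 0) = HZ K L τ (aeval (fun t : Fin (k + 1) => lf (nd.l t.succ) (y i))
            ((ρ i).z 0)) := by
        have h2 := MvPolynomial.comp_aeval_apply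
          (fun t : Fin (k + 1) => lf (nd.l t.succ) (y i)) (HZ K L τ) ((ρ i).z 0)
        rw [h2]
        congr 2
        funext t
        exact (lf_map (HZ K L τ) (nd.l t.succ) (y i)).symm
      rw [e1]
      refine (PN_HZ v hr0 (hlam0 i).le N' _).trans ?_
      refine LD_z nd.l D v (y₀ i) (y i) (hyE i) (hyc i) hkk1 (hRB1 i) (hrho i) (hdp0 i)
        (hdp1 i) (hlam0 i) (hlamd i) hr0 (hrl i) N' ?_ _ ((hD i).1 0) ?_ (hz0 i)
      · intro r₀ hr₀0 hr₀w t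
        have hκ0 : 0 ≤ 1 / kk := div_nonneg zero_le_one hkk0.le
        have hSN2 : SN v (fun f : D2 L τ => n2 v r₀ (1 / kk) N' 0 f) :=
          SN_n2 v hr₀0 hκ0 N' 0
        refine (hF hSN2 t.succ (y i) kk hkk0.le fun b => ?_).trans
          (mul_le_mul_of_nonneg_right hFk hkk0.le)
        refine le_trans ((hPKG i).1 (hch i) r₀ (1 / kk) hr₀0 ?_ hκ0 ?_ b N' 0) hE₀k
        · rw [hr₀w, div_mul_eq_mul_div, div_le_iff₀ hkk0]
          exact mul_le_mul_of_nonneg_left hE₀k (hrho i)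
        · rw [div_mul_eq_mul_div, one_mul, div_le_iff₀ hkk0, one_mul]
          exact hE₀k
      · rw [hRB]
        exact z_le_RB ((ρ i).map (algebraMap K L)) v 0
    have hmain := hgain hSN ρ hD hb Φ x0 hO hBd hκ1 hdel0 hdel1 hc2 hkk1 hX1 hMpos hx0vm
      (fun i a => HZ K L τ (y i a)) (fun i => (hy i).map (HZ K L τ))
      (fun i => by rw [← lf_map, hy1, map_one]) hy' hzc c (fun i t => HZ K L τ (ξ i t))
      (fun i => HZ K L τ (d i))
      (fun i => by rw [LD_EA, ← map_mul, hd0, map_one])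
      (fun i t => by rw [LD_EA, ← map_mul, hdξ])
      (fun i => by
        refine (PN_HZ v hr0 (hlam0 i).le N' _).trans ((hdn i N' 0).trans ?_)
        rw [← hXi]
        exact div_le_div_of_nonneg_right (mul_le_mul_of_nonneg_right hE₀k (mq_posB v _).le)
          (by positivity))
    rw [← hSM] at hmain
    simp only [hRBi, ← hZ] at hmain
    refine hmain.trans (mul_le_mul_of_nonneg_right (mul_le_mul_of_nonneg_left ?_ hBd0)
      (pow_nonneg hdel0.le _))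
    refine Finset.prod_le_prod (fun i _ => ?_) fun i _ => ?_
    · have h1 := (E₁.pos v).le
      have h2 := zero_le_one.trans (hRB1 i)
      have h3 := zero_le_one.trans hZ1
      have h4 := (hX0 i).le
      positivity
    · exact LD_num2 (h4j i) (E₁.pos v).le hkk1 hEk1 hEE hkE hZ1 (hRB1 i) (hX1 i) hc20 hc2 ha3

end Pool.Agent.Lib.MP_17a322_nt.VDA
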