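import Pool.Agent.Lib.MP_17a322_nt.VA.LAgn

/-!
The joint gain on abelian varieties: finite support, base change, bounds.
-/

universe u

namespace Pool.Agent.Lib.MP_17a322_nt.VDA

open MvPolynomial Height NumberField
open Pool.Agent.Lib.MP_17a322_nt.RO
open Pool.Agent.Lib.MP_17a322_nt.VJ
open Pool.Agent.Lib.MP_17a322_nt.VN
open Pool.Agent.Lib.MP_17a322_nt.VA

/-- The joint gain at one place: all the points (affine coordinates `y i`) are in the chart. -/
noncomputable def gjv {K : Type*} [Field K] (κ : SC K) {L : Type*} [Field L] [Algebra K L]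
    {m : ℕ} {ι : Type*} (j : Fin m → ℕ) (y : Fin m → ι → L) (a : Fin m → L)
    (v : AbsoluteValue L ℝ) : ℝ :=
  open Classical in
  if ∀ i b, v (y i b) ≤ κ.k v then ⨅ i, (- Real.log (min 1 (v (a i)))) / 4 ^ j i else 0

/-- The joint gain: the sum over the places at which all points are in the chart of the minimum of
`- log (min (1, |a i|)) / 4 ^ j i`. -/
noncomputable def gj {K : Type u} [Field K] {N : ℕ} {A : AV K N} {n e : ℕ} (nd : Noe A n e)
    (κ : SC K) {L : Type u} [Field L] [Algebra K L] [AdmissibleAbsValues L] {m : ℕ}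
    (j : Fin m → ℕ) (P : Fin m → A.Pts L) (a : Fin m → L) : ℝ :=
  open Classical in
  gs fun v : AbsoluteValue L ℝ =>
    if ∀ i, nd.In κ v (P i) then ⨅ i, (- Real.log (min 1 (v (a i)))) / 4 ^ j i else 0

section

variable {K : Type*} [Field K] (κ : SC K) {L : Type*} [Field L] [Algebra K L] {m : ℕ}
  {ι : Type*} (j : Fin m → ℕ) (y : Fin m → ι → L) (a : Fin m → L)

omit [Algebra K L] in
private theorem LE_core (v : AbsoluteValue L ℝ) (a : L) : 0 ≤ - Real.log (min 1 (v a)) := by
  have h1 : 0 ≤ min 1 (v a) := le_min zero_le_one (v.nonneg _)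
  have h2 := Real.log_nonpos h1 (min_le_left _ _)
  linarith

theorem gjv_nonneg (v : AbsoluteValue L ℝ) : 0 ≤ gjv κ j y a v := by
  unfold gjv
  split_ifs
  · exact Real.iInf_nonneg fun i => div_nonneg (LE_core v (a i)) (by positivity)
  · exact le_rfl

theorem gjv_le (v : AbsoluteValue L ℝ) (i : Fin m) :
    4 ^ j i * gjv κ j y a v ≤ - Real.log (min 1 (v (a i))) := by
  have h4 : (0 : ℝ) < 4 ^ j i := by positivity
  unfold gjv
  split_ifs
  · have h1 : (⨅ i, (- Real.log (min 1 (v (a i)))) / (4 : ℝ) ^ j i) ≤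
        (- Real.log (min 1 (v (a i)))) / 4 ^ j i :=
      ciInf_le (Finite.bddBelow_range _) i
    have h2 := mul_le_mul_of_nonneg_left h1 h4.le
    rwa [mul_div_cancel₀ _ h4.ne'] at h2
  · rw [mul_zero]
    exact LE_core v (a i)

/-- The factor of the joint gain. -/
noncomputable def dj (v : AbsoluteValue L ℝ) : ℝ := Real.exp (- gjv κ j y a v)

theorem dj_pos (v : AbsoluteValue L ℝ) : 0 < dj κ j y a v ∧ dj κ j y a v ≤ 1 := by
  refine ⟨Real.exp_pos _, ?_⟩
  unfold dj
  rw [← Real.exp_zero]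
  refine Real.exp_le_exp.2 ?_
  have := gjv_nonneg κ j y a v
  linarith

theorem log_dj (v : AbsoluteValue L ℝ) : Real.log (dj κ j y a v) = - gjv κ j y a v := by
  unfold dj
  exact Real.log_exp _

theorem dj_cases (ha : ∀ i, a i ≠ 0) (v : AbsoluteValue L ℝ) :
    dj κ j y a v = 1 ∨ ((∀ i b, v (y i b) ≤ κ.k v) ∧
      ∀ i, v (a i) ≤ dj κ j y a v ^ (4 ^ j i)) := by
  by_cases h0 : gjv κ j y a v = 0
  · left
    unfold dj
    rw [h0, neg_zero, Real.exp_zero]
  · right
    have hc : ∀ i b, v (y i b) ≤ κ.k v := by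
      by_contra hc
      apply h0
      unfold gjv
      rw [if_neg hc]
    refine ⟨hc, fun i => ?_⟩
    have h1 := gjv_le κ j y a v i
    have h2 : 0 < gjv κ j y a v := lt_of_le_of_ne (gjv_nonneg κ j y a v) (Ne.symm h0)
    have h3 : (0 : ℝ) < 4 ^ j i * gjv κ j y a v := by positivity
    have hva : 0 < v (a i) := v.pos (ha i)
    have h4 : min 1 (v (a i)) = v (a i) := by
      rcases le_total 1 (v (a i)) with h | h
      · rw [min_eq_left h, Real.log_one, neg_zero] at h1
        linarith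
      · exact min_eq_right h
    rw [h4] at h1
    unfold dj
    rw [← Real.exp_nat_mul, ← Real.exp_log hva]
    refine Real.exp_le_exp.2 ?_
    push_cast
    linarith

theorem gjv_empty {ι : Type*} (j : Fin 0 → ℕ) (y : Fin 0 → ι → L) (a : Fin 0 → L)
    (v : AbsoluteValue L ℝ) : gjv κ j y a v = 0 := by
  unfold gjv
  split_ifs
  · exact Real.iInf_of_isEmpty _
  · rfl

end

theorem FS_gjv {K : Type*} [Field K] (κ : SC K) {L : Type*} [Field L] [Algebra K L]
    [AdmissibleAbsValues L] {m : ℕ} {ι : Type*} (j : Fin m → ℕ) (y : Fin m → ι → L)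
    (a : Fin m → L) (ha : ∀ i, a i ≠ 0) : FS fun v : AbsoluteValue L ℝ => gjv κ j y a v := by
  rcases m with _ | m
  · have h1 : (fun v : AbsoluteValue L ℝ => gjv κ j y a v) = fun _ => 0 := by
      funext v
      exact gjv_empty κ j y a v
    rw [h1]
    unfold FS
    simp
  · have h1 := FS_log_abv (ha 0)
    unfold FS at h1 ⊢
    refine h1.subset fun v hv => ?_
    intro h2
    apply hv
    have h3 : v.val (a 0) = 1 := by
      have h4 : 0 < v.val (a 0) := v.val.pos (ha 0)
      exact Real.eq_one_of_pos_of_log_eq_zero h4 h2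
    have h5 := gjv_le κ j y a v.val 0
    rw [h3, min_self, Real.log_one, neg_zero] at h5
    have h6 := gjv_nonneg κ j y a v.val
    have h7 : (0 : ℝ) < 4 ^ j 0 := by positivity
    show gjv κ j y a v.val = 0
    nlinarith

theorem gs_log_dj {K : Type*} [Field K] (κ : SC K) {L : Type*} [Field L] [NumberField L]
    [Algebra K L] {m : ℕ} {ι : Type*} (j : Fin m → ℕ) (y : Fin m → ι → L) (a : Fin m → L)
    (ha : ∀ i, a i ≠ 0) :
    FS (fun v : AbsoluteValue L ℝ => Real.log (dj κ j y a v)) ∧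
      gs (fun v : AbsoluteValue L ℝ => Real.log (dj κ j y a v)) =
        - gs (fun v : AbsoluteValue L ℝ => gjv κ j y a v) := by
  have e : (fun v : AbsoluteValue L ℝ => Real.log (dj κ j y a v)) =
      fun v : AbsoluteValue L ℝ => (-1 : ℝ) * gjv κ j y a v := by
    funext v
    rw [log_dj, neg_one_mul]
  rw [e]
  refine ⟨FS_const_mul (-1) (FS_gjv κ j y a ha), ?_⟩
  rw [gs_const_mul, neg_one_mul]

private theorem le0_k_arch {K : Type*} [Field K] (κ : SC K) {L : Type*} [Field L] [Algebra K L]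
    (ψ : L →+* ℂ) :
    κ.k (InfinitePlace.mk ψ).val = κ.k (InfinitePlace.mk (ψ.comp (algebraMap K L))).val := by
  unfold SC.k cst
  rw [if_neg (A7_not_nonarch _), if_neg (A7_not_nonarch _)]
  simp only [A7_apply, Algebra.algebraMap_self_apply]

private theorem le0_k_fin {K : Type*} [Field K] (κ : SC K) {L : Type*} [Field L] [Algebra K L]
    (v : AbsoluteValue K ℝ) (w : AbsoluteValue L ℝ) (n : ℕ) (hv : IsNonarchimedean v)
    (hw : IsNonarchimedean w) (h : ∀ x, w (algebraMap K L x) = v x ^ n) :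
    κ.k w = κ.k v ^ n := by
  unfold SC.k cst
  have hp : ∏ a ∈ κ.T, max 1 (w (algebraMap K L a)) =
      (∏ a ∈ κ.T, max 1 (v (algebraMap K K a))) ^ n := by
    rw [← Finset.prod_pow κ.T n (fun a => max 1 (v (algebraMap K K a)))]
    refine Finset.prod_congr rfl fun a _ => ?_
    rw [h, Algebra.algebraMap_self_apply]
    rcases le_total 1 (v a) with h1 | h1
    · rw [max_eq_right h1, max_eq_right (one_le_pow₀ h1)]
    · rw [max_eq_left h1, max_eq_left (pow_le_one₀ (v.nonneg _) h1), one_pow]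
  rw [if_pos hv, if_pos hw, one_mul, one_mul, hp, ← pow_mul, ← pow_mul, mul_comm n]

private theorem le0_k_nonneg {K : Type*} [Field K] (κ : SC K) {L : Type*} [Field L] [Algebra K L]
    (v : AbsoluteValue L ℝ) : 0 ≤ κ.k v := by
  unfold SC.k cst
  refine pow_nonneg (mul_nonneg ?_ (Finset.prod_nonneg fun a _ =>
    le_max_of_le_left zero_le_one)) _
  split_ifs
  · exact zero_le_one
  · exact Nat.cast_nonneg _

theorem gjv_In {K : Type u} [Field K] [NumberField K] {N : ℕ} {A : AV K N} {n e : ℕ}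
    (nd : Noe A n e) (κ : SC K) {m : ℕ} (j : Fin m → ℕ) (P : Fin m → A.Pts K)
    (hP : ∀ i, lf (nd.l 0) (A.x (P i)) ≠ 0) (a : Fin m → K) :
    gj nd κ j P a = gs fun v : AbsoluteValue K ℝ => gjv κ j (fun i => nd.y (P i)) a v := by
  classical
  unfold gj gjv
  congr 1
  funext v
  have hIn : (∀ i, nd.In κ v (P i)) ↔ ∀ i b, v (nd.y (P i) b) ≤ κ.k v := by
    refine forall_congr' fun i => ?_
    unfold Noe.In Noe.y
    refine forall_congr' fun b => ?_
    rw [map_div₀, div_le_iff₀ (v.pos (hP i))]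
  by_cases h : ∀ i, nd.In κ v (P i)
  · rw [if_pos h, if_pos (hIn.1 h)]
  · rw [if_neg h, if_neg (fun h6 => h (hIn.2 h6))]

/-- The joint gain over an extension. -/
theorem gj_map {K : Type u} [Field K] [NumberField K] {N : ℕ} {A : AV K N} {n e : ℕ}
    (nd : Noe A n e) (κ : SC K) {m : ℕ} (j : Fin m → ℕ) (P : Fin m → A.Pts K)
    (hP : ∀ i, lf (nd.l 0) (A.x (P i)) ≠ 0) (a : Fin m → K) (ha : ∀ i, a i ≠ 0)
    (L : Type u) [Field L] [NumberField L] [Algebra K L] :
    gs (fun v : AbsoluteValue L ℝ => gjv κ j (fun i b => algebraMap K L (nd.y (P i) b))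
      (fun i => algebraMap K L (a i)) v) = Module.finrank K L * gj nd κ j P a := by
  classical
  rw [gjv_In nd κ j P hP a]
  refine (gs_bc_fin _ _ (FS_gjv κ j (fun i => nd.y (P i)) a ha) (fun ψ => ?_)
    (fun v w n hn0 hv hw hvw => ?_)).2
  · unfold gjv
    simp only [A7_apply, le0_k_arch κ ψ]
    by_cases h : ∀ i b, (InfinitePlace.mk (ψ.comp (algebraMap K L))).val (nd.y (P i) b) ≤
        κ.k (InfinitePlace.mk (ψ.comp (algebraMap K L))).val
    · rw [if_pos h, if_pos h]
    · rw [if_neg h, if_neg h]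
  · unfold gjv
    simp only [hvw, le0_k_fin κ v w n hv hw hvw]
    have h1 : (∀ i b, v (nd.y (P i) b) ^ n ≤ κ.k v ^ n) ↔ ∀ i b, v (nd.y (P i) b) ≤ κ.k v :=
      forall_congr' fun i => forall_congr' fun b =>
        pow_le_pow_iff_left₀ (v.nonneg _) (le0_k_nonneg κ v) hn0.ne'
    have h2 : ∀ i, (- Real.log (min 1 (v (a i) ^ n))) / (4 : ℝ) ^ j i =
        n * ((- Real.log (min 1 (v (a i)))) / 4 ^ j i) := by
      intro i
      have h3 : min 1 (v (a i) ^ n) = (min 1 (v (a i))) ^ n := by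
        rcases le_total 1 (v (a i)) with h | h
        · rw [min_eq_left h, min_eq_left (one_le_pow₀ h), one_pow]
        · rw [min_eq_right h, min_eq_right (pow_le_one₀ (v.nonneg _) h)]
      rw [h3, Real.log_pow]
      ring
    by_cases h5 : ∀ i b, v (nd.y (P i) b) ≤ κ.k v
    · rw [if_pos h5, if_pos (h1.2 h5), Real.mul_iInf_of_nonneg (Nat.cast_nonneg n)]
      exact iInf_congr h2
    · rw [if_neg h5, if_neg (fun h6 => h5 (h1.1 h6)), mul_zero]

/-- The joint gain is at most the height of each of the values. -/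
theorem gj_le_ht {K : Type u} [Field K] [NumberField K] {N : ℕ} {A : AV K N} {n e : ℕ}
    (nd : Noe A n e) (κ : SC K) {m : ℕ} (j : Fin m → ℕ) (P : Fin m → A.Pts K)
    (hP : ∀ i, lf (nd.l 0) (A.x (P i)) ≠ 0) (a : Fin m → K) (ha : ∀ i, a i ≠ 0) (i : Fin m) :
    4 ^ j i * gj nd κ j P a ≤ logHeight₁ (a i) := by
  rw [gjv_In nd κ j P hP a, ← logHeight₁_inv (a i), ← gs_log_max, ← gs_const_mul]
  refine gs_le (FS_const_mul _ (FS_gjv κ j _ a ha)) (FS_log_max (a i)⁻¹) fun v _ => ?_
  refine (gjv_le κ j _ a v i).trans (le_of_eq ?_)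
  have h0 : 0 < v (a i) := v.pos (ha i)
  have h5 : max 1 (v (a i)⁻¹) = (min 1 (v (a i)))⁻¹ := by
    rw [map_inv₀]
    rcases le_total 1 (v (a i)) with h | h
    · rw [min_eq_left h, inv_one, max_eq_left (inv_le_one_of_one_le₀ h)]
    · rw [min_eq_right h, max_eq_right ((one_le_inv₀ h0).2 h)]
  rw [h5, Real.log_inv]

theorem gj_nonneg {K : Type u} [Field K] [NumberField K] {N : ℕ} {A : AV K N} {n e : ℕ}
    (nd : Noe A n e) (κ : SC K) {m : ℕ} (j : Fin m → ℕ) (P : Fin m → A.Pts K)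
    (hP : ∀ i, lf (nd.l 0) (A.x (P i)) ≠ 0) (a : Fin m → K) : 0 ≤ gj nd κ j P a := by
  rw [gjv_In nd κ j P hP a]
  exact gs_nonneg fun v _ => gjv_nonneg κ j _ a v

end Pool.Agent.Lib.MP_17a322_nt.VDA
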