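import Pool.Agent.Lib.MP_17a322_nt.VDA.LF0
import Pool.Agent.Lib.MP_17a322_nt.VDA.J1
import Pool.Agent.Lib.MP_17a322_nt.VA.LB2

/-!
The joint inequality over `K`.
-/

universe u

namespace Pool.Agent.Lib.MP_17a322_nt.VDA

open MvPolynomial Height
open Pool.Agent.Lib.MP_17a322_nt.RO
open Pool.Agent.Lib.MP_17a322_nt.VJ
open Pool.Agent.Lib.MP_17a322_nt.VN
open Pool.Agent.Lib.MP_17a322_nt.VA

/-- The inequality over `K`. -/
theorem exists_end_jointA {K : Type u} [Field K] [NumberField K] {N : ℕ} {A : AV K N} {k e₀ : ℕ}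
    (nd : Noe A (k + 1) e₀) (rr : Fin 0 → Fin (k + 1)) (κ E₀ : SC K) (c₀ D e m N' : ℕ)
    (hN' : 1 ≤ N') (Cw : ℝ) (hCw : 0 ≤ Cw) :
    ∃ C : ℝ, 0 ≤ C ∧ ∀ (P₀ : A.Pts K) (P : Fin m → A.Pts K) (j : Fin m → ℕ)
      (ρ : Fin m → REP K (k + 1) e) (q' : Fin m → Fin 0 → MvPolynomial (Fin (k + 1)) K)
      (J : ℕ) (F₀ : (Fin (k + 1) → ℕ) → (Fin m → Fin (k + 1) → ℕ) → K) (a : ℕ),
      (∀ i, j i ≤ J) → (∀ i, nd.Good (P i)) → (∀ i, (ρ i).Deg D) → (∀ i, (ρ i).ht ≤ 4 ^ j i) →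
      (∀ i, eval (nd.s (P i)) ((ρ i).z 0) ≠ 0) →
      (∃ a ν, F₀ a ν ≠ 0) →
      (∀ a ν, F₀ a ν ≠ 0 → a ∈ box (fun _ : Fin (k + 1) => N' * 4 ^ J + 1) ∧
        ν ∈ BB (fun i : Fin m => N' * 4 ^ (J - j i) + 1)) → CCJA nd ρ N' J j F₀ →
      ∀ (L : Type u) [Field L] [NumberField L] [Algebra K L] (w : A.Pts L),
      A.h w ≤ Cw * Module.finrank ℚ L →
      lf (nd.l 0) (A.x (A.img (Algebra.ofId K L) P₀ + w)) ≠ 0 →
      (∀ i, lf (nd.l 0) (A.x (A.img (Algebra.ofId K L) (P i) -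
        2 ^ j i • (A.img (Algebra.ofId K L) P₀ + w))) ≠ 0) →
      ∀ (y : Fin m → Fin (N + 1) → D2 L (Fin m × Fin (k + 1)))
        (ξ : Fin m → Fin (k + 1) → D2 L (Fin m × Fin (k + 1))),
      (∀ i, A.IsPt (y i)) → (∀ i, lf (nd.l 0) (y i) = 1) →
      (∀ i b, y i b ∈ Set.range (Exp L (Fin m × Fin (k + 1)) (4 ^ j i)
        (pow_ne_zero (j i) four_ne_zero))) →
      (∀ i b, PowerSeries.constantCoeff (PowerSeries.constantCoeff (y i b)) =
        MvPolynomial.C (algebraMap K L (nd.y (P i) b))) →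
      (∀ i (v : AbsoluteValue L ℝ), (0 < rad nd rr E₀ c₀ (P i) (q' i) v ∧
        rad nd rr E₀ c₀ (P i) (q' i) v ≤ 1) ∧
        PKG nd κ E₀ (4 ^ j i) v (fun b => algebraMap K L (nd.y (P i) b))
          (A.mu (j i) (nd.y (A.img (Algebra.ofId K L) P₀ + w)))
          (nd.s (A.img (Algebra.ofId K L) (P i) - 2 ^ j i • (A.img (Algebra.ofId K L) P₀ + w)))
          (y i) (ξ i) (rad nd rr E₀ c₀ (P i) (q' i) v)) →
      ∀ g : PowerSeries L,
      (∑ ν ∈ BB (fun i : Fin m => N' * 4 ^ (J - j i) + 1), algebraMap L (PowerSeries L)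
        (∑ a ∈ box (fun _ : Fin (k + 1) => N' * 4 ^ J + 1),
          (∏ t, nd.s (A.img (Algebra.ofId K L) P₀ + w) t ^ a t) * algebraMap K L (F₀ a ν)) *
        ∏ i, ∏ t, HZ K L (Fin m × Fin (k + 1)) (ξ i t) ^ ν i t) ∣ g →
      PowerSeries.coeff a g ≠ 0 →
      INEQ C (logHeight (fun p : (box (fun _ : Fin (k + 1) => N' * 4 ^ J + 1)) ×
          (BB (fun i : Fin m => N' * 4 ^ (J - j i) + 1) : Finset (Fin m → Fin (k + 1) → ℕ)) =>
            F₀ p.1 p.2)) (A.h P₀) ((k + 1) * N') J j (fun _ => 0)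
        (fun i => A.h (P i - 2 ^ j i • P₀))
        (fun i => 4 ^ j i * gj nd κ j P fun i => eval (nd.s (P i)) ((ρ i).z 0))
        (fun _ => 0) (fun i => A.h (P i)) a := by
  classical
  obtain ⟨E, a₁, hlocal⟩ := exists_joint_localA nd κ E₀ D
  obtain ⟨Cr, hCr, hrad⟩ := gs_rad nd rr E₀ c₀ D
  obtain ⟨Cq, hCq, hqv⟩ := exists_qv_le nd.l
  obtain ⟨Ch, hCh, hheights⟩ := A.exists_heights
  obtain ⟨Ck, hCk, hgk⟩ := E.gs_log_le
  obtain ⟨dK, hdK⟩ : ∃ dK : ℝ, dK = Module.finrank ℚ K := ⟨_, rfl⟩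
  have hdK0 : 0 ≤ dK := by rw [hdK]; exact Nat.cast_nonneg _
  obtain ⟨C1, hC1⟩ : ∃ C1 : ℝ, C1 = dK * (2 * Cw + 3 * Ch) + Cq * dK := ⟨_, rfl⟩
  have hC10 : 0 ≤ C1 := by rw [hC1]; positivity
  obtain ⟨Ch', hCh'⟩ : ∃ Ch' : ℝ, Ch' = ((k + 1 : ℕ) : ℝ) * C1 + C1 := ⟨_, rfl⟩
  have hCh'0 : 0 ≤ Ch' := by rw [hCh']; positivity
  have hC1Ch : C1 ≤ Ch' := by
    rw [hCh']
    exact le_add_of_nonneg_left (by positivity)
  obtain ⟨Cr', hCr'⟩ : ∃ Cr' : ℝ, Cr' = 1 + D * ((k + 1 : ℕ) : ℝ) * (1 + Cq * dK) +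
    Cr + dK * Cr + dK * Ck + C1 := ⟨_, rfl⟩
  have hCr'0 : 0 ≤ Cr' := by rw [hCr']; positivity
  obtain ⟨C, hC, hconv⟩ := conv_ineqA m (k + 1) N' a₁ dK (Real.log (e + 1)) (dK * Ck) Ch' Cr'
    0 hdK0 (Real.log_nonneg (by
      have : (0 : ℝ) ≤ e := Nat.cast_nonneg e
      linarith)) (mul_nonneg hdK0 hCk) hCh'0 hCr'0 le_rfl
  refine ⟨C, hC, ?_⟩
  intro P₀ P j ρ q' J F₀ a hJ hgood hD hht hz hne hsupp hCC L _ _ _ w
    hw hQ0 hR0 y ξ hy hy1 hyE hyc hP g hfg ha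
  -- notations
  obtain ⟨d, hd⟩ : ∃ d : ℝ, d = Module.finrank K L := ⟨_, rfl⟩
  have hd0 : 0 < d := by
    rw [hd]
    exact_mod_cast Module.finrank_pos
  have hdL : (Module.finrank ℚ L : ℝ) = d * dK := by
    rw [hd, hdK, ← Module.finrank_mul_finrank ℚ K L]
    push_cast
    ring
  obtain ⟨Q', hQ'⟩ : ∃ Q' : A.Pts L, Q' = A.img (Algebra.ofId K L) P₀ + w := ⟨_, rfl⟩
  obtain ⟨R, hR⟩ : ∃ R : Fin m → A.Pts L,
      R = fun i => A.img (Algebra.ofId K L) (P i) - 2 ^ j i • Q' := ⟨_, rfl⟩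
  have hRi : ∀ i, A.img (Algebra.ofId K L) (P i) - 2 ^ j i • Q' = R i := by
    intro i
    rw [hR]
  simp only [← hQ', hRi] at hQ0 hR0 hP hfg
  have hPl0 : ∀ i, lf (nd.l 0) (A.x (P i)) ≠ 0 := fun i => (hgood i).1
  obtain ⟨z0, hz0⟩ : ∃ z0 : Fin m → K, z0 = fun i => eval (nd.s (P i)) ((ρ i).z 0) := ⟨_, rfl⟩
  have hz0i : ∀ i, eval (nd.s (P i)) ((ρ i).z 0) = z0 i := fun i => by rw [hz0]
  have hz0n : ∀ i, z0 i ≠ 0 := fun i => by
    rw [← hz0i]
    exact hz i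
  have hz0L : ∀ i, algebraMap K L (z0 i) ≠ 0 := fun i => (map_ne_zero _).2 (hz0n i)
  obtain ⟨yL, hyL⟩ : ∃ yL : Fin m → Fin (N + 1) → L,
    yL = fun i b => algebraMap K L (nd.y (P i) b) := ⟨_, rfl⟩
  have hyLi : ∀ i, (fun b => algebraMap K L (nd.y (P i) b)) = yL i := fun i => by rw [hyL]
  obtain ⟨rd, hrd⟩ : ∃ rd : Fin m → AbsoluteValue L ℝ → ℝ,
      rd = fun i v => rad nd rr E₀ c₀ (P i) (q' i) v := ⟨_, rfl⟩
  have hrd1 : ∀ i v, 0 < rd i v ∧ rd i v ≤ 1 := by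
    intro i v
    rw [hrd]
    exact (hP i v).1
  have hrd2 : ∀ i, FS (fun v : AbsoluteValue L ℝ => Real.log (rd i v)) ∧
      - gs (fun v : AbsoluteValue L ℝ => Real.log (rd i v)) ≤
        d * (Cr * A.h (P i)) + d * dK * Cr := by
    intro i
    have h1 := hrad (P i) (q' i) (hgood i) (fun b => b.elim0) L
    rw [hdL, ← hd, Finset.sum_of_isEmpty, add_zero] at h1
    rw [hrd]
    exact h1
  have hspec := fun i => rrJ_spec κ j yL (fun i => algebraMap K L (z0 i)) hz0L E (rd i) (hrd1 i)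
    (hrd2 i).1 (nd.s (R i)) i
  have hdjs := gs_log_dj κ j yL (fun i => algebraMap K L (z0 i)) hz0L
  have hgmap : gs (fun v : AbsoluteValue L ℝ => gjv κ j yL (fun i => algebraMap K L (z0 i)) v) =
      d * gj nd κ j P z0 := by
    rw [hyL, hd]
    exact gj_map nd κ j P hPl0 z0 hz0n L
  obtain ⟨gJ, hgJ⟩ : ∃ gJ : ℝ, gJ = gj nd κ j P z0 := ⟨_, rfl⟩
  rw [← hgJ] at hgmap
  rw [hgmap] at hdjs
  simp only [hgmap] at hspec
  -- the product formula
  have hcore := core_joint_ineqA (K := K) (L := L) a₁ E ρ j N' J hJ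
    (fun t : Fin (k + 1) => nd.s Q' t) (fun i => nd.s (R i)) F₀ hne hsupp
    (fun v => dj κ j yL (fun i => algebraMap K L (z0 i)) v)
    (fun v _ => (dj_pos κ j yL _ v).1) hdjs.1
    (fun i v => rrJ κ j yL (fun i => algebraMap K L (z0 i)) E (rd i) (nd.s (R i)) i v)
    (fun v _ i => ⟨((hspec i).1 v).1, ((hspec i).1 v).2.1⟩)
    (fun i => (hspec i).2.1) _ g a hfg ha (by
      intro v _ r hr hrr
      have hO := ORJA_of_CCJA nd (R := PowerSeries L) ρ N' J j F₀ hCC (nd.y Q')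
        (LF_y_isPt nd Q') (LF_lf_y_zero nd Q' hQ0)
      simp only [LF_lf_y_succ] at hO
      refine hlocal v ρ hD (b := fun i => N' * 4 ^ (J - j i)) (fun i => Nat.one_le_iff_ne_zero.2
          (Nat.mul_ne_zero (by omega) (pow_ne_zero _ four_ne_zero))) (nd.y Q')
        (LF_y_isPt nd Q') (LF_lf_y_zero nd Q' hQ0) yL (fun i => nd.s (R i))
        y ξ (rho := fun i => rd i v) (fun i => (hrd1 i v).1.le) hy hy1 hyE
        (fun i b => by rw [hyL]; exact hyc i b)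
        (fun i => by
          rw [hrd, ← hyLi]
          exact (hP i v).2) _ hO hr a
        (fun ν _ => MzA_le N' J j F₀ hne hsupp (fun t => nd.s Q' t) v r a ν)
        (dj_pos κ j yL (fun i => algebraMap K L (z0 i)) v).1
        (dj_pos κ j yL (fun i => algebraMap K L (z0 i)) v).2 ?_ (fun i => ?_)
      · rcases dj_cases κ j yL (fun i => algebraMap K L (z0 i)) hz0L v with h | h
        · exact Or.inl h
        · refine Or.inr ⟨h.1, fun i => ?_⟩
          rw [← hyLi, LF_aeval_map, hz0i]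
          exact h.2 i
      · rw [← ((hspec i).1 v).2.2]
        exact mul_le_mul_of_nonneg_right (hrr i)
            (mul_nonneg (E.pos v).le (mq_posB v _).le))
  -- the bounds
  have hkk : gs (fun v : AbsoluteValue L ℝ => Real.log (E.k v)) ≤ d * (dK * Ck) := by
    refine (hgk L).trans (le_of_eq ?_)
    rw [hdL]
    ring
  have hhts := hheights Cw hCw L w hw P₀
  rw [← hQ', ← hdK, ← hd] at hhts
  have hqvi : ∀ i, logHeight (qv (nd.s (R i))) ≤
      d * (2 * A.h (P i - 2 ^ j i • P₀) + C1 * 4 ^ j i) := by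
    intro i
    have h1 := hqv L (A.x (R i)) (hR0 i)
    have h2 := hhts.2 (P i) (j i)
    have h3 : A.img (Algebra.ofId K L) (P i) - 2 ^ j i • Q' = R i := by rw [hR]
    rw [h3] at h2
    have h4 : (1 : ℝ) ≤ 4 ^ j i := one_le_pow₀ (by norm_num)
    have h5 : Cq * (d * dK) ≤ Cq * (d * dK) * 4 ^ j i :=
      le_mul_of_one_le_right (by positivity) h4
    rw [hdL] at h1
    have h6 : logHeight (A.x (R i)) = A.h (R i) := rfl
    rw [h6] at h1
    have h7 : logHeight (qv (nd.s (R i))) = logHeight (qv fun t : Fin (k + 1) =>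
        lf (nd.l t.succ) (A.x (R i)) / lf (nd.l 0) (A.x (R i))) := rfl
    rw [h7, hC1]
    calc _ ≤ A.h (R i) + Cq * (d * dK) := h1
      _ ≤ d * (2 * A.h (P i - 2 ^ j i • P₀) + dK * (2 * Cw + 3 * Ch) * 4 ^ j i) +
          Cq * (d * dK) * 4 ^ j i := add_le_add h2 h5
      _ = _ := by ring
  have hhx : ∑ t, logHeight₁ (nd.s Q' t) ≤
      d * (2 * ((k + 1 : ℕ) : ℝ) * A.h P₀ + Ch') := by
    have h1 := hqv L (A.x Q') hQ0
    have h2 := hhts.1
    rw [hdL] at h1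
    have h6 : logHeight (A.x Q') = A.h Q' := rfl
    rw [h6] at h1
    have h3 : ∀ t, logHeight₁ (nd.s Q' t) ≤ d * (2 * A.h P₀ + C1) := by
      intro t
      refine (logHeight₁_le_qv (nd.s Q') t).trans (h1.trans ?_)
      rw [hC1]
      have h4 : 0 ≤ d * (dK * (2 * Ch)) := by positivity
      calc A.h Q' + Cq * (d * dK) ≤ d * (2 * A.h P₀ + dK * (2 * Cw + Ch)) + Cq * (d * dK) +
            d * (dK * (2 * Ch)) := by linarith
        _ = _ := by ring
    refine (Finset.sum_le_sum fun t _ => h3 t).trans ?_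
    rw [Finset.sum_const, Finset.card_univ, Fintype.card_fin, nsmul_eq_mul, hCh']
    have h5 : 0 ≤ d * C1 := by positivity
    calc ((k + 1 : ℕ) : ℝ) * (d * (2 * A.h P₀ + C1)) ≤
          ((k + 1 : ℕ) : ℝ) * (d * (2 * A.h P₀ + C1)) + d * C1 := by linarith
      _ = _ := by ring
  have hrri : ∀ i, - gs (fun v => Real.log
      (rrJ κ j yL (fun i => algebraMap K L (z0 i)) E (rd i) (nd.s (R i)) i v)) ≤
      d * (Cr' * (4 ^ j i + A.h (P i)) + 2 * A.h (P i - 2 ^ j i • P₀)) := by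
    intro i
    rw [(hspec i).2.2]
    have h4 : (1 : ℝ) ≤ 4 ^ j i := one_le_pow₀ (by norm_num)
    have hPi0 : 0 ≤ A.h (P i) := AV.h_nonneg (P i)
    have hs : ∀ t, logHeight₁ (nd.s (P i) t) ≤ A.h (P i) + Cq * dK := by
      intro t
      have h1 := hqv K (A.x (P i)) (hPl0 i)
      rw [← hdK] at h1
      exact (logHeight₁_le_qv (nd.s (P i)) t).trans h1
    have hss : ∑ t, logHeight₁ (nd.s (P i) t) ≤ ((k + 1 : ℕ) : ℝ) * (A.h (P i) + Cq * dK) := by
      refine (Finset.sum_le_sum fun t _ => hs t).trans (le_of_eq ?_)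
      rw [Finset.sum_const, Finset.card_univ, Fintype.card_fin, nsmul_eq_mul]
    have hg : 4 ^ j i * (d * gJ) ≤
        d * (4 ^ j i + D * (((k + 1 : ℕ) : ℝ) * (A.h (P i) + Cq * dK))) := by
      have h5 : logHeight₁ (z0 i) ≤
          4 ^ j i + D * (((k + 1 : ℕ) : ℝ) * (A.h (P i) + Cq * dK)) := by
        rw [← hz0i]
        refine (ht_valA (ρ i) (hD i) (nd.s (P i)) 0).trans (add_le_add (hht i) ?_)
        exact mul_le_mul_of_nonneg_left hss (Nat.cast_nonneg D)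
      have h6 := gj_le_ht nd κ j P hPl0 z0 hz0n i
      rw [← hgJ] at h6
      have h7 := mul_le_mul_of_nonneg_left (h6.trans h5) hd0.le
      refine le_trans (le_of_eq ?_) h7
      ring
    have hr := (hrd2 i).2
    have hq := hqvi i
    -- combine
    have b1 : d * (D * (((k + 1 : ℕ) : ℝ) * (A.h (P i) + Cq * dK))) ≤
        d * (D * ((k + 1 : ℕ) : ℝ) * (1 + Cq * dK) * (4 ^ j i + A.h (P i))) := by
      refine mul_le_mul_of_nonneg_left ?_ hd0.le
      rw [mul_assoc (D : ℝ), mul_assoc (D : ℝ)]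
      refine mul_le_mul_of_nonneg_left ?_ (Nat.cast_nonneg D)
      rw [mul_assoc]
      refine mul_le_mul_of_nonneg_left ?_ (Nat.cast_nonneg _)
      have b2 : 0 ≤ Cq * dK := mul_nonneg hCq hdK0
      have b3 : Cq * dK ≤ Cq * dK * 4 ^ j i := le_mul_of_one_le_right b2 h4
      have b4 : 0 ≤ Cq * dK * A.h (P i) := mul_nonneg b2 hPi0
      calc A.h (P i) + Cq * dK ≤ A.h (P i) + Cq * dK * 4 ^ j i + 4 ^ j i +
            Cq * dK * A.h (P i) := by linarith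
        _ = _ := by ring
    have b2 : d * (4 ^ j i) ≤ d * (1 * (4 ^ j i + A.h (P i))) := by
      refine mul_le_mul_of_nonneg_left ?_ hd0.le
      linarith
    have b3 : d * (Cr * A.h (P i)) ≤ d * (Cr * (4 ^ j i + A.h (P i))) := by
      refine mul_le_mul_of_nonneg_left (mul_le_mul_of_nonneg_left ?_ hCr) hd0.le
      linarith
    have b4 : d * dK * Cr ≤ d * (dK * Cr * (4 ^ j i + A.h (P i))) := by
      rw [mul_assoc]
      refine mul_le_mul_of_nonneg_left ?_ hd0.le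
      exact le_mul_of_one_le_right (mul_nonneg hdK0 hCr) (by linarith)
    have b5 : d * (dK * Ck) ≤ d * (dK * Ck * (4 ^ j i + A.h (P i))) := by
      refine mul_le_mul_of_nonneg_left ?_ hd0.le
      exact le_mul_of_one_le_right (mul_nonneg hdK0 hCk) (by linarith)
    have b6 : d * (2 * A.h (P i - 2 ^ j i • P₀) + C1 * 4 ^ j i) ≤
        d * (2 * A.h (P i - 2 ^ j i • P₀)) + d * (C1 * (4 ^ j i + A.h (P i))) := by
      have b7 : 0 ≤ d * (C1 * A.h (P i)) := by positivity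
      calc _ ≤ d * (2 * A.h (P i - 2 ^ j i • P₀) + C1 * 4 ^ j i) + d * (C1 * A.h (P i)) := by
            linarith
        _ = _ := by ring
    calc 4 ^ j i * (d * gJ) + - gs (fun v => Real.log (rd i v)) +
          gs (fun v : AbsoluteValue L ℝ => Real.log (E.k v)) + logHeight (qv (nd.s (R i))) ≤
        (d * (1 * (4 ^ j i + A.h (P i))) +
          d * (D * ((k + 1 : ℕ) : ℝ) * (1 + Cq * dK) * (4 ^ j i + A.h (P i)))) +
        (d * (Cr * (4 ^ j i + A.h (P i))) +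
          d * (dK * Cr * (4 ^ j i + A.h (P i)))) +
        d * (dK * Ck * (4 ^ j i + A.h (P i))) +
        (d * (2 * A.h (P i - 2 ^ j i • P₀)) + d * (C1 * (4 ^ j i + A.h (P i)))) := by
          have b8 : 4 ^ j i * (d * gJ) ≤
              d * 4 ^ j i + d * (D * (((k + 1 : ℕ) : ℝ) * (A.h (P i) + Cq * dK))) := by
            refine hg.trans (le_of_eq ?_)
            ring
          linarith
      _ = _ := by
          rw [hCr']
          ring
  have hgJ' : gj nd κ j P (fun i => eval (nd.s (P i)) ((ρ i).z 0)) = gJ := by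
    rw [hgJ, hz0]
  rw [hgJ']
  refine hconv d _ (A.h P₀) (∑ t, logHeight₁ (nd.s Q' t))
    (gs (fun v : AbsoluteValue L ℝ => Real.log (E.k v))) J j (fun _ => 0)
    (fun i => A.h (P i - 2 ^ j i • P₀)) (fun i => 4 ^ j i * gJ) (fun _ => 0)
    (fun i => A.h (P i)) (fun i => (ρ i).ht)
    (fun i => logHeight (qv (nd.s (R i))))
    (fun i => 4 ^ j i * (d * gJ)) (fun _ => 0)
    (fun i => - gs (fun v => Real.log
      (rrJ κ j yL (fun i => algebraMap K L (z0 i)) E (rd i) (nd.s (R i)) i v))) a hd0 ?_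
    (AV.h_nonneg P₀) (fun i => AV.h_nonneg _) (fun i => AV.h_nonneg _) hJ hht hhx hkk
    (fun i => ?_) (fun i => ?_) (fun i => ?_) hrri ?_
  · exact logHeight_nonneg _
  · refine (hqvi i).trans (mul_le_mul_of_nonneg_left ?_ hd0.le)
    have h4 : (0 : ℝ) ≤ 4 ^ j i := by positivity
    have h5 := mul_le_mul_of_nonneg_right hC1Ch h4
    linarith
  · refine le_of_eq ?_
    ring
  · rw [mul_zero, sub_zero]
  · rw [hdjs.2, hdL, ← hd] at hcore
    refine hcore.trans (le_of_eq ?_)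
    congr 2
    refine Finset.sum_congr rfl fun i _ => ?_
    have h4 : ((4 ^ (J - j i) - 0 : ℕ) : ℝ) * (4 ^ j i * (d * gJ)) = 4 ^ J * (d * gJ) := by
      rw [Nat.sub_zero]
      push_cast
      rw [← mul_assoc, ← pow_add, Nat.sub_add_cancel (hJ i)]
    rw [h4, Nat.cast_zero]
    ring

end Pool.Agent.Lib.MP_17a322_nt.VDA
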