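import Pool.Agent.Lib.MP_17a322_nt.VDA.LE
import Pool.Agent.Lib.MP_17a322_nt.VA.LB7

/-!
The radius of one block for the joint estimate; bounds of the coefficients.
-/

universe u

namespace Pool.Agent.Lib.MP_17a322_nt.VDA

open MvPolynomial Height
open Pool.Agent.Lib.MP_17a322_nt.RO
open Pool.Agent.Lib.MP_17a322_nt.VJ
open Pool.Agent.Lib.MP_17a322_nt.VN
open Pool.Agent.Lib.MP_17a322_nt.VA

/-- The radius of one block. -/
noncomputable def rrJ {K : Type*} [Field K] (κ : SC K) {L : Type*} [Field L] [Algebra K L] {m : ℕ}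
    {ι : Type*} {n : ℕ} (j : Fin m → ℕ) (y : Fin m → ι → L) (a : Fin m → L) (E : SC K)
    (rd : AbsoluteValue L ℝ → ℝ) (q : Fin n → L) (i : Fin m) (v : AbsoluteValue L ℝ) : ℝ :=
  dj κ j y a v ^ (4 ^ j i) * rd v / (E.k v * mq v q)

theorem rrJ_spec {K : Type u} [Field K] [NumberField K] (κ : SC K) {L : Type u} [Field L]
    [NumberField L] [Algebra K L] {m : ℕ} {ι : Type*} {n : ℕ} [NeZero n] (j : Fin m → ℕ)
    (y : Fin m → ι → L) (a : Fin m → L) (ha : ∀ i, a i ≠ 0) (E : SC K)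
    (rd : AbsoluteValue L ℝ → ℝ) (hrd : ∀ v, 0 < rd v ∧ rd v ≤ 1)
    (hrdF : FS fun v => Real.log (rd v)) (q : Fin n → L) (i : Fin m) :
    (∀ v, 0 < rrJ κ j y a E rd q i v ∧ rrJ κ j y a E rd q i v ≤ 1 ∧
      rrJ κ j y a E rd q i v * (E.k v * mq v q) = dj κ j y a v ^ (4 ^ j i) * rd v) ∧
    (FS fun v => Real.log (rrJ κ j y a E rd q i v)) ∧
    - gs (fun v => Real.log (rrJ κ j y a E rd q i v)) =
      4 ^ j i * gs (fun v : AbsoluteValue L ℝ => gjv κ j y a v) + - gs (fun v => Real.log (rd v)) +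
        gs (fun v : AbsoluteValue L ℝ => Real.log (E.k v)) + logHeight (qv q) := by
  have : Nonempty (Fin n) := ⟨⟨0, Nat.pos_of_ne_zero (NeZero.ne n)⟩⟩
  have hE : ∀ v : AbsoluteValue L ℝ, 1 ≤ E.k v * mq v q := fun v =>
    one_le_mul_of_one_le_of_one_le (E.one_le v) (one_le_mqB v q)
  have hd0 : ∀ v : AbsoluteValue L ℝ, 0 < dj κ j y a v ^ (4 ^ j i) := fun v =>
    pow_pos (dj_pos κ j y a v).1 _
  have hd1 : ∀ v : AbsoluteValue L ℝ, dj κ j y a v ^ (4 ^ j i) ≤ 1 := fun v =>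
    pow_le_one₀ (dj_pos κ j y a v).1.le (dj_pos κ j y a v).2
  have hlog : (fun v : AbsoluteValue L ℝ => Real.log (rrJ κ j y a E rd q i v)) =
      fun v : AbsoluteValue L ℝ => (4 : ℝ) ^ j i * Real.log (dj κ j y a v) + Real.log (rd v) -
        (Real.log (E.k v) + Real.log (mq v q)) := by
    funext v
    have h1 := hd0 v
    have h2 := (hrd v).1
    unfold rrJ
    rw [Real.log_div (mul_pos h1 h2).ne' (one_pos.trans_le (hE v)).ne',
      Real.log_mul h1.ne' h2.ne', Real.log_mul (E.pos v).ne' (mq_posB v q).ne', Real.log_pow]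
    push_cast
    rfl
  have F0 := FS_const_mul ((4 : ℝ) ^ j i) (gs_log_dj κ j y a ha).1
  have F1 := E.FS_log L
  have F2 : FS fun v : AbsoluteValue L ℝ => Real.log (mq v q) := FS_log_mq q
  refine ⟨fun v => ⟨?_, ?_, ?_⟩, ?_, ?_⟩
  · exact div_pos (mul_pos (hd0 v) (hrd v).1) (one_pos.trans_le (hE v))
  · refine (div_le_self (mul_pos (hd0 v) (hrd v).1).le (hE v)).trans ?_
    exact mul_le_one₀ (hd1 v) (hrd v).1.le (hrd v).2
  · exact div_mul_cancel₀ _ (one_pos.trans_le (hE v)).ne'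
  · rw [hlog]
    exact FS_sub (FS_add F0 hrdF) (FS_add F1 F2)
  · rw [hlog, gs_sub (FS_add F0 hrdF) (FS_add F1 F2), gs_add F0 hrdF, gs_add F1 F2,
      gs_const_mul, (gs_log_dj κ j y a ha).2, gs_log_mq]
    ring

/-- The bound for the coefficients. -/
theorem MzA_le {K : Type*} [Field K] {L : Type*} [Field L] [Algebra K L] {m n : ℕ}
    (N J : ℕ) (j : Fin m → ℕ) (F₀ : (Fin n → ℕ) → (Fin m → Fin n → ℕ) → K)
    (hne : ∃ a ν, F₀ a ν ≠ 0)
    (hsupp : ∀ a ν, F₀ a ν ≠ 0 → a ∈ box (fun _ : Fin n => N * 4 ^ J + 1) ∧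
      ν ∈ BB (fun i : Fin m => N * 4 ^ (J - j i) + 1)) (x : Fin n → L)
    (v : AbsoluteValue L ℝ) (r : ℝ) (N' : ℕ) (ν : Fin m → Fin n → ℕ) :
    PN v r N' (algebraMap L (PowerSeries L)
        (∑ a ∈ box (fun _ : Fin n => N * 4 ^ J + 1),
          (∏ t, x t ^ a t) * algebraMap K L (F₀ a ν))) ≤ MzA N J j F₀ x v := by
  obtain ⟨Y, hY⟩ : ∃ Y : (box (fun _ : Fin n => N * 4 ^ J + 1)) ×
      (BB (fun i : Fin m => N * 4 ^ (J - j i) + 1) : Finset (Fin m → Fin n → ℕ)) → L,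
      Y = fun p => algebraMap K L (F₀ p.1 p.2) := ⟨_, rfl⟩
  have hYne : Y ≠ 0 := by
    obtain ⟨a', ν, h1⟩ := hne
    obtain ⟨h2, h3⟩ := hsupp a' ν h1
    intro h4
    have h5 := congrFun h4 (⟨a', h2⟩, ⟨ν, h3⟩)
    rw [hY] at h5
    exact h1 ((map_eq_zero (algebraMap K L)).1 h5)
  have hYpos : 0 < ⨆ p, v (Y p) := by
    obtain ⟨p, hp⟩ := Function.ne_iff.mp hYne
    exact (v.pos hp).trans_le (Finite.le_ciSup_of_le p le_rfl)
  have hpp : 0 < ∏ t, max 1 (v (x t)) :=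
    Finset.prod_pos fun _ _ => lt_max_of_lt_left one_pos
  have h0 := PN_C v (r := r) N' (∑ a ∈ box (fun _ : Fin n => N * 4 ^ J + 1),
        (∏ t, x t ^ a t) * algebraMap K L (F₀ a ν))
  refine (le_of_eq h0).trans ?_
  have hM₀ : MzA N J j F₀ x v = cst v ((N * 4 ^ J + 1) ^ n) *
      ((⨆ p, v (Y p)) * (∏ t, max 1 (v (x t))) ^ (N * 4 ^ J)) := by
    rw [hY]
    rfl
  rw [hM₀]
  have h1 := (SN_self v).sum_le (box (fun _ : Fin n => N * 4 ^ J + 1))
    (fun a => (∏ t, x t ^ a t) * algebraMap K L (F₀ a ν))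
    (B := (⨆ p, v (Y p)) * (∏ t, max 1 (v (x t))) ^ (N * 4 ^ J))
    (mul_pos hYpos (pow_pos hpp _)).le (by
      intro a ha
      show v ((∏ t, x t ^ a t) * algebraMap K L (F₀ a ν)) ≤ _
      rw [map_mul, mul_comm]
      refine mul_le_mul ?_ ?_ (v.nonneg _) hYpos.le
      · by_cases h2 : F₀ a ν = 0
        · rw [h2, map_zero, map_zero]
          exact hYpos.le
        · have h3 := (hsupp a _ h2).2
          refine Finite.le_ciSup_of_le (f := fun p => v (Y p)) (⟨a, ha⟩, ⟨_, h3⟩) ?_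
          rw [hY]
      · rw [map_prod, ← Finset.prod_pow]
        refine Finset.prod_le_prod (fun _ _ => v.nonneg _) fun t _ => ?_
        rw [map_pow]
        refine (pow_le_pow_left₀ (v.nonneg _) (le_max_right 1 _) _).trans ?_
        refine pow_le_pow_right₀ (le_max_left _ _) ?_
        have h2 := (mem_box _ _).1 ha t
        exact Nat.lt_succ_iff.1 h2)
  rw [C08_card] at h1
  exact h1

section

variable {K : Type u} [Field K] {N : ℕ} {A : AV K N} {n e : ℕ} (nd : Noe A n e)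

theorem LF_lf_y {L : Type u} [Field L] [Algebra K L] (P : A.Pts L) (l : Fin (N + 1) → K) :
    lf l (nd.y P) = lf l (A.x P) / lf (nd.l 0) (A.x P) := by
  have h1 : nd.y P = fun a => (lf (nd.l 0) (A.x P))⁻¹ * A.x P a := by
    funext a
    unfold Noe.y
    rw [div_eq_inv_mul]
  rw [h1, lf_smul, div_eq_inv_mul]

theorem LF_lf_y_succ {L : Type u} [Field L] [Algebra K L] (P : A.Pts L) (t : Fin n) :
    lf (nd.l t.succ) (nd.y P) = nd.s P t :=
  LF_lf_y nd P _

theorem LF_lf_y_zero {L : Type u} [Field L] [Algebra K L] (P : A.Pts L)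
    (hP : lf (nd.l 0) (A.x P) ≠ 0) : lf (nd.l 0) (nd.y P) = 1 := by
  rw [LF_lf_y, div_self hP]

theorem LF_y_isPt {L : Type u} [Field L] [Algebra K L] (P : A.Pts L) : A.IsPt (nd.y P) := by
  have h1 : nd.y P = fun a => (lf (nd.l 0) (A.x P))⁻¹ * A.x P a := by
    funext a
    unfold Noe.y
    rw [div_eq_inv_mul]
  rw [h1]
  exact (A.x_isPt P).smul _

theorem LF_aeval_map {L : Type u} [Field L] [Algebra K L] (P : A.Pts K)
    (z : MvPolynomial (Fin n) K) :
    aeval (fun t : Fin n => lf (nd.l t.succ) fun b => algebraMap K L (nd.y P b)) z =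
      algebraMap K L (eval (nd.s P) z) := by
  have h1 : (fun t : Fin n => lf (nd.l t.succ) fun b => algebraMap K L (nd.y P b)) =
      fun t => algebraMap K L (nd.s P t) := by
    funext t
    have h2 := lf_map (Algebra.ofId K L) (nd.l t.succ) (nd.y P)
    rw [LF_lf_y_succ] at h2
    exact h2.symm
  have h2 := MvPolynomial.aeval_algebraMap_apply L (nd.s P) z
  rw [h1]
  exact h2

end

end Pool.Agent.Lib.MP_17a322_nt.VDA
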