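import Pool.Agent.Lib.MP_17a322_nt.VDA.LD0
import Pool.Agent.Lib.MP_17a322_nt.VA.E11

/-!
The chain of leading forms without equations: the last value is the value at `z = 0`.
-/

universe u

namespace Pool.Agent.Lib.MP_17a322_nt.VDA

open MvPolynomial Height
open Pool.Agent.Lib.MP_17a322_nt.RO
open Pool.Agent.Lib.MP_17a322_nt.VJ
open Pool.Agent.Lib.MP_17a322_nt.VN
open Pool.Agent.Lib.MP_17a322_nt.VA

/-- The constant coefficient of the substitution, at the constant coefficients. -/
theorem eval_PsS {B : Type*} [CommRing B] {m n : ℕ} (ξ : Fin m × Fin n → PowerSeries B)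
    (i : Fin m) (G : MvPolynomial (Fin m × Fin n) B) :
    eval (fun p => PowerSeries.constantCoeff (ξ p)) (PowerSeries.constantCoeff (PsS ξ i G)) =
      eval (fun p => PowerSeries.constantCoeff (ξ p)) G := by
  have h1 : ((eval (fun p => PowerSeries.constantCoeff (ξ p))).comp
      ((PowerSeries.constantCoeff (R := MvPolynomial (Fin m × Fin n) B)).comp (PsS ξ i))) =
      eval (fun p => PowerSeries.constantCoeff (ξ p)) := by
    refine MvPolynomial.ringHom_ext (fun r => ?_) (fun p => ?_)
    · show eval _ (PowerSeries.constantCoeff (PsS ξ i (C r))) = eval _ (C r)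
      unfold PsS
      rw [coe_eval₂Hom, eval₂_C]
      show eval _ (PowerSeries.constantCoeff (PowerSeries.C (C r))) = eval _ (C r)
      rw [PowerSeries.constantCoeff_C]
    · show eval _ (PowerSeries.constantCoeff (PsS ξ i (X p))) = eval _ (X p)
      unfold PsS
      rw [coe_eval₂Hom, eval₂_X]
      by_cases hp : p.1 = i
      · rw [if_pos hp, ← PowerSeries.coeff_zero_eq_constantCoeff_apply, PowerSeries.coeff_map,
          PowerSeries.coeff_zero_eq_constantCoeff_apply, eval_C, eval_X]
      · rw [if_neg hp, PowerSeries.constantCoeff_C]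
  exact congrArg (fun φ : MvPolynomial (Fin m × Fin n) B →+* B => φ G) h1

/-- The chain of leading forms without equations. -/
theorem glueJ {K L : Type*} [Field K] [Field L] [Algebra K L] {m n : ℕ} (x : Fin n → L)
    (ξ : Fin m × Fin n → D2 L (Fin m × Fin n)) (F : MvPolynomial (Fin n ⊕ Fin m × Fin n) K)
    (s' : Fin m → ℕ)
    (F' : Fin (m + 1) → MvPolynomial (Fin m × Fin n) (D1 L (Fin m × Fin n)))
    (f : D1 L (Fin m × Fin n)) (a : ℕ) (Q : MvPolynomial (Fin m × Fin 0) L)
    (Ev : Fin m × Fin 0 → MvPolynomial (Fin m × Fin n) L)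
    (h0 : F' 0 = aeval (Sum.elim (fun t => (C (algebraMap L (D1 L (Fin m × Fin n)) (x t)) :
      MvPolynomial (Fin m × Fin n) (D1 L (Fin m × Fin n)))) X) F)
    (h1 : ∀ i : Fin m, F' i.succ = PowerSeries.coeff (s' i) (PsS ξ i (F' i.castSucc)))
    (h2 : F' (Fin.last m) = C f) (h3 : PowerSeries.coeff a f ≠ 0)
    (h4 : PowerSeries.coeff a f = aeval Ev Q)
    (h5 : ∀ u ∈ (PowerSeries.coeff a f).support, ∀ i, ∑ b, u (i, b) = s' i) :
    PowerSeries.coeff a (aeval (Sum.elim (fun t => algebraMap L (PowerSeries L) (x t))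
      (fun p => HZ K L (Fin m × Fin n) (ξ p))) F) ≠ 0 := by
  classical
  -- the coefficient is a constant
  obtain ⟨c, hc⟩ : ∃ c : L, PowerSeries.coeff a f = C c := by
    refine ⟨coeff 0 Q, ?_⟩
    have h6 : Q = C (coeff 0 Q) := by
      refine MvPolynomial.ext _ _ fun w => ?_
      have h7 : w = 0 := Finsupp.ext fun p => p.2.elim0
      rw [h7, coeff_C, if_pos rfl]
    rw [h4]
    conv_lhs => rw [h6, aeval_C]
    rfl
  have hc0 : c ≠ 0 := by
    intro h
    rw [hc, h, map_zero] at h3
    exact h3 rfl
  have hs : ∀ i, s' i = 0 := by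
    intro i
    have h6 : (0 : Fin m × Fin n →₀ ℕ) ∈ (PowerSeries.coeff a f).support := by
      rw [mem_support_iff, hc, coeff_C, if_pos rfl]
      exact hc0
    rw [← h5 0 h6 i]
    exact Finset.sum_eq_zero fun b _ => rfl
  -- the value is constant along the chain
  have hev : ∀ k : Fin (m + 1), eval (fun p => PowerSeries.constantCoeff (ξ p)) (F' k) =
      eval (fun p => PowerSeries.constantCoeff (ξ p)) (F' 0) := by
    intro k
    induction k using Fin.induction with
    | zero => rfl
    | succ i ih =>
      rw [h1 i, hs i, PowerSeries.coeff_zero_eq_constantCoeff_apply, eval_PsS]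
      exact ih
  have hf : f = aeval (Sum.elim (fun t => algebraMap L (D1 L (Fin m × Fin n)) (x t))
      (fun p => PowerSeries.constantCoeff (ξ p))) F := by
    have h6 := hev (Fin.last m)
    rw [h2, eval_C, h0] at h6
    rw [h6]
    let φ : MvPolynomial (Fin m × Fin n) (D1 L (Fin m × Fin n)) →ₐ[K] D1 L (Fin m × Fin n) :=
      (aeval (fun p => PowerSeries.constantCoeff (ξ p)) :
        MvPolynomial (Fin m × Fin n) (D1 L (Fin m × Fin n)) →ₐ[D1 L (Fin m × Fin n)]
          D1 L (Fin m × Fin n)).restrictScalars K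
    have h7 : ∀ G, eval (fun p => PowerSeries.constantCoeff (ξ p)) G = φ G := by
      intro G
      show _ = aeval (fun p => PowerSeries.constantCoeff (ξ p)) G
      rw [aeval_def]
      rfl
    rw [h7, ← AlgHom.comp_apply, MvPolynomial.comp_aeval]
    congr 2
    funext o
    rcases o with o | o
    · show aeval (fun p => PowerSeries.constantCoeff (ξ p))
        (C (algebraMap L (D1 L (Fin m × Fin n)) (x o))) = _
      rw [aeval_C]
      rfl
    · show aeval (fun p => PowerSeries.constantCoeff (ξ p)) (X o) = _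
      rw [aeval_X]
      rfl
  let ψ : D1 L (Fin m × Fin n) →ₐ[K] PowerSeries L :=
    { PowerSeries.map (MvPolynomial.constantCoeff : MvPolynomial (Fin m × Fin n) L →+* L) with
      commutes' := by
        intro a
        show PowerSeries.map (MvPolynomial.constantCoeff : MvPolynomial (Fin m × Fin n) L →+* L)
          (algebraMap K (D1 L (Fin m × Fin n)) a) = _
        rw [PowerSeries.algebraMap_apply, PowerSeries.map_C, MvPolynomial.algebraMap_apply,
          MvPolynomial.constantCoeff_C, PowerSeries.algebraMap_apply] }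
  have hψ : ∀ g, ψ g =
      PowerSeries.map (MvPolynomial.constantCoeff : MvPolynomial (Fin m × Fin n) L →+* L) g :=
    fun _ => rfl
  have h8 : ψ f = aeval (Sum.elim (fun t => algebraMap L (PowerSeries L) (x t))
      (fun p => HZ K L (Fin m × Fin n) (ξ p))) F := by
    conv_lhs => rw [hf]
    rw [← AlgHom.comp_apply, MvPolynomial.comp_aeval]
    congr 2
    funext o
    rcases o with o | o
    · show ψ (algebraMap L (D1 L (Fin m × Fin n)) (x o)) = _
      rw [hψ, PowerSeries.algebraMap_apply, PowerSeries.map_C, MvPolynomial.algebraMap_apply,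
        MvPolynomial.constantCoeff_C]
      rfl
    · rfl
  rw [← h8, hψ, PowerSeries.coeff_map, hc, MvPolynomial.constantCoeff_C]
  exact hc0

end Pool.Agent.Lib.MP_17a322_nt.VDA
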