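import Pool.Agent.Lib.MP_17a322_nt.VDA.LF
import Pool.Agent.Lib.MP_17a322_nt.VDA.LG0
import Pool.Agent.Lib.MP_17a322_nt.VDA.J4
import Pool.Agent.Lib.MP_17a322_nt.VA.LB10
import Pool.Agent.Lib.MP_17a322_nt.VA.LA7
import Pool.Agent.Lib.MP_17a322_nt.VA.CL2
import Pool.Agent.Lib.MP_17a322_nt.VA.E17
import Pool.Agent.Lib.MP_17a322_nt.VA.T4
import Pool.Agent.Lib.MP_17a322_nt.VN.L1w

/-!
The numerical theorem with the joint gain on abelian varieties.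
-/

universe u

namespace Pool.Agent.Lib.MP_17a322_nt.VDA

open MvPolynomial Height
open Pool.Agent.Lib.MP_17a322_nt.RO
open Pool.Agent.Lib.MP_17a322_nt.VJ
open Pool.Agent.Lib.MP_17a322_nt.VN
open Pool.Agent.Lib.MP_17a322_nt.VA

private theorem LG_term {K L B : Type*} [Field K] [Field L] [CommRing B] [Algebra K L]
    [Algebra L B] [Algebra K B] [IsScalarTower K L B] {m n : ℕ} (x : Fin n → L)
    (Ξ : Fin m × Fin n → B) (a : Fin n → ℕ) (ν : Fin m → Fin n → ℕ) (c : K) :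
    aeval (Sum.elim (fun t => algebraMap L B (x t)) Ξ)
      (monomial (Finsupp.equivFunOnFinite.symm (Sum.elim a fun p => ν p.1 p.2)) c) =
      algebraMap L B ((∏ t, x t ^ a t) * algebraMap K L c) *
        ∏ i, ∏ t, Ξ (i, t) ^ ν i t := by
  classical
  rw [aeval_monomial, Finsupp.prod_fintype _ _ (fun i => pow_zero _), Fintype.prod_sum_type]
  have h1 : ∏ t : Fin n, (Sum.elim (fun t => algebraMap L B (x t)) Ξ (Sum.inl t)) ^
      (Finsupp.equivFunOnFinite.symm (Sum.elim a fun p : Fin m × Fin n => ν p.1 p.2)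
        (Sum.inl t)) = algebraMap L B (∏ t, x t ^ a t) := by
    rw [map_prod]
    refine Finset.prod_congr rfl fun t _ => ?_
    rw [map_pow]
    rfl
  have h2 : ∏ p : Fin m × Fin n, (Sum.elim (fun t => algebraMap L B (x t)) Ξ (Sum.inr p)) ^
      (Finsupp.equivFunOnFinite.symm (Sum.elim a fun p : Fin m × Fin n => ν p.1 p.2)
        (Sum.inr p)) = ∏ i, ∏ t, Ξ (i, t) ^ ν i t := by
    rw [Fintype.prod_prod_type]
    rfl
  rw [h1, h2, map_mul, ← IsScalarTower.algebraMap_apply K L B]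
  ring

/-- The value of the auxiliary polynomial. -/
theorem NFS_value {K L B : Type*} [Field K] [Field L] [CommRing B] [Algebra K L]
    [Algebra L B] [Algebra K B] [IsScalarTower K L B] {m n : ℕ} (N J : ℕ) (j : Fin m → ℕ)
    (F : (Fin n → ℕ) → (Fin m → Fin n → ℕ) → K) (x : Fin n → L) (Ξ : Fin m × Fin n → B) :
    aeval (Sum.elim (fun t => algebraMap L B (x t)) Ξ) (NFS N J j F) =
      ∑ ν ∈ BB (fun i : Fin m => N * 4 ^ (J - j i) + 1), algebraMap L B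
        (∑ a ∈ box (fun _ : Fin n => N * 4 ^ J + 1), (∏ t, x t ^ a t) * algebraMap K L (F a ν)) *
        ∏ i, ∏ t, Ξ (i, t) ^ ν i t := by
  unfold NFS
  rw [map_sum, Finset.sum_congr rfl fun a _ => map_sum _ _ _, Finset.sum_comm]
  refine Finset.sum_congr rfl fun ν _ => ?_
  rw [map_sum, Finset.sum_mul]
  exact Finset.sum_congr rfl fun a _ => LG_term x Ξ a ν _

/-- The numerical theorem with the joint gain on abelian varieties. -/
theorem SDA {K : Type u} [Field K] [NumberField K] {N : ℕ} (A : AV K N) {k e₀ : ℕ}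
    (nd : Noe A (k + 1) e₀) (o : Fin (N + 1) → K) (t : Fin (k + 1) → Fin (N + 1) → K)
    (ht : A.Frame o t) (κ : SC K) (e D : ℕ) (ε : ℝ) (hε : 0 < ε) :
    ∃ (m D' R₀ : ℕ) (C₀ η : ℝ), 0 < m ∧ 0 ≤ C₀ ∧ 0 < η ∧
      ∀ (P₀ : A.Pts K) (P : Fin m → A.Pts K) (j : Fin m → ℕ) (ρ : Fin m → REP K (k + 1) e),
      (∀ i, R₀ ≤ 4 ^ j i) → (∀ i i', i < i' → R₀ * 4 ^ j i ≤ 4 ^ j i') →
      (∀ i, nd.Good (P i)) → (∀ i, (ρ i).Deg D) → (∀ i, (ρ i).ht ≤ 4 ^ j i) →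
      (∀ i, eval (nd.s (P i)) ((ρ i).z 0) ≠ 0) →
      ε * A.h P₀ ≤ gj nd κ j P (fun i => eval (nd.s (P i)) ((ρ i).z 0)) →
      C₀ ≤ A.h P₀ →
      (∀ i, A.h (P i - 2 ^ j i • P₀) ≤ η * (4 ^ j i * A.h P₀)) →
      (∀ i, |A.h (P i) - 4 ^ j i * A.h P₀| ≤ η * (4 ^ j i * A.h P₀)) →
      ∃ (i : Fin m) (G : MvPolynomial (Fin (k + 1)) K), G ≠ 0 ∧ (∀ t, G.degreeOf t ≤ D') ∧
        nh G ≤ C₀ * 4 ^ j i ∧ eval (nd.s (P i)) G = 0 := by
  classical
  obtain ⟨rr, hrr⟩ : ∃ rr : Fin 0 → Fin (k + 1), Function.Injective rr :=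
    ⟨fun i => i.elim0, fun i => i.elim0⟩
  obtain ⟨E₀, c₀', hblock⟩ := exists_block A nd rr hrr o t ht κ D
  obtain ⟨Cw, hCw, hw⟩ := exists_hw nd
  obtain ⟨N', hN1, m₀, haux0⟩ := exists_auxJA nd e D
  have hε2 : 0 < ε / 2 := half_pos hε
  obtain ⟨m1, hm1'⟩ := exists_nat_ge ((2 * ((k + 1) * N' : ℕ) + 8 : ℝ) * 4 / (ε / 2))
  obtain ⟨m, hmd⟩ : ∃ m : ℕ, m = max (max m₀ m1) 1 := ⟨_, rfl⟩
  have hm0 : m₀ ≤ m := by
    rw [hmd]
    exact (le_max_left _ _).trans (le_max_left _ _)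
  have hm1 : 1 ≤ m := by
    rw [hmd]
    exact le_max_right _ _
  have hNε : (2 * ((k + 1) * N' : ℕ) + 8 : ℝ) ≤ m * (ε / 2) / 4 := by
    have h1 : (m1 : ℝ) ≤ m := by
      rw [hmd]
      exact_mod_cast (le_max_right m₀ m1).trans (le_max_left _ 1)
    have h2 := hm1'.trans h1
    rw [div_le_iff₀ hε2] at h2
    linarith
  obtain ⟨CA, hCA, haux⟩ := haux0 m hm0
  obtain ⟨C, hC, hend⟩ := exists_end_jointA nd rr κ E₀ c₀' D e m N' hN1 Cw hCw
  obtain ⟨CF, hCF⟩ : ∃ CF : ℝ, CF = CA * (m + 1) := ⟨_, rfl⟩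
  obtain ⟨B, hB⟩ : ∃ B : ℝ, B = CF + Module.finrank ℚ K * (((k + 1 : ℕ) : ℝ) * (m + 1)) :=
    ⟨_, rfl⟩
  have hCF0 : 0 ≤ CF := by rw [hCF]; positivity
  have hB0 : 0 ≤ B := by rw [hB]; positivity
  obtain ⟨NN, hNN⟩ : ∃ NN : ℝ, NN = ((k + 1) * N' : ℕ) := ⟨_, rfl⟩
  have hNN0 : 0 ≤ NN := by rw [hNN]; exact Nat.cast_nonneg _
  have hden : 0 < 8 * ((NN + 1) * (2 * C + 2)) := by positivity
  obtain ⟨s₀, hs₀⟩ : ∃ s₀ : ℝ, s₀ = (ε / 2) / (8 * ((NN + 1) * (2 * C + 2))) := ⟨_, rfl⟩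
  have hs₀0 : 0 < s₀ := by rw [hs₀]; exact div_pos hε2 hden
  have hs₀1 : s₀ * (1 * NN) * (2 * C + 2) ≤ (ε / 2) / 8 := by
    have h1 : s₀ * (8 * ((NN + 1) * (2 * C + 2))) = ε / 2 := by
      rw [hs₀]
      exact div_mul_cancel₀ (ε / 2) hden.ne'
    have h2 : 0 ≤ s₀ * (2 * C + 2) := mul_nonneg hs₀0.le (by linarith)
    have h3 : s₀ * (8 * ((NN + 1) * (2 * C + 2))) =
      8 * (s₀ * (1 * NN) * (2 * C + 2)) + 8 * (s₀ * (2 * C + 2)) := by ring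
    linarith
  obtain ⟨D', R₁, B', C₁, hB', hC₁, hlow⟩ := E14 A nd rr hrr m D s₀ B hs₀0 hB0
  obtain ⟨η, C₃, hη, hC₃, hnum⟩ := numeric_end 1 m ((k + 1) * N') (ε / 2) C 1 s₀ CF hε2 hm1
    hNε hC zero_le_one hs₀0 (by rw [← hNN]; exact hs₀1) hCF0
  refine ⟨m, D', max R₁ 2, max (max C₃ B') 1, min η 1, hm1,
    le_max_of_le_left (le_max_of_le_left hC₃), lt_min hη one_pos, ?_⟩
  intro P₀ P j ρ hj hgap hgood hDeg hht hz hgj hC₀ hdiff hHN
  have hH1 : 1 ≤ A.h P₀ := (le_max_right _ _).trans hC₀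
  have hH0 : 0 ≤ A.h P₀ := zero_le_one.trans hH1
  obtain ⟨J, hJd⟩ : ∃ J, J = Finset.univ.sup j := ⟨_, rfl⟩
  have hJ : ∀ i, j i ≤ J := by
    intro i
    rw [hJd]
    exact Finset.le_sup (Finset.mem_univ i)
  have h4J : (1 : ℝ) ≤ 4 ^ J := one_le_pow₀ (by norm_num)
  have hNr : (1 : ℝ) ≤ N' := by exact_mod_cast hN1
  have hgeom := geom_J j J (max R₁ 2) hJ (le_max_right _ _) hgap
  -- the auxiliary polynomial
  obtain ⟨F₀, hF1, hF2, hF3, hF4⟩ := haux J j ρ hJ hDeg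
  have hF5 : logHeight (fun p : (box (fun _ : Fin (k + 1) => N' * 4 ^ J + 1)) ×
          (BB (fun i : Fin m => N' * 4 ^ (J - j i) + 1) : Finset (Fin m → Fin (k + 1) → ℕ)) =>
            F₀ p.1 p.2) ≤ CF * 4 ^ J := by
    refine hF4.trans ?_
    have h1 : ∑ i, (4 : ℝ) ^ (J - j i) * (ρ i).ht ≤ m * 4 ^ J := by
      have h2 : ∀ i ∈ (Finset.univ : Finset (Fin m)), (4 : ℝ) ^ (J - j i) * (ρ i).ht ≤ 4 ^ J := by
        intro i _
        have h3 : (4 : ℝ) ^ (J - j i) * (ρ i).ht ≤ 4 ^ (J - j i) * 4 ^ j i :=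
          mul_le_mul_of_nonneg_left (hht i) (by positivity)
        rw [← pow_add, Nat.sub_add_cancel (hJ i)] at h3
        exact h3
      have h4 := Finset.sum_le_card_nsmul _ _ _ h2
      rw [Finset.card_univ, Fintype.card_fin, nsmul_eq_mul] at h4
      exact h4
    rw [hCF]
    have h5 : CA * (4 ^ J + ∑ i, (4 : ℝ) ^ (J - j i) * (ρ i).ht) ≤ CA * (4 ^ J + m * 4 ^ J) :=
      mul_le_mul_of_nonneg_left (by linarith) hCA
    refine h5.trans (le_of_eq ?_)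
    ring
  obtain ⟨b, hb⟩ : ∃ b : ℝ, b = N' * 4 ^ J := ⟨_, rfl⟩
  have hb1 : (1 : ℝ) ≤ b := by
    rw [hb]
    calc (1 : ℝ) = 1 * 1 := by ring
      _ ≤ N' * 4 ^ J := mul_le_mul hNr h4J zero_le_one (by linarith)
  have hb4 : (4 : ℝ) ^ J ≤ b := by
    rw [hb]
    exact le_mul_of_one_le_left (by positivity) hNr
  have hne := NFS_ne N' J j F₀ hF1 hF2
  obtain ⟨hd1, hd2⟩ := NFS_deg N' J j hJ F₀
  have hnh := NFS_height N' J j F₀ hF1 hF2
  rw [← hb] at hd1 hd2 hnh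
  have hnh2 : nh (NFS N' J j F₀) ≤ B * b := by
    refine hnh.trans ?_
    have h1 : CF * 4 ^ J ≤ CF * b := mul_le_mul_of_nonneg_left hb4 hCF0
    rw [hB, add_mul]
    refine add_le_add (hF5.trans h1) (le_of_eq ?_)
    ring
  have hgap1 : ∀ i i' : Fin m, i < i' → R₁ * 4 ^ j i ≤ 4 ^ j i' := by
    intro i i' hii
    exact (Nat.mul_le_mul_right _ (le_max_left _ _)).trans (hgap i i' hii)
  -- no equations
  obtain ⟨q, hq⟩ : ∃ q : Fin m → Fin 0 → MvPolynomial (Fin (k + 1)) K,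
    q = fun _ b => b.elim0 := ⟨_, rfl⟩
  have hIsEq : ∀ i, IsEq nd rr D (P i) (q i) := fun i b => b.elim0
  have hDS := fun i => nd.exists_DS ht (P i) (hgood i)
  choose M hM using hDS
  rcases hlow P j q M (fun _ b => b.elim0) (fun _ => 1) (NFS N' J j F₀) b hgap1 hIsEq
    (fun i b => b.elim0) (fun i => linearIndependent_empty_type)
    (fun i => by rw [Matrix.det_one]; exact one_ne_zero) (fun i b => b.elim0) hne hd1 hd2 hnh2
    hb1 with hA | ⟨g, hg, hA⟩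
  · obtain ⟨i, G, hG0, hG1, hG2, hG3, hG4⟩ := hA
    refine ⟨i, G, hG0, hG2, hG3.trans ?_, hG4⟩
    exact mul_le_mul_of_nonneg_right ((le_max_right _ _).trans (le_max_left _ _)) (by positivity)
  · exfalso
    obtain ⟨L, _, _, _, w, ζ, hw0, hw1, hζ, hQ0, hgQ, hR0⟩ := choose_L A nd g hg P₀ P j
    obtain ⟨Q, hQ⟩ : ∃ Q : A.Pts L, Q = A.img (Algebra.ofId K L) P₀ + w := ⟨_, rfl⟩
    have hQ0' := hQ0
    rw [← hQ] at hQ0'
    have hYrep : A.Rep Q (nd.y Q) := nd.rep_y Q hQ0'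
    have hPi : ∀ i, A.Rep (A.img (Algebra.ofId K L) (P i))
        fun b => algebraMap K L (nd.y (P i) b) := fun i =>
      (nd.rep_y (P i) (hgood i).1).img (Algebra.ofId K L)
    have hMi : ∀ i, A.Rep (2 ^ j i • Q) (A.mu (j i) (nd.y Q)) := fun i => hYrep.mu (j i)
    have h0 : ∀ i, lf (nd.l 0) (A.x (A.img (Algebra.ofId K L) (P i) - 2 ^ j i • Q)) ≠ 0 := by
      intro i
      rw [hQ]
      exact hR0 i
    have hblk := fun i => hblock (P i) (q i) (M i) (hgood i) (hIsEq i) (hM i).1 L i (4 ^ j i)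
        (fun a => ζ (i, a)) (A.mu (j i) (nd.y Q))
        (nd.s (A.img (Algebra.ofId K L) (P i) - 2 ^ j i • Q)) (pow_pos four_pos _)
        (fun a => hζ (i, a)) (hMi i).isPt (hMi i).ne_zero
        (block_hyp nd _ _ (hPi i) (hMi i) (h0 i)).1 (block_hyp nd _ _ (hPi i) (hMi i) (h0 i)).2
    choose y ξ hy using hblk
    have hblk2 := fun i => show _ ∧ _ ∧ _ ∧ _ ∧ _ ∧ _ ∧ _ ∧ _ ∧ _ ∧ _ ∧ _ from
      ⟨(hy i).1, (hy i).2.1, (hy i).2.2.1, (hy i).2.2.2.1, (hy i).2.2.2.2.1, (hy i).2.2.2.2.2.1,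
        (hy i).2.2.2.2.2.2.1, (hy i).2.2.2.2.2.2.2.1, (hy i).2.2.2.2.2.2.2.2.1,
        (hy i).2.2.2.2.2.2.2.2.2.1, (hy i).2.2.2.2.2.2.2.2.2.2.1⟩
    have hsQ : (fun t : Fin (k + 1) => lf (nd.l t.succ) (nd.y Q)) = nd.s Q :=
      funext fun t => nd.lf_y_succ Q t
    obtain ⟨s', F', f, a, Qf, -, e2, e3, e4, e5, e6, e7, e8⟩ := hA L (nd.y Q) ζ
      (fun i => nd.s (A.img (Algebra.ofId K L) (P i) - 2 ^ j i • Q)) y ξ (nd.y_isPt Q)
      (nd.lf_y_zero Q hQ0') (by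
        rw [hsQ, hQ]
        exact hgQ) hblk2
    have hval := glueJ (fun t => lf (nd.l t.succ) (nd.y Q)) (fun p => ξ p.1 p.2)
      (NFS N' J j F₀) s' F' f a Qf _ e2 e3 e4 e6 e7 e8
    simp only [nd.lf_y_succ Q] at hval
    have hI := hend P₀ P j ρ q J F₀ a hJ hgood hDeg hht hz hF1 hF2 hF3 L w
      (hw L w hw0 hw1) hQ0 hR0 y ξ (fun i => (hy i).1) (fun i => (hy i).2.1)
      (fun i => (hy i).2.2.2.2.2.2.2.2.2.2.2.1) (fun i => (hy i).2.2.2.2.1)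
      (fun i v => by
        have h1 := (hy i).2.2.2.2.2.2.2.2.2.2.2.2 v
        rw [← hQ]
        exact h1) _ (dvd_of_eq (by
        rw [← hQ]
        exact (NFS_value N' J j F₀ (nd.s Q) fun p =>
          HZ K L (Fin m × Fin (k + 1)) (ξ p.1 p.2)).symm)) hval
    have hb0 : 0 ≤ b := by linarith
    have hbN : b ≤ NN * 4 ^ J := by
      rw [hb, hNN]
      refine mul_le_mul_of_nonneg_right ?_ (by positivity)
      push_cast
      have : (0 : ℝ) ≤ k := Nat.cast_nonneg k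
      nlinarith
    have hmul : ∀ i, min η 1 * (4 ^ j i * A.h P₀) ≤ η * (4 ^ j i * A.h P₀) := fun i =>
      mul_le_mul_of_nonneg_right (min_le_left _ _) (mul_nonneg (by positivity) hH0)
    refine hnum _ (A.h P₀) J j (fun _ => 0) _ _ (fun _ => 0) _ a hJ hgeom
      ((le_max_left _ _).trans ((le_max_left _ _).trans hC₀)) hF5
      (fun i => AV.h_nonneg _) (fun i => ?_) (fun i => (hHN i).trans (hmul i)) (fun i => ?_)
      (fun i => Or.inl rfl) (fun i => ?_) ?_ hI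
    · rw [Nat.cast_one, one_mul]
      exact (hdiff i).trans (hmul i)
    · have h1 := (abs_le.1 (hHN i)).2
      have h2 : min η 1 * (4 ^ j i * A.h P₀) ≤ 1 * (4 ^ j i * A.h P₀) :=
        mul_le_mul_of_nonneg_right (min_le_right _ _) (mul_nonneg (by positivity) hH0)
      have h3 : A.h (P i) ≤ 2 * (4 ^ j i * A.h P₀) := by linarith
      have h4 := mul_le_mul_of_nonneg_left h3 hε2.le
      have h5 : (0 : ℝ) < 4 ^ j i := by positivity
      have h6 := mul_le_mul_of_nonneg_left hgj h5.le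
      linarith
    · rw [Nat.cast_zero, mul_zero]
      positivity
    · refine e5.trans_le ?_
      rw [one_mul, ← hNN]
      exact mul_le_mul_of_nonneg_left hbN hs₀0.le

end Pool.Agent.Lib.MP_17a322_nt.VDA
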