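import Pool.Agent.Lib.MP_17a322_nt.VA.Z14
import Pool.Agent.Lib.MP_17a322_nt.VD.D11a

/-!
Proximity to a divisor at one place, in one chart.
-/

universe u

namespace Pool.Agent.Lib.MP_17a322_nt.VA.PX

open MvPolynomial Height Filter
open Pool.Agent.Lib.MP_17a322_nt.RO
open Pool.Agent.Lib.MP_17a322_nt.VJ
open Pool.Agent.Lib.MP_17a322_nt.VN

section

variable {K : Type u} [Field K] [NumberField K] {N : ℕ} {A B : AV K N}
  {H : ℕ → ℝ} (hH : Tendsto H (hyperfilter ℕ : Filter ℕ) atTop)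

/-- The size at one place of the chart. -/
theorem single_le (C : AbsoluteValue K ℝ → Prop) (β : K) {v₀ : AbsoluteValue K ℝ} (hv : Pl v₀)
    (hC : C v₀) : Real.log (max 1 (v₀ β)) ≤ cbC C β := by
  classical
  have h1 := VD.gs_single (f := fun v : AbsoluteValue K ℝ =>
    if C v then Real.log (max 1 (v β)) else 0) (Z7_FS_ite (FS_log_max β)) (fun v _ => by
      split_ifs
      · exact Real.log_nonneg (le_max_left _ _)
      · exact le_rfl) hv
  beta_reduce at h1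
  rw [if_pos hC] at h1
  exact h1

/-- The proximity to the divisor of `f` is at most the proximity to that of an element of the ideal. -/
theorem pair {n e : ℕ} (nd : Noe B n e) (κ : SC K) {P : ℕ → A.Pts K} {Q : ℕ → B.Pts K}
    {p : A.Pts (GK K)} {b : B.Pts (GK K)} (hPp : IsGerm A P p) (hQb : IsGerm B Q b)
    (hl : lf (nd.l 0) (B.x b) ≠ 0) (a : Fin (N + 1)) (f : MvPolynomial (Fin (N + 1)) K)
    {z : MvPolynomial (Fin n) (k0 K H hH)}
    (hz : rename Sum.inr z ∈ Zideal hH nd (fun _ : Fin 1 => f) p b a)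
    (h0 : aeval (nd.s b) z ≠ 0) {ζ : ℕ → K} (hζ : gm ζ = aeval (nd.s b) z)
    {v₀ : AbsoluteValue K ℝ} (hv : Pl v₀)
    (hC : ∀ᶠ i in (hyperfilter ℕ : Filter ℕ), ChP nd κ P Q a i v₀) (δ : ℝ) (hδ : 0 < δ) :
    ∀ᶠ i in (hyperfilter ℕ : Filter ℕ),
      - Real.log (v₀ (aeval (fun c => A.x (P i) c / A.x (P i) a) f)) ≤
        - Real.log (v₀ (ζ i)) + δ * H i := by
  obtain ⟨E, hE⟩ := Z_mem_ideal hH hz
  obtain ⟨β, hβ, hβo⟩ := cbo_rep hH (ChP nd κ P Q a) (Zu nd P Q a)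
    (Z_cbo_u hH nd κ P hQb hl a) (E 0)
  have hu : (fun s => gm (Zu nd P Q a s)) =
      Sum.elim (Sum.elim (fun i => A.x p i / A.x p a) (nd.y b)) (nd.s b) :=
    funext fun s => Z_gm_u nd hPp hQb a s
  have hgj : gm (fun i => aeval (fun c => A.x (P i) c / A.x (P i) a) f) =
      aeval (fun i => A.x p i / A.x p a) f := by
    rw [← Z_aeval_gm fun c i => A.x (P i) c / A.x (P i) a]
    congr 2
    funext c
    exact (hPp.rt (c, a)).symm
  have hren : aeval (Sum.elim (Sum.elim (fun i => A.x p i / A.x p a) (nd.y b)) (nd.s b))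
        (rename Sum.inr z) = aeval (nd.s b) z := by
    rw [aeval_rename]
    rfl
  have hprod : gm ζ = gm fun i => β i * aeval (fun c => A.x (P i) c / A.x (P i) a) f := by
    rw [hζ, ← hren, hE, gm_mul, hβ, hu, hgj, Finset.univ_unique, Finset.sum_singleton]
    rfl
  have h1 := gm_eq_iff.1 hprod
  have h2 : ∀ᶠ i in (hyperfilter ℕ : Filter ℕ), ζ i ≠ 0 := by
    rw [← gm_ne_zero_iff, hζ]
    exact h0
  filter_upwards [h1, h2, hC, hβo δ hδ] with i g1 g2 g3 g4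
  have g5 := (single_le (ChP nd κ P Q a i) (β i) hv g3).trans g4
  rw [g1] at g2
  have g6 : β i ≠ 0 := left_ne_zero_of_mul g2
  have g7 := right_ne_zero_of_mul g2
  have g8 : Real.log (v₀ (β i)) ≤ Real.log (max 1 (v₀ (β i))) :=
    Real.log_le_log (v₀.pos g6) (le_max_right _ _)
  rw [g1, map_mul, Real.log_mul (v₀.pos g6).ne' (v₀.pos g7).ne']
  linarith

/-- No proximity in one chart. -/
theorem chart {N : ℕ} {A B : AV K N} (hB : IsSubAV B A)
    {H : ℕ → ℝ} (hH : Tendsto H (hyperfilter ℕ : Filter ℕ) atTop) {δ : ℕ} (hδ : 0 < δ)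
    {w : A.Pts (k0 K H hH)} {w' : A.Pts (GK K)} (hw : A.Img (k0 K H hH).val w w')
    {P : ℕ → A.Pts K} {p : A.Pts (GK K)} (hPp : IsGerm A P p) {Q : ℕ → B.Pts K}
    {b : B.Pts (GK K)} (hQb : IsGerm B Q b) (hP : δ • p = w' + hB.inc (GK K) b)
    (f : MvPolynomial (Fin (N + 1)) K) {d : ℕ} (hf : f.IsHomogeneous d)
    (hfp : aeval (A.x p) f ≠ 0) {n e : ℕ}
    (nd : Noe B n e) (κ : SC K) (hl : lf (nd.l 0) (B.x b) ≠ 0)
    {v₀ : AbsoluteValue K ℝ} (hv : Pl v₀)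
    (hnp : ∀ z : MvPolynomial (Fin n) (k0 K H hH), aeval (nd.s b) z ≠ 0 → ∀ a : ℕ → K,
      gm a = aeval (nd.s b) z → ∀ ε : ℝ, 0 < ε →
        ∀ᶠ i in (hyperfilter ℕ : Filter ℕ), - Real.log (v₀ (a i)) ≤ ε * H i)
    (a : Fin (N + 1))
    (hC : ∀ᶠ i in (hyperfilter ℕ : Filter ℕ), ChP nd κ P Q a i v₀) (ε : ℝ) (hε : 0 < ε) :
    ∀ᶠ i in (hyperfilter ℕ : Filter ℕ),
      - Real.log (v₀ (aeval (fun c => A.x (P i) c / A.x (P i) a) f)) ≤ ε * H i := by
  -- the coordinate `a` does not vanish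
  have ha : A.x p a ≠ 0 := by
    rw [hPp.ne_iff]
    filter_upwards [hC] with i hv
    intro h0
    have h4 := hv.1
    rw [h0, map_zero] at h4
    refine Z_x_ne A (P i) (funext fun c => ?_)
    exact (v₀.eq_zero).1 (le_antisymm (h4 c) (v₀.nonneg _))
  have hfp' : aeval (fun i => A.x p i / A.x p a) f ≠ 0 := by
    intro h0
    apply hfp
    have h1 := Z_aeval_smul hf (A.x p a) (fun i => A.x p i / A.x p a)
    rw [h0, mul_zero] at h1
    rw [← h1]
    congr 2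
    funext i
    rw [mul_div_cancel₀ _ ha]
  obtain ⟨z, hz0, hz⟩ := Z_push (Zideal hH nd (fun _ : Fin 1 => f) p b a)
    (x := Sum.elim (fun i => A.x p i / A.x p a) (nd.y b)) (t := nd.s b)
    (fun f hf => Ideal.mem_sup_left hf) (Z_algebraic hB hH hδ hw hP nd hl a)
    (Ideal.mem_sup_right (Ideal.subset_span ⟨0, rfl⟩)) (by
      intro h0
      apply hfp'
      rw [← Z_aeval_g hH (fun _ : Fin 1 => f) (fun i => A.x p i / A.x p a) (nd.y b) (nd.s b) 0]
      exact h0)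
  obtain ⟨ζ, hζ⟩ := exists_gm (aeval (nd.s b) z)
  filter_upwards [pair hH nd κ hPp hQb hl a f hz hz0 hζ hv hC (ε / 2) (by positivity),
    hnp z hz0 ζ hζ (ε / 2) (by positivity)] with i h1 h2
  linarith

end

end Pool.Agent.Lib.MP_17a322_nt.VA.PX
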