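import Pool.Agent.Lib.MP_17a322_nt.VDA.LG
import Pool.Agent.Lib.MP_17a322_nt.VDA.P1
import Pool.Agent.Lib.MP_17a322_nt.VA.FA8
import Pool.Agent.Lib.MP_17a322_nt.VA.T5
import Pool.Agent.Lib.MP_17a322_nt.VA.Z13
import Pool.Agent.Lib.MP_17a322_nt.VD.D17
import Pool.Agent.Lib.MP_17a322_nt.VDL.LE0
import Pool.Agent.Lib.MP_17a322_nt.VN.F5
import Pool.Agent.Lib.MP_17a322_nt.VN.F6b

/-!
No proximity at one place for polynomials over `k0` in the Noether coordinates.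
-/

universe u

namespace Pool.Agent.Lib.MP_17a322_nt.VA.PX

open MvPolynomial Height Filter
open Pool.Agent.Lib.MP_17a322_nt.RO
open Pool.Agent.Lib.MP_17a322_nt.VJ
open Pool.Agent.Lib.MP_17a322_nt.VN

/-- `- log |a|_v` is at most the height. -/
theorem neg_log_le {K : Type*} [Field K] [NumberField K] {v₀ : AbsoluteValue K ℝ} (hv : Pl v₀)
    (a : K) (ha : a ≠ 0) : - Real.log (v₀ a) ≤ logHeight₁ a := by
  have h1 : - Real.log (v₀ a) = Real.log (v₀ a⁻¹) := by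
    rw [map_inv₀, Real.log_inv]
  have h2 : Real.log (v₀ a⁻¹) ≤ Real.log (max 1 (v₀ a⁻¹)) :=
    Real.log_le_log (v₀.pos (inv_ne_zero ha)) (le_max_right _ _)
  have h3 := VD.gs_single (FS_log_max a⁻¹)
    (fun v _ => Real.log_nonneg (le_max_left (1 : ℝ) (v a⁻¹))) hv
  rw [gs_log_max, logHeight₁_inv] at h3
  rw [h1]
  exact h2.trans h3

section

variable {K : Type u} [Field K] [NumberField K] {N : ℕ} {B : AV K N} {n e : ℕ} (nd : Noe B n e)
  (κ : SC K)

/-- The gain of `(0, a)` is at least the proximity of `a` at one place. -/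
theorem le_gn (Q : B.Pts K) (a : K) {v₀ : AbsoluteValue K ℝ} (hv : Pl v₀)
    (hch : nd.In κ v₀ Q) : - Real.log (v₀ a) ≤ nd.gn κ Q 0 a := by
  classical
  have h1 := VD.gs_single (f := fun v : AbsoluteValue K ℝ =>
    if nd.In κ v Q then - Real.log (min 1 (max (v 0) (v a))) else 0)
    (Z7_FS_ite (Z7_FS_log_min 0 a)) (fun v _ => by
      split_ifs
      · exact Z_neg_log_nonneg ((v.nonneg a).trans (le_max_right _ _))
      · exact le_rfl) hv
  beta_reduce at h1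
  rw [if_pos hch, map_zero, max_eq_right (v₀.nonneg a)] at h1
  have h2 : - Real.log (v₀ a) ≤ - Real.log (min 1 (v₀ a)) := by
    rcases le_total 1 (v₀ a) with h | h
    · rw [min_eq_left h, Real.log_one]
      have := Real.log_nonneg h
      linarith
    · rw [min_eq_right h]
  exact h2.trans h1

/-- The joint gain is at least the gain at one place. -/
theorem le_gjA {m : ℕ} (hm : 0 < m) (j : Fin m → ℕ) (P : Fin m → B.Pts K) (a : Fin m → K)
    (ha : ∀ i, a i ≠ 0) {v₀ : AbsoluteValue K ℝ} (hv : Pl v₀) (hch : ∀ i, nd.In κ v₀ (P i))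
    {g : ℝ} (hg : ∀ i, 4 ^ j i * g ≤ - Real.log (v₀ (a i))) : g ≤ VDA.gj nd κ j P a := by
  classical
  have he : ∀ v : AbsoluteValue K ℝ, (⨅ i, (- Real.log (min 1 (v (a i)))) / (4 : ℝ) ^ j i) =
      VDL.gjv j (fun _ (t : Fin 0) => (Fin.elim0 t : K)) a v := by
    intro v
    unfold VDL.gjv
    rw [if_pos fun _ t => Fin.elim0 t]
  have h1 := VD.gs_single (f := fun v : AbsoluteValue K ℝ =>
    if ∀ i, nd.In κ v (P i) then ⨅ i, (- Real.log (min 1 (v (a i)))) / (4 : ℝ) ^ j i else 0)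
    (by
      simp only [he]
      exact Z7_FS_ite (VDL.FS_gjv j _ a ha)) (fun v _ => by
      split_ifs
      · rw [he]
        exact VDL.gjv_nonneg _ _ _ _
      · exact le_rfl) hv
  beta_reduce at h1
  rw [if_pos hch] at h1
  have : Nonempty (Fin m) := ⟨⟨0, hm⟩⟩
  refine le_trans (le_ciInf fun i => ?_) h1
  have h2 : (0 : ℝ) < 4 ^ j i := by positivity
  rw [le_div_iff₀ h2]
  have h3 := hg i
  have h4 : - Real.log (v₀ (a i)) ≤ - Real.log (min 1 (v₀ (a i))) := by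
    rcases le_total 1 (v₀ (a i)) with h | h
    · rw [min_eq_left h, Real.log_one]
      have := Real.log_nonneg h
      linarith
    · rw [min_eq_right h]
  linarith

/-- The Noether coordinates are bounded in the chart. -/
theorem cbo_s {H : ℕ → ℝ} (hH : Tendsto H (hyperfilter ℕ : Filter ℕ) atTop) {Q : ℕ → B.Pts K}
    {b : B.Pts (GK K)} (hQb : IsGerm B Q b) (k : Fin n) :
    cbo H (fun i v => nd.In κ v (Q i)) fun ν => nd.s (Q ν) k := by
  have hy : ∀ i, cbo H (fun i v => nd.In κ v (Q i)) fun ν => nd.y (Q ν) i := by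
    intro i
    refine cbo_of_bound hH _ (κ := fun v => κ.k v) (fun v => κ.one_le v) (κ.FS_log K) ?_
    intro ν v hv
    have h1 := hv i
    unfold Noe.y
    rw [map_div₀]
    rcases eq_or_ne (lf (nd.l 0) (B.x (Q ν))) 0 with h0 | h0
    · rw [h0, map_zero, div_zero]
      exact (κ.pos v).le
    · rw [div_le_iff₀ (v.pos h0)]
      exact h1
  obtain ⟨β, hβ, hβ'⟩ := cbo_rep hH (fun i v => nd.In κ v (Q i)) (fun i ν => nd.y (Q ν) i) hy
    (∑ i, MvPolynomial.C (algebraMap K (k0 K H hH) (nd.l k.succ i)) * X i)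
  have h1 : gm β = gm fun ν => nd.s (Q ν) k := by
    rw [hβ, Z_gm_s nd hQb, ← Z_lf_s, map_sum]
    unfold lf
    refine Finset.sum_congr rfl fun i _ => ?_
    rw [map_mul, aeval_C, aeval_X, Z_gm_y nd hQb]
    rfl
  intro δ hδ
  filter_upwards [hβ' δ hδ, gm_eq_iff.1 h1] with ν h2 h3
  show cbC _ (nd.s (Q ν) k) ≤ δ * H ν
  rw [← h3]
  exact h2

end

/-- The independent case. -/
theorem no_prox_indep {K : Type u} [Field K] [NumberField K] {N : ℕ} (B : AV K N) {H : ℕ → ℝ}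
    (hH : Tendsto H (hyperfilter ℕ : Filter ℕ) atTop) (Q : ℕ → B.Pts K) (hQ : FRM B.h H Q)
    (hC : ∃ C : ℝ, 0 < C ∧ ∀ᶠ i in (hyperfilter ℕ : Filter ℕ), B.h (Q i) ≤ C * H i)
    (b : B.Pts (GK K)) (hb : IsGerm B Q b) {k e₀ : ℕ} (hdim : B.dimIs (k + 1))
    (nd : Noe B (k + 1) e₀) (κ : SC K) (hgood : nd.Good b)
    (hind : AlgebraicIndependent (k0 K H hH) (nd.s b))
    {v₀ : AbsoluteValue K ℝ} (hv : Pl v₀)
    (hch : ∀ᶠ i in (hyperfilter ℕ : Filter ℕ), nd.In κ v₀ (Q i))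
    (z : MvPolynomial (Fin (k + 1)) (k0 K H hH)) (hz : z ≠ 0) (hu : ¬ IsUnit z) (a : ℕ → K)
    (ha : gm a = aeval (nd.s b) z) (ε : ℝ) (hε : 0 < ε) :
    ∀ᶠ i in (hyperfilter ℕ : Filter ℕ), - Real.log (v₀ (a i)) ≤ ε * H i := by
  classical
  by_contra hcon
  rw [not_eventually_iff] at hcon
  have hgain : ∀ᶠ i in (hyperfilter ℕ : Filter ℕ), ε * H i ≤ - Real.log (v₀ (a i)) :=
    hcon.mono fun i hi => (not_le.mp hi).le
  have hga : gm a ≠ 0 := by
    intro h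
    rw [ha] at h
    exact hz ((algebraicIndependent_iff.mp hind) z h)
  have hane : ∀ᶠ i in (hyperfilter ℕ : Filter ℕ), a i ≠ 0 := gm_ne_zero_iff.mp hga
  have hsg : (fun t => gm fun i => nd.s (Q i) t) = nd.s b := funext fun t => Z_gm_s nd hb t
  obtain ⟨C, hC0, hC⟩ := hC
  obtain ⟨e, ρ₀, hρ₀⟩ := VD.REPEX1 z hz hu
  obtain ⟨D, h, hh, hρ'⟩ := REP_transfer ρ₀
  have hev : ∀ᶠ i in (hyperfilter ℕ : Filter ℕ), eval (nd.s (Q i)) (pr z i) = a i := by
    rw [← gm_eq_iff, gm_eval_pr z fun i t => nd.s (Q i) t, hsg, ha]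
  have hρ : ∀ᶠ i in (hyperfilter ℕ : Filter ℕ), ∃ ρ : REP K (k + 1) e, ρ.Deg D ∧ ρ.ht ≤ h i ∧
      eval (nd.s (Q i)) (ρ.z 0) = a i := by
    filter_upwards [hρ', hev] with i h1 h2
    obtain ⟨ρ', g1, g2, g3⟩ := h1
    refine ⟨ρ', g2, g3, ?_⟩
    rw [g1, hρ₀]
    exact h2
  obtain ⟨o, t, ht⟩ := AV.exists_frame hdim
  obtain ⟨m, D', R₀, C₀, η, hm, hC₀, hη, hS⟩ :=
    VDA.SDA B nd o t ht κ e D (ε / (2 * C)) (by positivity)
  obtain ⟨δ, hδ, hSI⟩ := SI (fun i t => nd.s (Q i) t) (fun t => t) Function.injective_id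
    (by rw [hsg]; exact hind) D'
  obtain ⟨a₀, b₀, j, -, hSb, hCa, hpos, hR1, hR2, hhj, h4j, hpt, hcone⟩ := hQ h hh
    (fun i => (∃ ρ : REP K (k + 1) e, ρ.Deg D ∧ ρ.ht ≤ h i ∧ eval (nd.s (Q i)) (ρ.z 0) = a i) ∧
      (a i ≠ 0 ∧ ε * H i ≤ - Real.log (v₀ (a i)) ∧ nd.In κ v₀ (Q i)) ∧ nd.Good (Q i) ∧
      B.h (Q i) ≤ C * H i ∧
        ∀ G : MvPolynomial (Fin (k + 1)) K, G ≠ 0 →
          (∀ t, t ∉ Set.range (fun t : Fin (k + 1) => t) → G.degreeOf t = 0) →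
          (∀ t, G.degreeOf t ≤ D') → nh G ≤ δ * H i → eval (nd.s (Q i)) G ≠ 0)
    (hρ.and ((hane.and (hgain.and hch)).and (((good_germ nd hb).1 hgood).and (hC.and hSI))))
    m R₀ (max C₀ (2 * C * C₀ / δ)) η hη
  choose ρ hρD hρh hρz using fun i => (hSb i).1
  have hbd : ∀ i, (4 : ℝ) ^ j i * B.h (Q a₀) ≤ 2 * C * H (b₀ i) := by
    intro i
    have h1 := mul_le_mul_of_nonneg_left (hSb i).2.2.2.1 (by norm_num : (0 : ℝ) ≤ 2)
    refine ((h4j i).trans h1).trans (le_of_eq ?_)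
    ring
  have hg : ε / (2 * C) * B.h (Q a₀) ≤
      VDA.gj nd κ j (fun i => Q (b₀ i)) (fun i => eval (nd.s (Q (b₀ i))) ((ρ i).z 0)) := by
    refine le_gjA nd κ hm j _ _ (fun i => by rw [hρz i]; exact (hSb i).2.1.1) hv
      (fun i => (hSb i).2.1.2.2) fun i => ?_
    rw [hρz i]
    refine le_trans ?_ (hSb i).2.1.2.1
    have h1 := mul_le_mul_of_nonneg_left (hbd i) (show (0 : ℝ) ≤ ε / (2 * C) by positivity)
    calc (4 : ℝ) ^ j i * (ε / (2 * C) * B.h (Q a₀))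
        = ε / (2 * C) * (4 ^ j i * B.h (Q a₀)) := by ring
      _ ≤ ε / (2 * C) * (2 * C * H (b₀ i)) := h1
      _ = ε * H (b₀ i) := by field_simp
  obtain ⟨i, G, hG0, hGd, hGn, hGe⟩ := hS (Q a₀) (fun i => Q (b₀ i)) j ρ hR1 hR2
    (fun i => (hSb i).2.2.1) hρD (fun i => (hρh i).trans (hhj i))
    (fun i => by rw [hρz i]; exact (hSb i).2.1.1) hg ((le_max_left _ _).trans hCa) hpt hcone
  refine (hSb i).2.2.2.2 G hG0 (fun t ht => absurd ⟨t, rfl⟩ ht) hGd ?_ hGe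
  refine hGn.trans ?_
  have h1 : 2 * C * C₀ / δ ≤ B.h (Q a₀) := (le_max_right _ _).trans hCa
  rw [div_le_iff₀ hδ] at h1
  have h3 : (0 : ℝ) < 4 ^ j i := by positivity
  have h4 := mul_le_mul_of_nonneg_left h1 h3.le
  have h5 := mul_le_mul_of_nonneg_left (hbd i) hδ.le
  have h6 : 2 * C * (C₀ * 4 ^ j i) ≤ 2 * C * (δ * H (b₀ i)) := by
    calc 2 * C * (C₀ * 4 ^ j i) = 4 ^ j i * (2 * C * C₀) := by ring
      _ ≤ 4 ^ j i * (B.h (Q a₀) * δ) := h4
      _ = δ * (4 ^ j i * B.h (Q a₀)) := by ring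
      _ ≤ δ * (2 * C * H (b₀ i)) := h5
      _ = 2 * C * (δ * H (b₀ i)) := by ring
  exact le_of_mul_le_mul_left h6 (by positivity)

theorem no_prox {K : Type u} [Field K] [NumberField K] {N : ℕ} (B : AV K N) {H : ℕ → ℝ}
    (hH : Tendsto H (hyperfilter ℕ : Filter ℕ) atTop) (Q : ℕ → B.Pts K) (hQ : FRM B.h H Q)
    (hc : ∃ c : ℝ, 0 < c ∧ ∀ᶠ i in (hyperfilter ℕ : Filter ℕ), c * H i ≤ B.h (Q i))
    (hC : ∃ C : ℝ, 0 < C ∧ ∀ᶠ i in (hyperfilter ℕ : Filter ℕ), B.h (Q i) ≤ C * H i)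
    (b : B.Pts (GK K)) (hb : IsGerm B Q b) {n e₀ : ℕ} (hdim : B.dimIs n)
    (nd : Noe B n e₀) (κ : SC K) (hgood : nd.Good b) (hnr : NoRat B hH b)
    {v₀ : AbsoluteValue K ℝ} (hv : Pl v₀)
    (hch : ∀ᶠ i in (hyperfilter ℕ : Filter ℕ), nd.In κ v₀ (Q i))
    (z : MvPolynomial (Fin n) (k0 K H hH)) (hz : aeval (nd.s b) z ≠ 0) (a : ℕ → K)
    (ha : gm a = aeval (nd.s b) z) (ε : ℝ) (hε : 0 < ε) :
    ∀ᶠ i in (hyperfilter ℕ : Filter ℕ), - Real.log (v₀ (a i)) ≤ ε * H i := by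
  classical
  have hz0 : z ≠ 0 := by
    rintro rfl
    exact hz (map_zero _)
  have hane : ∀ᶠ i in (hyperfilter ℕ : Filter ℕ), a i ≠ 0 := by
    rw [← gm_ne_zero_iff, ha]
    exact hz
  by_cases hu : IsUnit z
  · have hCz : z = MvPolynomial.C (coeff 0 z) := by
      have h1 := (isUnit_iff_coeff hz0).mp hu
      refine MvPolynomial.ext _ _ fun m => ?_
      rw [coeff_C]
      split_ifs with hm
      · rw [hm]
      · exact h1 m (Ne.symm hm)
    have hmem : gm a ∈ k0 K _ hH := by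
      rw [ha, hCz, aeval_C]
      exact (coeff 0 z).2
    rw [mem_k0] at hmem
    filter_upwards [hane, hmem ε hε] with i h1 h2
    exact (neg_log_le hv (a i) h1).trans h2
  by_cases hind : AlgebraicIndependent (k0 K H hH) (nd.s b)
  · rcases n with _ | k
    · exfalso
      apply hu
      have h4 : isEmptyAlgEquiv (k0 K H hH) (Fin 0) z ≠ 0 := by
        intro h5
        exact hz0 ((isEmptyAlgEquiv (k0 K H hH) (Fin 0)).injective (by rw [h5, map_zero]))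
      have h5 := (isUnit_iff_ne_zero.2 h4).map (isEmptyAlgEquiv (k0 K H hH) (Fin 0)).symm
      rwa [AlgEquiv.symm_apply_apply] at h5
    · exact no_prox_indep B hH Q hQ hC b hb hdim nd κ hgood hind hv hch z hz0 hu a ha ε hε
  · rw [algebraicIndependent_iff] at hind
    push Not at hind
    obtain ⟨q, hq, hq0⟩ := hind
    obtain ⟨q₁, hq₁, -, hq₁t⟩ := E3b_factor (nd.s b) q hq0 hq
    have hrel : IsRelPrime q₁ z := by
      refine (Irreducible.isRelPrime_iff_not_dvd hq₁).mpr fun hd => ?_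
      obtain ⟨c, hc⟩ := hd
      apply hz
      rw [hc, map_mul, hq₁t, zero_mul]
    rcases Nat.lt_or_ge n 2 with h2 | h2
    · obtain ⟨α, β, hαβ⟩ := Z_isCoprime (by omega : n ≤ 1) hrel
      obtain ⟨β', hβ', hβo⟩ := cbo_rep hH (fun i v => nd.In κ v (Q i))
        (fun k ν => nd.s (Q ν) k) (fun k => cbo_s nd κ hH hb k) β
      have hsg : (fun t => gm fun i => nd.s (Q i) t) = nd.s b := funext fun t => Z_gm_s nd hb t
      rw [hsg] at hβ'
      have h3 : gm (fun i => β' i * a i) = gm fun _ => (1 : K) := by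
        rw [gm_mul, hβ', ha, ← map_mul]
        have h4 := congrArg (aeval (nd.s b)) hαβ
        rw [map_add, map_mul, hq₁t, mul_zero, zero_add, map_one] at h4
        rw [h4]
        rfl
      filter_upwards [hane, hβo ε hε, gm_eq_iff.1 h3, hch] with i g1 g2 g3 g4
      have g5 := (single_le (fun v => nd.In κ v (Q i)) (β' i) hv g4).trans g2
      have g6 : β' i ≠ 0 := by
        intro h0
        rw [h0, zero_mul] at g3
        exact zero_ne_one g3
      have g7 : Real.log (v₀ (β' i)) ≤ Real.log (max 1 (v₀ (β' i))) :=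
        Real.log_le_log (v₀.pos g6) (le_max_right _ _)
      have g8 := congrArg (fun x => Real.log (v₀ x)) g3
      simp only [map_mul, map_one, Real.log_one] at g8
      rw [Real.log_mul (v₀.pos g6).ne' (v₀.pos g1).ne'] at g8
      linarith
    · obtain ⟨k, rfl⟩ := Nat.exists_eq_add_of_le' h2
      have h3 := no_gain B hH Q hQ hc hC b hb hdim nd κ hgood hnr q₁ z hrel (Or.inr hz)
        (fun _ => 0) a (by rw [hq₁t]; rfl) ha ε hε
      filter_upwards [h3, hch] with i g1 g2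
      exact (le_gn nd κ (Q i) (a i) hv g2).trans g1

end Pool.Agent.Lib.MP_17a322_nt.VA.PX
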