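import Pool.Agent.Lib.MP_17a322_nt.VDA.P2
import Pool.Agent.Lib.MP_17a322_nt.VA.Z15
import Pool.Agent.Lib.MP_17a322_nt.VG.B1

/-!
Proximity to a divisor on abelian varieties.
-/

universe u

namespace Pool.Agent.Lib.MP_17a322_nt.VA.PX

open MvPolynomial Height Filter
open Pool.Agent.Lib.MP_17a322_nt.RO
open Pool.Agent.Lib.MP_17a322_nt.VJ
open Pool.Agent.Lib.MP_17a322_nt.VN

/-- The local height with respect to the form `f` of degree `d`. -/
noncomputable def tmA {K : Type*} [Field K] {N : ℕ} (f : MvPolynomial (Fin (N + 1)) K) (d : ℕ)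
    (x : Fin (N + 1) → K) (v : K → ℝ) : ℝ :=
  d * Real.log (⨆ i, v (x i)) - Real.log (v (aeval x f))

theorem abv_form_le {K : Type*} [Field K] {N d : ℕ} (f : MvPolynomial (Fin (N + 1)) K)
    (hf : f.IsHomogeneous d) (x : Fin (N + 1) → K) (v : AbsoluteValue K ℝ) :
    v (aeval x f) ≤ NV v f * (⨆ i, v (x i)) ^ d := by
  have hM : ∀ i, v (x i) ≤ ⨆ i, v (x i) := fun i =>
    le_ciSup (Set.finite_range fun i => v (x i)).bddAbove i
  have hM0 : 0 ≤ ⨆ i, v (x i) := (v.nonneg _).trans (hM 0)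
  have h1 : aeval x f = ∑ m ∈ f.support, coeff m f * ∏ i, x i ^ m i := by
    rw [aeval_def, eval₂_eq']
    rfl
  rw [h1]
  refine VG.part_le v f f.support (Finset.Subset.refl _) _ (pow_nonneg hM0 d) fun m hm => ?_
  rw [map_prod]
  have h2 : ∑ i, m i = d := by
    have h5 := hf (mem_support_iff.1 hm)
    rw [← h5, Finsupp.weight_apply, Finsupp.sum_fintype]
    · simp
    · intro i
      simp
  calc ∏ i, v (x i ^ m i) ≤ ∏ i, (⨆ i, v (x i)) ^ m i :=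
        Finset.prod_le_prod (fun i _ => v.nonneg _) fun i _ => by
          rw [map_pow]
          exact pow_le_pow_left₀ (v.nonneg _) (hM i) _
    _ = (⨆ i, v (x i)) ^ d := by rw [Finset.prod_pow_eq_pow_sum, h2]

theorem liouville {K : Type*} [Field K] [NumberField K] {N d : ℕ}
    (f : MvPolynomial (Fin (N + 1)) K) (hf : f.IsHomogeneous d) (x : Fin (N + 1) → K)
    (hx : x ≠ 0) (hfx : aeval x f ≠ 0) {v₀ : AbsoluteValue K ℝ} (hv : Pl v₀) :
    tmA f d x v₀ ≤ d * logHeight x + nh1 f := by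
  obtain ⟨φ, hφd⟩ : ∃ φ : AbsoluteValue K ℝ → ℝ, φ = fun v =>
    (d * Real.log (⨆ i, v (x i)) - Real.log (v (aeval x f))) + Real.log (max 1 (NV v f)) :=
    ⟨_, rfl⟩
  have h1 : FS fun v : AbsoluteValue K ℝ => d * Real.log (⨆ i, v (x i)) :=
    FS_const_mul _ (FS_log_iSup hx)
  have h2 : FS fun v : AbsoluteValue K ℝ =>
      d * Real.log (⨆ i, v (x i)) - Real.log (v (aeval x f)) := FS_sub h1 (FS_log_abv hfx)
  have hφ : FS φ := by
    rw [hφd]
    exact FS_add h2 (FS_nh1 f)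
  have hgs : gs φ = d * logHeight x + nh1 f := by
    rw [hφd, gs_add h2 (FS_nh1 f), gs_sub h1 (FS_log_abv hfx), gs_const_mul, gs_log_iSup hx,
      gs_log_abv hfx, sub_zero]
    rfl
  have hpos : ∀ v : AbsoluteValue K ℝ, 0 < ⨆ i, v (x i) := by
    intro v
    obtain ⟨i, hi⟩ := Function.ne_iff.mp hx
    exact (v.pos hi).trans_le (le_ciSup (Set.finite_range fun i => v (x i)).bddAbove i)
  have hnn : ∀ v : AbsoluteValue K ℝ, 0 ≤ φ v := by
    intro v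
    rw [hφd]
    have h3 := abv_form_le f hf x v
    have h4 : v (aeval x f) ≤ max 1 (NV v f) * (⨆ i, v (x i)) ^ d :=
      h3.trans (mul_le_mul_of_nonneg_right (le_max_right _ _) (pow_nonneg (hpos v).le _))
    have h5 := Real.log_le_log (v.pos hfx) h4
    rw [Real.log_mul (lt_max_of_lt_left one_pos).ne' (pow_pos (hpos v) _).ne',
      Real.log_pow] at h5
    show 0 ≤ (d * Real.log (⨆ i, v (x i)) - Real.log (v (aeval x f))) +
      Real.log (max 1 (NV v f))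
    linarith
  rw [← hgs]
  refine le_trans ?_ (VD.gs_single hφ (fun v _ => hnn v) hv)
  rw [hφd]
  have h6 : 0 ≤ Real.log (max 1 (NV v₀ f)) := Real.log_nonneg (le_max_left _ _)
  show d * Real.log (⨆ i, v₀ (x i)) - Real.log (v₀ (aeval x f)) ≤
    (d * Real.log (⨆ i, v₀ (x i)) - Real.log (v₀ (aeval x f))) + Real.log (max 1 (NV v₀ f))
  linarith

/-- The local height in a chart. -/
theorem tmA_chart {K : Type*} [Field K] {N d : ℕ} (f : MvPolynomial (Fin (N + 1)) K)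
    (hf : f.IsHomogeneous d) (x : Fin (N + 1) → K) (hx : x ≠ 0) (hfx : aeval x f ≠ 0)
    (v : AbsoluteValue K ℝ) (a : Fin (N + 1)) (ha : ∀ c, v (x c) ≤ v (x a)) :
    tmA f d x v = - Real.log (v (aeval (fun c => x c / x a) f)) := by
  obtain ⟨b, hb⟩ := Function.ne_iff.1 hx
  have ha0 : 0 < v (x a) := (v.pos hb).trans_le (ha b)
  have hxa : x a ≠ 0 := (v.pos_iff).1 ha0
  have h1 : (⨆ b, v (x b)) = v (x a) :=
    le_antisymm (ciSup_le ha) (le_ciSup (Set.finite_range fun b => v (x b)).bddAbove a)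
  have h2 : aeval x f = x a ^ d * aeval (fun b => x b / x a) f := by
    rw [← Z_aeval_smul hf]
    congr 2
    funext b
    rw [mul_div_cancel₀ _ hxa]
  have h3 : aeval (fun b => x b / x a) f ≠ 0 := by
    intro h0
    rw [h0, mul_zero] at h2
    exact hfx h2
  unfold tmA
  rw [h1, h2, map_mul, map_pow, Real.log_mul (pow_pos ha0 d).ne' (v.pos h3).ne', Real.log_pow]
  ring

/-- A sequence of bad points which leaves every hypersurface does not exist. -/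
theorem prox_seq {K : Type u} [Field K] [NumberField K] {N : ℕ} (A : AV K N)
    (Γ : AddSubgroup (A.Pts K)) (hΓ : Γ.FG) (d : ℕ)
    (f : MvPolynomial (Fin (N + 1)) K) (hf : f.IsHomogeneous d) (hfA : f ∉ A.I)
    {v₀ : AbsoluteValue K ℝ} (hv : Pl v₀) (ε : ℝ) (hε : 0 < ε) (P : ℕ → A.Pts K)
    (hPΓ : ∀ ν, P ν ∈ Γ)
    (hbad : ∀ ν, ε * A.h (P ν) + ν < tmA f d (A.x (P ν)) v₀)
    (hPg : ∀ (G : MvPolynomial (Fin (N + 1)) K) (D : ℕ), G.IsHomogeneous D → G ∉ A.I →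
      ∀ᶠ ν in (hyperfilter ℕ : Filter ℕ), aeval (A.x (P ν)) G ≠ 0) : False := by
  classical
  have hH0 : ∀ ν, 0 ≤ A.h (P ν) := fun ν => logHeight_nonneg _
  have hH : Tendsto (fun ν => A.h (P ν)) (hyperfilter ℕ : Filter ℕ) atTop := by
    refine tendsto_atTop.2 fun C => ?_
    obtain ⟨m, hm⟩ := exists_nat_ge (d * C + nh1 f)
    filter_upwards [eventually_ge_hyper m, hPg f d hf hfA] with ν hν hfν
    have h1 := hbad ν
    have h2 := liouville f hf (A.x (P ν)) (Z_x_ne A (P ν)) hfν hv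
    have h3 : 0 ≤ ε * A.h (P ν) := mul_nonneg hε.le (hH0 ν)
    have h4 : (m : ℝ) ≤ ν := by exact_mod_cast hν
    have h6 : (d : ℝ) * logHeight (A.x (P ν)) = d * A.h (P ν) := rfl
    have h5 : (d : ℝ) * C < d * A.h (P ν) := by linarith
    exact (lt_of_mul_lt_mul_left h5 (Nat.cast_nonneg d)).le
  obtain ⟨p, hPp⟩ := Z_exists_germ A P
  have hgen := Z_germ_generic hPp hPg
  obtain ⟨B, hB, δ, w, w', b, hδ, hw, hrel, hmin, hnr⟩ := geom_noRat A hH p
  obtain ⟨W, hW⟩ := Z_germ_seq A w'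
  obtain ⟨Q₀, hQ₀⟩ := Z_germ_seq B b
  obtain ⟨n, hn⟩ := Z_exists_dim B
  obtain ⟨s, e, nd, κ, hcov⟩ := exists_cover B hn
  obtain ⟨p₁, hgood⟩ := exists_shift B Q₀ b hQ₀ hmin e nd
  -- the shifted points
  obtain ⟨q₁, hq₁⟩ : ∃ q₁, q₁ = B.img (Algebra.ofId K (GK K)) p₁ := ⟨_, rfl⟩
  have hp₁ : B.Img (Algebra.ofId K (GK K)) p₁ q₁ := by
    rw [hq₁]
    exact Z_img_img _ _
  have hQ : IsGerm B (fun ν => Q₀ ν - p₁) (b - q₁) := (hQ₀.add_sub (IsGerm.const p₁ hp₁)).2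
  obtain ⟨Q, hQdef⟩ : ∃ Q : ℕ → B.Pts K, ∀ ν, Q ν = Q₀ ν - p₁ := ⟨_, fun _ => rfl⟩
  have hQb : IsGerm B Q (b - q₁) := by
    rw [show Q = fun ν => Q₀ ν - p₁ from funext hQdef]
    exact hQ
  have hw₁ : A.Img (k0 K (fun ν => A.h (P ν)) hH).val
      (A.img (Algebra.ofId K (k0 K (fun ν => A.h (P ν)) hH)) (hB.inc K p₁))
      (hB.inc (GK K) q₁) := by
    obtain ⟨y, hy⟩ := Z_exists_img A (k0 K (fun ν => A.h (P ν)) hH).val
      (A.img (Algebra.ofId K (k0 K (fun ν => A.h (P ν)) hH)) (hB.inc K p₁))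
    have h1 := Z_img_trans A (Z_img_img (Algebra.ofId K (k0 K (fun ν => A.h (P ν)) hH))
      (hB.inc K p₁)) hy
    have h2 : (k0 K (fun ν => A.h (P ν)) hH).val.comp
        (Algebra.ofId K (k0 K (fun ν => A.h (P ν)) hH)) = Algebra.ofId K (GK K) :=
      Subsingleton.elim _ _
    rw [h2] at h1
    rw [← Z_img_unique A h1 (Z_inc_img hB hp₁)]
    exact hy
  have hw₂ := Z_img_add A hw hw₁
  have hrel₂ : δ • p = (w' + hB.inc (GK K) q₁) + hB.inc (GK K) (b - q₁) := by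
    rw [map_sub, hrel]
    abel
  have hW₂ : IsGerm A (fun ν => W ν + hB.inc K p₁) (w' + hB.inc (GK K) q₁) :=
    (hW.add_sub (IsGerm.inc hB (IsGerm.const p₁ hp₁))).1
  have hoH := Z_oH_of_img hH hW₂ hw₂
  have hrelK : ∀ᶠ ν in (hyperfilter ℕ : Filter ℕ),
      hB.inc K (Q ν) = δ • P ν - (W ν + hB.inc K p₁) := by
    have h1 := (hPp.nsmul δ)
    rw [hrel₂] at h1
    filter_upwards [h1.ev_eq (hW₂.add_sub (hQb.inc hB)).1] with ν hν
    rw [hν]
    abel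
  obtain ⟨hfrm, hlow, hupp⟩ := frm_sub A B hB Γ hΓ P hPΓ hH hδ _ hoH Q hrelK
  -- one chart
  have hch : ∀ᶠ ν in (hyperfilter ℕ : Filter ℕ),
      ∃ x : Fin (N + 1) × Fin s, ChP (nd x.2) κ P Q x.1 ν v₀ := by
    refine Eventually.of_forall fun ν => ?_
    obtain ⟨a, ha⟩ := Finite.exists_max fun b => v₀ (A.x (P ν) b)
    obtain ⟨c, hc⟩ := hcov K v₀ (Q ν)
    exact ⟨(a, c), ha, hc⟩
  obtain ⟨⟨a, c⟩, hac⟩ := eventually_exists_fintype _ _ hch
  have hfp : aeval (A.x p) f ≠ 0 := hgen f d hf hfA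
  have hsmall := chart hB hH hδ hw₂ hPp hQb hrel₂ f hf hfp (nd c) κ
    (by rw [hq₁]; exact (hgood c).1) hv
    (fun z hz a' ha' ε' hε' => no_prox B hH Q hfrm hlow hupp (b - q₁) hQb hn (nd c) κ
      (by rw [hq₁]; exact hgood c) (by rw [hq₁]; exact hnr p₁) hv
      (hac.mono fun ν hν => hν.2) z hz a' ha' ε' hε')
    a hac ε hε
  obtain ⟨ν, h1, h2, h3⟩ := (hsmall.and (hac.and (hPg f d hf hfA))).exists
  have h4 := tmA_chart f hf (A.x (P ν)) (Z_x_ne A (P ν)) h3 v₀ a h2.1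
  have h5 := hbad ν
  rw [h4] at h5
  have h6 : (0 : ℝ) ≤ ν := Nat.cast_nonneg ν
  linarith

/-- The proximity inequality for one place. -/
theorem one_place {K : Type u} [Field K] [NumberField K] {N : ℕ} (A : AV K N)
    (Γ : AddSubgroup (A.Pts K)) (hΓ : Γ.FG) (d : ℕ)
    (f : MvPolynomial (Fin (N + 1)) K) (hf : f.IsHomogeneous d) (hfA : f ∉ A.I)
    {v₀ : AbsoluteValue K ℝ} (hv : Pl v₀) (ε : ℝ) (hε : 0 < ε) :
    ∃ (G : MvPolynomial (Fin (N + 1)) K) (C : ℝ), G ∉ A.I ∧ (∃ D, G.IsHomogeneous D) ∧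
      ∀ P ∈ Γ, aeval (A.x P) G ≠ 0 →
        tmA f d (A.x P) v₀ ≤ ε * logHeight (A.x P) + C := by
  by_contra hcon
  push Not at hcon
  obtain ⟨P, hP, hPg⟩ := Z_generic_seq A (fun ν => {P : A.Pts K | P ∈ Γ ∧ ε * A.h P + ν <
    tmA f d (A.x P) v₀}) fun G D hGD hG ν => by
      obtain ⟨p, h1, h2, h3⟩ := hcon G ν hG ⟨D, hGD⟩
      exact ⟨p, ⟨h1, h3⟩, h2⟩
  exact prox_seq A Γ hΓ d f hf hfA hv ε hε P (fun ν => (hP ν).1) (fun ν => (hP ν).2)
    fun G D hGD hG => (hPg G D hGD hG).filter_mono Nat.hyperfilter_le_atTop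

end Pool.Agent.Lib.MP_17a322_nt.VA.PX
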